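import Pool.Agent.FT56.Tri

/-!
Splitting of the systems of a principal extension at tight sets.

* `fib_e` : at most two copies of `e`;
* `fib_t` : the systems of the contraction by `e`;
* `fib_all` : all systems, from the two.
-/

set_option autoImplicit false

namespace Pool.Agent.FT56

open Finset Pool.Agent.DT3 Pool.Agent.CF98

variable {α β : Type*} [DecidableEq α] [DecidableEq β] {ρ ρ' : Finset α → ℕ} {e : α}
  {F : Finset α}

theorem mkr_con {ρ : Finset α → ℕ} (h : RankFn ρ) (ψ : β → α) (I : Finset α) (X Y : Finset β) :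
    mkr ρ ψ I (Y ∪ X) - mkr ρ ψ I X = mkr ρ ψ (X.image ψ ∪ I) Y := by
  unfold mkr
  have h1 := h.mono I (X.image ψ ∪ I) subset_union_right
  have h2 := h.mono (X.image ψ ∪ I) (Y.image ψ ∪ (X.image ψ ∪ I)) subset_union_right
  rw [image_union, union_assoc]
  omega

/-- Without copies of `e`, and with `F` in the closure of `J`, the contraction by `J + e` is the one by `J`. -/
theorem PE.cl (hP : PE ρ ρ' e F) {J : Finset α} (hJ : e ∉ J) (hF : ρ (J ∪ F) = ρ J)
    {T : Finset α} (hT : e ∉ T) : ρ' (insert e (T ∪ J)) = ρ (T ∪ J) := by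
  have h1 : e ∉ T ∪ J := by
    rw [mem_union]
    tauto
  rw [hP.inn _ h1]
  have h2 := CF98.rk_cup_congr hP.r1 (X := J) (Y := J ∪ F) subset_union_left hF.symm T
  have h3 : T ∪ J ∪ F = J ∪ F ∪ T := by
    ext z
    simp only [mem_union]
    tauto
  rw [h3, ← h2, union_comm J T]
  omega

omit [DecidableEq β] in
theorem PE.con (hP : PE ρ ρ' e F) (ψ : β → α) {J : Finset α} (hJ : e ∉ J)
    (hF : ρ (J ∪ F) = ρ J) {Y : Finset β} (hY : ∀ z ∈ Y, ψ z ≠ e) :
    mkr ρ' ψ (insert e J) Y = mkr ρ ψ J Y := by
  have h1 : e ∉ Y.image ψ := by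
    intro h
    obtain ⟨z, hz, hz'⟩ := mem_image.1 h
    exact hY z hz hz'
  have h2 := hP.cl hJ hF h1
  have h3 := hP.cl hJ hF (T := ∅) (notMem_empty e)
  rw [empty_union] at h3
  unfold mkr
  rw [union_insert, h2, h3]

omit [DecidableEq β] in
theorem PE.noe (hP : PE ρ ρ' e F) (ψ : β → α) {J : Finset α} (hJ : e ∉ J)
    {Y : Finset β} (hY : ∀ z ∈ Y, ψ z ≠ e) : mkr ρ' ψ J Y = mkr ρ ψ J Y := by
  have h1 : e ∉ Y.image ψ ∪ J := by
    intro h
    rcases mem_union.1 h with h | h
    · obtain ⟨z, hz, hz'⟩ := mem_image.1 h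
      exact hY z hz hz'
    · exact hJ h
  unfold mkr
  rw [hP.out _ h1, hP.out _ hJ]

/-- In a system of a contraction by a set containing `e` there are no copies of `e`. -/
theorem no_copy {r' : Finset α → ℕ} {ψ : β → α} {J : Finset α} {E : Finset β} {f : ℕ} {e : α}
    (he : e ∈ J) (hE : Env (mkr r' ψ J) E f) : ∀ z ∈ E, ψ z ≠ e := by
  intro z hz hze
  have h1 := hE.three {z} (singleton_subset_iff.2 hz)
  have h2 : mkr r' ψ J {z} = 0 := by
    unfold mkr
    rw [image_singleton, hze, union_eq_right.2 (singleton_subset_iff.2 he)]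
    omega
  rw [h2, card_singleton] at h1
  omega

theorem fib_e (hP : PE ρ ρ' e F) (hK : KR β ρ) (j : ℕ) (hj : j ≤ 2)
    (hs : ∀ (ψ : β → α) (I : Finset α) (E : Finset β) (f : ℕ), e ∉ I → Env (mkr ρ' ψ I) E f →
      Strict (mkr ρ' ψ I) E → (∃ u ∈ E, ψ u = e) → (E.filter fun z => ψ z = e).card ≤ j →
      ConS (mkr ρ' ψ I) E f) :
    ∀ (ψ : β → α) (I : Finset α) (E : Finset β) (f : ℕ), e ∉ I → Env (mkr ρ' ψ I) E f →
      (E.filter fun z => ψ z = e).card ≤ j → ConS (mkr ρ' ψ I) E f := by
  intro ψ I E f hI hE hc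
  induction hn : E.card using Nat.strong_induction_on generalizing I E f with
  | _ n ih =>
    by_cases hu : ∃ u ∈ E, ψ u = e
    · by_cases hst : Strict (mkr ρ' ψ I) E
      · exact hs ψ I E f hI hE hst hu hc
      · unfold Strict at hst
        push Not at hst
        obtain ⟨X, hX, hne, hXE, hlt⟩ := hst
        have ht : X.card = 3 * mkr ρ' ψ I X := by
          have := hE.three X hX
          omega
        have hXc : X.card < E.card := card_lt_card (hX.ssubset_of_ne hXE)
        have hXp : 0 < X.card := hne.card_pos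
        have hdc : (E \ X).card < E.card := by
          rw [card_sdiff_of_subset hX]
          omega
        refine con_split hE hX ht ?_ ?_
        · refine ih X.card (by omega) I X _ hI (env_res hE hX ht) ?_ rfl
          exact (card_le_card (filter_subset_filter _ hX)).trans hc
        · have hEX := env_con hE hX ht
          have hR' := mkr_rank hP.r2 ψ (X.image ψ ∪ I)
          have hEX' : Env (mkr ρ' ψ (X.image ψ ∪ I)) (E \ X) (f - mkr ρ' ψ I X) :=
            env_congr (fun Y _ => mkr_con hP.r2 ψ I X Y) hR' hEX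
          refine con_congr (fun Y _ => (mkr_con hP.r2 ψ I X Y).symm) ?_
          by_cases heX : e ∈ X.image ψ
          · -- the tight set contains a copy of `e`
            have heJ : e ∈ X.image ψ ∪ I := mem_union_left _ heX
            have hno := no_copy heJ hEX'
            set X' := X.filter fun z => ψ z ≠ e with hX'
            have hX'X : X' ⊆ X := filter_subset _ _
            have hcard : X.card ≤ X'.card + 2 := by
              have h1 := card_filter_add_card_filter_not (s := X) (fun z => ψ z = e)
              have h2 := card_le_card (filter_subset_filter (fun z => ψ z = e) hX)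
              have h3 : (X.filter fun z => ¬ ψ z = e) = X' := rfl
              rw [h3] at h1
              omega
            have heJ' : e ∉ X'.image ψ ∪ I := by
              intro h
              rcases mem_union.1 h with h | h
              · obtain ⟨z, hz, hz'⟩ := mem_image.1 h
                exact (mem_filter.1 hz).2 hz'
              · exact hI h
            have himg : X.image ψ ∪ I = insert e (X'.image ψ ∪ I) := by
              ext z
              simp only [mem_union, mem_insert, mem_image]
              constructor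
              · rintro (⟨x, hx, rfl⟩ | hz)
                · by_cases hxe : ψ x = e
                  · exact Or.inl hxe
                  · exact Or.inr (Or.inl ⟨x, mem_filter.2 ⟨hx, hxe⟩, rfl⟩)
                · exact Or.inr (Or.inr hz)
              · rintro (rfl | ⟨x, hx, rfl⟩ | hz)
                · exact Or.inl (mem_image.1 heX)
                · exact Or.inl ⟨x, hX'X hx, rfl⟩
                · exact Or.inr hz
            have hF : ρ (X'.image ψ ∪ I ∪ F) = ρ (X'.image ψ ∪ I) := by
              by_contra hne'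
              have h1 := hP.r1.mono (X'.image ψ ∪ I) (X'.image ψ ∪ I ∪ F) subset_union_left
              have h2 := hP.inn _ heJ'
              have h3 := hE.three X' (hX'X.trans hX)
              have h4 := hP.out _ heJ'
              have h5 := hP.out _ hI
              have h6 := hP.r1.mono I (X'.image ψ ∪ I) subset_union_right
              unfold mkr at h3 ht
              rw [himg, h2] at ht
              rw [h4] at h3
              omega
            rw [himg]
            have hcon : ∀ Y ⊆ E \ X, mkr ρ' ψ (insert e (X'.image ψ ∪ I)) Y =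
                mkr ρ ψ (X'.image ψ ∪ I) Y := fun Y hY =>
              hP.con ψ heJ' hF fun z hz => hno z (hY hz)
            rw [himg] at hEX'
            exact con_congr (fun Y hY => (hcon Y hY).symm)
              (hK ψ _ _ _ (env_congr hcon (mkr_rank hP.r1 ψ _) hEX'))
          · refine ih (E \ X).card (by omega) _ (E \ X) _ ?_ hEX' ?_ rfl
            · rw [mem_union]
              tauto
            · exact (card_le_card (filter_subset_filter _ sdiff_subset)).trans hc
    · have hcon : ∀ Y ⊆ E, mkr ρ' ψ I Y = mkr ρ ψ I Y := fun Y hY =>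
        hP.noe ψ hI fun z hz hze => hu ⟨z, hY hz, hze⟩
      exact con_congr (fun Y hY => (hcon Y hY).symm)
        (hK ψ _ _ _ (env_congr hcon (mkr_rank hP.r1 ψ _) hE))

theorem fib_t (hP : PE ρ ρ' e F) (hK : KR β ρ)
    (hs : ∀ (ψ : β → α) (I : Finset α) (E : Finset β) (f : ℕ), e ∉ I → ρ (I ∪ F) ≠ ρ I →
      Env (mkr ρ' ψ (insert e I)) E f → Strict (mkr ρ' ψ (insert e I)) E →
      ConS (mkr ρ' ψ (insert e I)) E f) :
    ∀ (ψ : β → α) (I : Finset α) (E : Finset β) (f : ℕ), e ∉ I → ρ (I ∪ F) ≠ ρ I →
      Env (mkr ρ' ψ (insert e I)) E f → ConS (mkr ρ' ψ (insert e I)) E f := by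
  intro ψ I E f hI hIF hE
  induction hn : E.card using Nat.strong_induction_on generalizing I E f with
  | _ n ih =>
    by_cases hst : Strict (mkr ρ' ψ (insert e I)) E
    · exact hs ψ I E f hI hIF hE hst
    · unfold Strict at hst
      push Not at hst
      obtain ⟨X, hX, hne, hXE, hlt⟩ := hst
      have hno := no_copy (mem_insert_self e I) hE
      have ht : X.card = 3 * mkr ρ' ψ (insert e I) X := by
        have := hE.three X hX
        omega
      have hXc : X.card < E.card := card_lt_card (hX.ssubset_of_ne hXE)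
      have hXp : 0 < X.card := hne.card_pos
      have hdc : (E \ X).card < E.card := by
        rw [card_sdiff_of_subset hX]
        omega
      refine con_split hE hX ht ?_ ?_
      · exact ih X.card (by omega) I X _ hI hIF (env_res hE hX ht) rfl
      · have hEX := env_con hE hX ht
        have hc1 : ∀ Y, mkr ρ' ψ (insert e I) (Y ∪ X) - mkr ρ' ψ (insert e I) X =
            mkr ρ' ψ (insert e (X.image ψ ∪ I)) Y := by
          intro Y
          rw [mkr_con hP.r2 ψ (insert e I) X Y, union_insert]
        have hR' := mkr_rank hP.r2 ψ (insert e (X.image ψ ∪ I))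
        have hEX' : Env (mkr ρ' ψ (insert e (X.image ψ ∪ I))) (E \ X)
            (f - mkr ρ' ψ (insert e I) X) := env_congr (fun Y _ => hc1 Y) hR' hEX
        refine con_congr (fun Y _ => (hc1 Y).symm) ?_
        have heJ : e ∉ X.image ψ ∪ I := by
          intro h
          rcases mem_union.1 h with h | h
          · obtain ⟨z, hz, hz'⟩ := mem_image.1 h
            exact hno z (hX hz) hz'
          · exact hI h
        by_cases hF : ρ (X.image ψ ∪ I ∪ F) = ρ (X.image ψ ∪ I)
        · have hcon : ∀ Y ⊆ E \ X, mkr ρ' ψ (insert e (X.image ψ ∪ I)) Y =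
              mkr ρ ψ (X.image ψ ∪ I) Y := fun Y hY =>
            hP.con ψ heJ hF fun z hz => hno z (mem_sdiff.1 (hY hz)).1
          exact con_congr (fun Y hY => (hcon Y hY).symm)
            (hK ψ _ _ _ (env_congr hcon (mkr_rank hP.r1 ψ _) hEX'))
        · exact ih (E \ X).card (by omega) _ (E \ X) _ heJ hF hEX' rfl

/-- Systems of rank one. -/
theorem con_one {r : Finset β → ℕ} {E : Finset β} (hE : Env r E 1) : ConS r E 1 := by
  intro Q hQ A B hA hB hq
  by_cases hAB : A = B
  · rw [← hAB]
    exact hq
  · obtain ⟨a, rfl⟩ := card_eq_one.1 hA.2.1.1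
    obtain ⟨b, rfl⟩ := card_eq_one.1 hB.2.1.1
    have hab : a ≠ b := fun h => hAB (by rw [h])
    have hd : Disjoint ({a} : Finset β) {b} := by
      rw [disjoint_singleton]
      exact hab
    have hc : (E \ ({a} ∪ {b})).card = 1 := by
      rw [card_sdiff_of_subset (union_subset hA.1 hB.1), hE.card, card_union_of_disjoint hd,
        card_singleton, card_singleton]
    refine hQ _ _ (gd_stp hE hA.1 hA.2.1 hB.1 hd hB.2.1 ⟨hc, ?_⟩) hq
    have h1 := hE.three (E \ ({a} ∪ {b})) sdiff_subset
    have h2 := hE.rk.mono (E \ ({a} ∪ {b})) E sdiff_subset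
    rw [hE.rank] at h2
    rw [hc] at h1
    omega

theorem fib_all (hP : PE ρ ρ' e F)
    (h2 : ∀ (ψ : β → α) (I : Finset α) (E : Finset β) (f : ℕ), e ∉ I → Env (mkr ρ' ψ I) E f →
      (E.filter fun z => ψ z = e).card ≤ 2 → ConS (mkr ρ' ψ I) E f)
    (ht : ∀ (ψ : β → α) (I : Finset α) (E : Finset β) (f : ℕ), e ∉ I → ρ (I ∪ F) ≠ ρ I →
      Env (mkr ρ' ψ (insert e I)) E f → ConS (mkr ρ' ψ (insert e I)) E f) :
    ∀ (ψ : β → α) (E : Finset β) (f : ℕ), Env (mkr ρ' ψ ∅) E f → ConS (mkr ρ' ψ ∅) E f := by
  intro ψ E f hE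
  by_cases hc : (E.filter fun z => ψ z = e).card ≤ 2
  · exact h2 ψ ∅ E f (notMem_empty e) hE hc
  · set U := E.filter fun z => ψ z = e with hU
    have hUE : U ⊆ E := filter_subset _ _
    have hne : U.Nonempty := by
      rw [← card_pos]
      omega
    have himg : U.image ψ = {e} := by
      ext z
      rw [mem_image, mem_singleton]
      constructor
      · rintro ⟨x, hx, rfl⟩
        exact (mem_filter.1 hx).2
      · rintro rfl
        obtain ⟨x, hx⟩ := hne
        exact ⟨x, hx, (mem_filter.1 hx).2⟩
    have h0 := hP.r1.empty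
    have h0' := hP.r2.empty
    have hinn := hP.inn ∅ (notMem_empty e)
    rw [empty_union, h0, insert_empty_eq] at hinn
    have hr : mkr ρ' ψ ∅ U = min 1 (ρ F) := by
      unfold mkr
      rw [himg, union_empty, hinn, h0']
      omega
    have h3 := hE.three U hUE
    have hF : 1 ≤ ρ F := by omega
    have hr1 : mkr ρ' ψ ∅ U = 1 := by omega
    have htU : U.card = 3 * mkr ρ' ψ ∅ U := by omega
    refine con_split hE hUE htU ?_ ?_
    · have h4 := env_res hE hUE htU
      rw [hr1] at h4 ⊢
      exact con_one h4
    · have hEX := env_con hE hUE htU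
      have hc1 : ∀ Y, mkr ρ' ψ ∅ (Y ∪ U) - mkr ρ' ψ ∅ U = mkr ρ' ψ (insert e ∅) Y := by
        intro Y
        rw [mkr_con hP.r2 ψ ∅ U Y, himg]
        rfl
      have hR' := mkr_rank hP.r2 ψ (insert e (∅ : Finset α))
      refine con_congr (fun Y _ => (hc1 Y).symm) (ht ψ ∅ (E \ U) _ (notMem_empty e) ?_
        (env_congr (fun Y _ => hc1 Y) hR' hEX))
      rw [empty_union, h0]
      omega

end Pool.Agent.FT56
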