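import Pool.Agent.CF98.SplitA

/-!
The link lemma: `E1 + c` and `E1 + d` satisfy Edmonds' condition for three bases and `r (E1 + c + d) = f`;
then some `T ⊆ E1` is a good basis of both.

Let `Ω ⊆ E1 + c + d` be minimal with `3 r Ω < |Ω|`.  It contains `c` and `d`, `|Ω| = 3 r Ω + 1`, and `DT3.s1r_any`
(`m = 2`) applies to it.  `Ω - d` and `Ω - c` are tight and span `Ω`, so the two contractions agree on `E1 \ Ω`;
the parts are glued with `gd_glue`.
-/

set_option autoImplicit false

namespace Pool.Agent.FT56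

open Finset Pool.Agent.DT3 Pool.Agent.CF98

variable {β : Type*} [DecidableEq β]

/-- A minimal subset of `W` with `3 r Ω < |Ω|`. -/
private theorem link_min {r : Finset β → ℕ} {W : Finset β} (hW : 3 * r W < W.card) :
    ∃ Ω ⊆ W, 3 * r Ω < Ω.card ∧ ∀ Y ⊆ Ω, Y ≠ Ω → Y.card ≤ 3 * r Y := by
  induction hn : W.card using Nat.strong_induction_on generalizing W with
  | _ n ih =>
    by_cases h : ∀ Y ⊆ W, Y ≠ W → Y.card ≤ 3 * r Y
    · exact ⟨W, Subset.refl W, hW, h⟩
    · push Not at h
      obtain ⟨Y, hY, hne, hlt⟩ := h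
      have hc : Y.card < n := by
        rw [← hn]
        exact card_lt_card (ssubset_of_subset_of_ne hY hne)
      obtain ⟨Ω, h1, h2, h3⟩ := ih Y.card hc hlt rfl
      exact ⟨Ω, h1.trans hY, h2, h3⟩

/-- A system is the disjoint union of three bases, so it has a good basis. -/
theorem exists_gd {r : Finset β → ℕ} {E : Finset β} {f : ℕ} (hE : Env r E f) :
    ∃ T, Gd r E f T := by
  obtain ⟨B, hB, hb, hd, hcov⟩ := parts_any hE.rk (k := f) (m := 3) E hE.card hE.three
    (fun Y hY => by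
      have := hE.rk.mono Y E hY
      rwa [hE.rank] at this)
  refine ⟨B 0, gd_of_parts hE (hB 0) (hb 0) (hB 1) (hd 0 1 (by decide)) (hb 1) ?_⟩
  have e : E \ (B 0 ∪ B 1) = B 2 := by
    ext x
    simp only [mem_sdiff, mem_union, not_or]
    constructor
    · rintro ⟨hx, hx0, hx1⟩
      obtain ⟨i, hi⟩ := hcov x hx
      fin_cases i
      · exact absurd hi hx0
      · exact absurd hi hx1
      · exact hi
    · intro hx
      exact ⟨hB 2 hx, fun hx0 => Finset.disjoint_left.1 (hd 0 2 (by decide)) hx0 hx,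
        fun hx1 => Finset.disjoint_left.1 (hd 1 2 (by decide)) hx1 hx⟩
  rw [e]
  exact hb 2

/-- LINK: the two systems `E1 + c`, `E1 + d` have a common good basis inside `E1`. -/
theorem link {r : Finset β → ℕ} (h : RankFn r) {E1 : Finset β} {c d : β} {f : ℕ}
    (hc : c ∉ E1) (hd : d ∉ E1) (hcd : c ≠ d) (h1 : Env r (insert c E1) f)
    (h2 : Env r (insert d E1) f) (h3 : r (insert c (insert d E1)) = f) :
    ∃ T ⊆ E1, Gd r (insert c E1) f T ∧ Gd r (insert d E1) f T := by
  have hcW : c ∉ insert d E1 := by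
    rw [mem_insert]
    rintro (h0 | h0)
    · exact hcd h0
    · exact hc h0
  have hW : (insert c (insert d E1)).card = 3 * f + 1 := by
    rw [card_insert_of_notMem hcW, h2.card]
  obtain ⟨Ω, hΩ, hlt, hmin⟩ := link_min (r := r) (W := insert c (insert d E1))
    (by rw [hW, h3]; omega)
  have hcΩ : c ∈ Ω := by
    by_contra hn
    have : Ω ⊆ insert d E1 := by
      intro x hx
      rcases mem_insert.1 (hΩ hx) with h0 | h0
      · exact absurd (h0 ▸ hx) hn
      · exact h0
    have := h2.three Ω this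
    omega
  have hdΩ : d ∈ Ω := by
    by_contra hn
    have : Ω ⊆ insert c E1 := by
      intro x hx
      rcases mem_insert.1 (hΩ hx) with h0 | h0
      · exact mem_insert.2 (Or.inl h0)
      · rcases mem_insert.1 h0 with h4 | h4
        · exact absurd (h4 ▸ hx) hn
        · exact mem_insert.2 (Or.inr h4)
    have := h1.three Ω this
    omega
  have hpc := hmin (Ω.erase d) (erase_subset d Ω) (fun h0 => by
    have h4 := notMem_erase d Ω
    rw [h0] at h4
    exact h4 hdΩ)
  have hpd := hmin (Ω.erase c) (erase_subset c Ω) (fun h0 => by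
    have h4 := notMem_erase c Ω
    rw [h0] at h4
    exact h4 hcΩ)
  have kc := card_erase_add_one hdΩ
  have kd := card_erase_add_one hcΩ
  have mc := h.mono _ _ (erase_subset d Ω)
  have md := h.mono _ _ (erase_subset c Ω)
  have hΩc : Ω.card = 3 * r Ω + 1 := by omega
  have rc : r (Ω.erase d) = r Ω := by omega
  have rd : r (Ω.erase c) = r Ω := by omega
  obtain ⟨T, hT, hcT, hdT, hTc, hTr, hTC, hTD⟩ := s1r_any h (m := 2) (le_refl 2)
    (by rw [hΩc]) (fun Y hY hne => hmin Y hY hne) hcΩ hdΩ hcd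
  -- the two tight sets
  have sc : Ω.erase d ⊆ insert c E1 := by
    intro x hx
    obtain ⟨hne, hx'⟩ := mem_erase.1 hx
    rcases mem_insert.1 (hΩ hx') with h0 | h0
    · exact mem_insert.2 (Or.inl h0)
    · exact mem_insert.2 (Or.inr ((mem_insert.1 h0).resolve_left hne))
  have sd : Ω.erase c ⊆ insert d E1 := by
    intro x hx
    obtain ⟨hne, hx'⟩ := mem_erase.1 hx
    exact (mem_insert.1 (hΩ hx')).resolve_left hne
  have tc : (Ω.erase d).card = 3 * r (Ω.erase d) := by omega
  have td : (Ω.erase c).card = 3 * r (Ω.erase c) := by omega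
  have eR : insert c E1 \ Ω.erase d = insert d E1 \ Ω.erase c := by
    ext x
    simp only [mem_sdiff, mem_insert, mem_erase, not_and]
    constructor
    · rintro ⟨h4, h5⟩
      rcases h4 with rfl | h4
      · exact absurd hcΩ (h5 hcd)
      · refine ⟨Or.inr h4, fun _ => h5 ?_⟩
        rintro rfl
        exact hd h4
    · rintro ⟨h4, h5⟩
      rcases h4 with rfl | h4
      · exact absurd hdΩ (h5 (Ne.symm hcd))
      · refine ⟨Or.inr h4, fun _ => h5 ?_⟩
        rintro rfl
        exact hc h4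
  have er : (fun Y => r (Y ∪ Ω.erase d) - r (Ω.erase d)) =
      fun Y => r (Y ∪ Ω.erase c) - r (Ω.erase c) := by
    funext Y
    rw [rc, rd, union_comm Y, union_comm Y,
      rk_cup_congr h (erase_subset d Ω) rc Y, rk_cup_congr h (erase_subset c Ω) rd Y]
  have hEnv := env_con h1 sc tc
  obtain ⟨T2, hT2⟩ := exists_gd hEnv
  have hT2' := hT2
  rw [er, eR, rc, ← rd] at hT2'
  have g1 : Gd r (Ω.erase d) (r (Ω.erase d)) T := by
    refine ⟨subset_erase.2 ⟨hT, hdT⟩, ⟨by rw [hTc, rc], by rw [hTr, rc]⟩, fun Y hY => ?_⟩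
    refine hTD Y (hY.trans (sdiff_subset_sdiff (erase_subset d Ω) (Subset.refl T))) ?_
    intro hdY
    exact notMem_erase d Ω (mem_sdiff.1 (hY hdY)).1
  have g2 : Gd r (Ω.erase c) (r (Ω.erase c)) T := by
    refine ⟨subset_erase.2 ⟨hT, hcT⟩, ⟨by rw [hTc, rd], by rw [hTr, rd]⟩, fun Y hY => ?_⟩
    refine hTC Y (hY.trans (sdiff_subset_sdiff (erase_subset c Ω) (Subset.refl T))) ?_
    intro hcY
    exact notMem_erase c Ω (mem_sdiff.1 (hY hcY)).1
  refine ⟨T ∪ T2, ?_, gd_glue h1 sc tc g1 hT2, gd_glue h2 sd td g2 hT2'⟩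
  intro x hx
  rcases mem_union.1 hx with h4 | h4
  · have h5 := mem_insert.1 (hΩ (hT h4))
    rcases h5 with h5 | h5
    · exact absurd (h5 ▸ h4) hcT
    · rcases mem_insert.1 h5 with h6 | h6
      · exact absurd (h6 ▸ h4) hdT
      · exact h6
  · have h5 := mem_sdiff.1 (hT2.1 h4)
    rcases mem_insert.1 h5.1 with h6 | h6
    · exact absurd (mem_erase.2 ⟨h6 ▸ hcd, h6 ▸ hcΩ⟩) h5.2
    · exact h6

end Pool.Agent.FT56
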