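import Pool.Agent.FT56.Tri
import Pool.Agent.FT56.Link

/-!
Principal extensions, one copy of the new element.

* `mkr_upd_not`, `mkr_upd`, `pe_out`, `pe_inn` : evaluation of the rank functions.
* `full` : in a system with at most two copies of `e` the other elements span everything.
* `link_xy` : the systems of `x` and `y` have a common good basis.
* `env_x` : the system of `x`.
* `j1_strict` : strict systems with exactly one copy of `e`.
-/

set_option autoImplicit false

namespace Pool.Agent.FT56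

open Finset Pool.Agent.DT3 Pool.Agent.CF98

variable {α β : Type*} [DecidableEq α] [DecidableEq β]

theorem img_upd_not {ψ : β → α} {u : β} {x : α} {X : Finset β} (hu : u ∉ X) :
    X.image (Function.update ψ u x) = X.image ψ := by
  apply image_congr
  intro z hz
  rw [Function.update_of_ne]
  rintro rfl
  exact hu hz

theorem img_upd {ψ : β → α} {u : β} {x : α} {X : Finset β} (hu : u ∈ X) :
    X.image (Function.update ψ u x) = insert x ((X.erase u).image ψ) := by
  conv_lhs => rw [← insert_erase hu]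
  rw [image_insert, Function.update_self, img_upd_not (notMem_erase u X)]

theorem mkr_upd_not {ρ : Finset α → ℕ} {ψ : β → α} {I : Finset α} {u : β} {x : α} {X : Finset β}
    (hu : u ∉ X) : mkr ρ (Function.update ψ u x) I X = mkr ρ ψ I X := by
  unfold mkr
  rw [img_upd_not hu]

theorem mkr_upd {ρ : Finset α → ℕ} {ψ : β → α} {I : Finset α} {u : β} {x : α} {X : Finset β}
    (hu : u ∈ X) : mkr ρ (Function.update ψ u x) I X =
      ρ (insert x ((X.erase u).image ψ ∪ I)) - ρ I := by
  unfold mkr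
  rw [img_upd hu, insert_union]

section

variable {ρ ρ' : Finset α → ℕ} {e : α} {F : Finset α}

omit [DecidableEq β] in
theorem notMem_img {ψ : β → α} {I : Finset α} (he : e ∉ I) {X : Finset β} (hX : ∀ z ∈ X, ψ z ≠ e) :
    e ∉ X.image ψ ∪ I := by
  rw [mem_union, mem_image]
  rintro (⟨z, hz, h⟩ | h)
  · exact hX z hz h
  · exact he h

omit [DecidableEq β] in
theorem pe_out (hP : PE ρ ρ' e F) {ψ : β → α} {I : Finset α} (he : e ∉ I) {X : Finset β}
    (hX : ∀ z ∈ X, ψ z ≠ e) : mkr ρ' ψ I X = mkr ρ ψ I X := by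
  unfold mkr
  rw [hP.out _ he, hP.out _ (notMem_img he hX)]

theorem pe_inn (hP : PE ρ ρ' e F) {ψ : β → α} {I : Finset α} (he : e ∉ I) {X : Finset β}
    (hX : ∀ z ∈ X, ψ z ≠ e) {u : β} (hu : ψ u = e) :
    mkr ρ' ψ I (insert u X) = min (mkr ρ ψ I X + 1) (mkb ρ ψ I F X) := by
  have h1 := hP.r1.mono I (X.image ψ ∪ I) subset_union_right
  have h2 := hP.r1.mono (X.image ψ ∪ I) (X.image ψ ∪ I ∪ F) subset_union_left
  unfold mkr mkb
  rw [hP.out _ he, image_insert, insert_union, hu, hP.inn _ (notMem_img he hX)]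
  omega

/-- The elements different from `e`. -/
def nE (ψ : β → α) (e : α) (X : Finset β) : Finset β := X.filter fun z => ψ z ≠ e

omit [DecidableEq β] in
theorem mem_nE {ψ : β → α} {X : Finset β} {z : β} : z ∈ nE ψ e X ↔ z ∈ X ∧ ψ z ≠ e := mem_filter

omit [DecidableEq β] in
theorem nE_img {ψ : β → α} {X : Finset β} (h : ∃ u ∈ X, ψ u = e) :
    X.image ψ = insert e ((nE ψ e X).image ψ) := by
  ext z
  rw [mem_insert, mem_image, mem_image]
  constructor
  · rintro ⟨w, hw, rfl⟩
    by_cases hwe : ψ w = e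
    · exact Or.inl hwe
    · exact Or.inr ⟨w, mem_nE.2 ⟨hw, hwe⟩, rfl⟩
  · rintro (rfl | ⟨w, hw, rfl⟩)
    · exact h
    · exact ⟨w, (mem_nE.1 hw).1, rfl⟩

omit [DecidableEq β] in
theorem pe_inn' (hP : PE ρ ρ' e F) {ψ : β → α} {I : Finset α} (he : e ∉ I) {X : Finset β}
    (h : ∃ u ∈ X, ψ u = e) :
    mkr ρ' ψ I X = min (mkr ρ ψ I (nE ψ e X) + 1) (mkb ρ ψ I F (nE ψ e X)) := by
  have h1 := hP.r1.mono I ((nE ψ e X).image ψ ∪ I) subset_union_right
  have h2 := hP.r1.mono ((nE ψ e X).image ψ ∪ I) ((nE ψ e X).image ψ ∪ I ∪ F) subset_union_left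
  unfold mkr mkb
  rw [hP.out _ he, nE_img h, insert_union, hP.inn _ (notMem_img he fun z hz => (mem_nE.1 hz).2)]
  omega

omit [DecidableEq β] in
theorem card_nE {ψ : β → α} {X : Finset β} :
    (nE ψ e X).card + (X.filter fun z => ψ z = e).card = X.card := by
  have h := card_filter_add_card_filter_not (s := X) (fun z => ψ z = e)
  have h' : nE ψ e X = X.filter fun z => ¬ ψ z = e := rfl
  rw [h']
  omega

/-- The other elements span everything. -/
theorem full (hP : PE ρ ρ' e F) {ψ : β → α} {I : Finset α} (he : e ∉ I) {E : Finset β} {f : ℕ}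
    (hE : Env (mkr ρ' ψ I) E f) (hj : (E.filter fun z => ψ z = e).card ≤ 2)
    (hu : ∃ u ∈ E, ψ u = e) : mkr ρ ψ I (nE ψ e E) = f ∧ mkb ρ ψ I F (nE ψ e E) = f := by
  have h1 := card_nE (ψ := ψ) (e := e) (X := E)
  have h2 := hE.card
  have h3 := hE.three (nE ψ e E) (filter_subset _ _)
  have h4 := hE.rk.mono (nE ψ e E) E (filter_subset _ _)
  have h5 := pe_out hP he (X := nE ψ e E) (ψ := ψ) fun z hz => (mem_nE.1 hz).2
  have h6 := pe_inn' hP he hu
  have h7 := hE.rank
  have h8 := (mk_ab hP.r1 ψ I F).le (nE ψ e E)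
  omega

/-- The systems of `x` and `y` have a common good basis. -/
theorem link_xy [Infinite β] (h : RankFn ρ') {ψ : β → α} {I : Finset α} {E : Finset β} {f : ℕ}
    {u : β} {x y : α} (hu : u ∈ E) (hx : Env (mkr ρ' (Function.update ψ u x) I) E f)
    (hy : Env (mkr ρ' (Function.update ψ u y) I) E f)
    (hxy : ρ' (insert y (insert x ((E.erase u).image ψ ∪ I))) - ρ' I = f) :
    ∃ T ⊆ E.erase u, Gd (mkr ρ' (Function.update ψ u x) I) E f T ∧
      Gd (mkr ρ' (Function.update ψ u y) I) E f T := by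
  obtain ⟨v, hv⟩ := Infinite.exists_notMem_finset E
  have huv : u ≠ v := by
    rintro rfl
    exact hv hu
  set φ := Function.update (Function.update ψ u x) v y with hφ
  have e1 : ∀ X, v ∉ X → mkr ρ' φ I X = mkr ρ' (Function.update ψ u x) I X := fun X hX =>
    mkr_upd_not hX
  have e2 : ∀ X, v ∉ X → u ∉ X → mkr ρ' φ I X = mkr ρ' (Function.update ψ u y) I X := by
    intro X hX hX'
    rw [e1 X hX, mkr_upd_not hX', mkr_upd_not hX']
  have e3 : ∀ X, v ∉ X → u ∉ X →
      mkr ρ' φ I (insert v X) = mkr ρ' (Function.update ψ u y) I (insert u X) := by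
    intro X hX hX'
    rw [hφ, mkr_upd (mem_insert_self v X), mkr_upd (mem_insert_self u X), erase_insert hX,
      erase_insert hX', img_upd_not hX']
  have hvE : v ∉ E.erase u := fun h' => hv (mem_of_mem_erase h')
  have hins : insert u (E.erase u) = E := insert_erase hu
  have hφr := mkr_rank h φ I
  have k1 : Env (mkr ρ' φ I) (insert u (E.erase u)) f := by
    rw [hins]
    exact env_congr (fun Y hY => (e1 Y fun h' => hv (hY h')).symm) hφr hx
  have k2 : Env (mkr ρ' φ I) (insert v (E.erase u)) f := by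
    refine ⟨hφr, ?_, ?_, ?_⟩
    · rw [card_insert_of_notMem hvE, card_erase_add_one hu, hx.card]
    · rw [e3 _ hvE (notMem_erase u E), hins, hy.rank]
    · intro X hX
      by_cases hvX : v ∈ X
      · have h1 : X.erase v ⊆ E.erase u := by
          intro z hz
          have := hX (mem_of_mem_erase hz)
          rcases mem_insert.1 this with h2 | h2
          · exact absurd h2 (ne_of_mem_erase hz)
          · exact h2
        have h2 : u ∉ X.erase v := fun h' => (notMem_erase u E) (h1 h')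
        have h3 := e3 (X.erase v) (notMem_erase v X) h2
        rw [insert_erase hvX] at h3
        have h4 := hy.three (insert u (X.erase v)) (insert_subset hu (h1.trans (erase_subset _ _)))
        rw [card_insert_of_notMem h2, card_erase_add_one hvX] at h4
        rw [h3]
        exact h4
      · have h1 : X ⊆ E.erase u := by
          intro z hz
          rcases mem_insert.1 (hX hz) with h2 | h2
          · exact absurd (h2 ▸ hz) hvX
          · exact h2
        rw [e1 X hvX]
        exact hx.three X (h1.trans (erase_subset _ _))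
  have k3 : mkr ρ' φ I (insert u (insert v (E.erase u))) = f := by
    rw [Finset.insert_comm, hins, hφ, mkr_upd (mem_insert_self v E), erase_insert hv, img_upd hu,
      insert_union]
    exact hxy
  obtain ⟨T, hT, g1, g2⟩ := link hφr (notMem_erase u E) hvE huv k1 k2 k3
  have hvT : v ∉ T := fun h' => hvE (hT h')
  have huT : u ∉ T := fun h' => (notMem_erase u E) (hT h')
  refine ⟨T, hT, ?_, ?_⟩
  · rw [hins] at g1
    exact gd_congr (fun Y hY => e1 Y fun h' => hv (hY h')) g1
  · refine ⟨hT.trans (erase_subset _ _), ⟨g2.2.1.1, ?_⟩, ?_⟩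
    · rw [← e2 T hvT huT]
      exact g2.2.1.2
    · intro X hX
      by_cases huX : u ∈ X
      · have hvX : v ∉ X.erase u := fun h' => hv ((hX.trans sdiff_subset) (mem_of_mem_erase h'))
        have h3 := e3 (X.erase u) hvX (notMem_erase u X)
        rw [insert_erase huX] at h3
        have h4 := g2.2.2 (insert v (X.erase u)) (by
          intro z hz
          rw [mem_sdiff]
          rcases mem_insert.1 hz with rfl | hz
          · exact ⟨mem_insert_self _ _, hvT⟩
          · have h5 := mem_sdiff.1 (hX (mem_of_mem_erase hz))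
            exact ⟨mem_insert_of_mem (mem_erase.2 ⟨ne_of_mem_erase hz, h5.1⟩), h5.2⟩)
        rw [card_insert_of_notMem hvX, card_erase_add_one huX, h3] at h4
        exact h4
      · have hvX : v ∉ X := fun h' => hv ((hX.trans sdiff_subset) h')
        have h4 := g2.2.2 X (by
          intro z hz
          have h5 := mem_sdiff.1 (hX hz)
          rw [mem_sdiff]
          exact ⟨mem_insert_of_mem (mem_erase.2 ⟨fun h' => huX (h' ▸ hz), h5.1⟩), h5.2⟩)
        rw [e2 X hvX huX] at h4
        exact h4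

/-- The system of `x`. -/
theorem env_x (hP : PE ρ ρ' e F) {ψ : β → α} {I : Finset α} (he : e ∉ I) {E : Finset β} {f : ℕ}
    (hE : Env (mkr ρ' ψ I) E f) (hs : Strict (mkr ρ' ψ I) E)
    (hj : (E.filter fun z => ψ z = e).card ≤ 2) {u : β} (hu : u ∈ E) (hue : ψ u = e) {x : α}
    (hx : x ∈ F) (hxI : ρ (insert x I) ≠ ρ I) : Env (mkr ρ' (Function.update ψ u x) I) E f := by
  have hr := mkr_rank hP.r2 (Function.update ψ u x) I
  have hle : ∀ X, u ∈ X → mkr ρ' ψ I (X.erase u) ≤ mkr ρ' (Function.update ψ u x) I X := by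
    intro X hX
    rw [mkr_upd hX]
    unfold mkr
    exact Nat.sub_le_sub_right (hP.r2.mono _ _ (subset_insert _ _)) _
  have hxe : x ≠ e := by
    rintro rfl
    exact hP.eF hx
  refine ⟨hr, hE.card, ?_, ?_⟩
  · apply le_antisymm
    · have h1 := full hP he hE hj ⟨u, hu, hue⟩
      rw [mkr_upd hu]
      have h2 := hP.r2.mono (insert x ((E.erase u).image ψ ∪ I))
        (insert e ((nE ψ e E).image ψ ∪ I ∪ F)) (by
        intro z hz
        rw [mem_insert, mem_union, mem_union]
        rcases mem_insert.1 hz with rfl | hz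
        · exact Or.inr (Or.inr hx)
        · rcases mem_union.1 hz with hz | hz
          · obtain ⟨w, hw, rfl⟩ := mem_image.1 hz
            by_cases hwe : ψ w = e
            · exact Or.inl hwe
            · exact Or.inr (Or.inl (Or.inl (mem_image_of_mem _ (mem_nE.2 ⟨mem_of_mem_erase hw, hwe⟩))))
          · exact Or.inr (Or.inl (Or.inr hz)))
      have h3 : e ∉ (nE ψ e E).image ψ ∪ I ∪ F := by
        rw [mem_union]
        rintro (h' | h')
        · exact notMem_img he (fun z hz => (mem_nE.1 hz).2) h'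
        · exact hP.eF h'
      rw [hP.inn _ h3, union_assoc ((nE ψ e E).image ψ ∪ I), union_self] at h2
      have h4 := h1.2
      unfold mkb at h4
      rw [hP.out _ he]
      omega
    · have h1 := hle E hu
      have h2 := hE.three (E.erase u) (erase_subset _ _)
      have h3 := card_erase_add_one hu
      have h4 := hE.card
      omega
  · intro X hX
    by_cases huX : u ∈ X
    · have h1 := hle X huX
      have h2 := card_erase_add_one huX
      rcases (X.erase u).eq_empty_or_nonempty with h3 | h3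
      · rw [h3, card_empty] at h2
        rw [mkr_upd huX, h3, image_empty, empty_union, hP.out _ he, hP.out _ (by
          rw [mem_insert]
          rintro (h' | h')
          · exact hxe h'.symm
          · exact he h')]
        have h4 := ins_eq hP.r1 hxI
        omega
      · have h4 := hs (X.erase u) ((erase_subset _ _).trans hX) h3 (by
          intro h'
          have := notMem_erase u X
          rw [h'] at this
          exact this hu)
        omega
    · rw [mkr_upd_not huX]
      exact hE.three X hX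

/-- All systems of `x` have the value `f` on the set of `link_xy`. -/
theorem full_xy (hP : PE ρ ρ' e F) {ψ : β → α} {I : Finset α} (he : e ∉ I) {E : Finset β} {f : ℕ}
    (hE : Env (mkr ρ' ψ I) E f) (hj : (E.filter fun z => ψ z = e).card ≤ 2) {u : β} (hu : u ∈ E)
    (hue : ψ u = e) {x y : α} (hx : x ∈ F) (hy : y ∈ F) :
    ρ' (insert y (insert x ((E.erase u).image ψ ∪ I))) - ρ' I = f := by
  have h1 := full hP he hE hj ⟨u, hu, hue⟩
  have h2 := hP.r2.mono (insert y (insert x ((E.erase u).image ψ ∪ I)))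
    (insert e ((nE ψ e E).image ψ ∪ I ∪ F)) (by
    intro z hz
    rw [mem_insert, mem_union, mem_union]
    rcases mem_insert.1 hz with rfl | hz
    · exact Or.inr (Or.inr hy)
    · rcases mem_insert.1 hz with rfl | hz
      · exact Or.inr (Or.inr hx)
      · rcases mem_union.1 hz with hz | hz
        · obtain ⟨w, hw, rfl⟩ := mem_image.1 hz
          by_cases hwe : ψ w = e
          · exact Or.inl hwe
          · exact Or.inr (Or.inl (Or.inl (mem_image_of_mem _ (mem_nE.2 ⟨mem_of_mem_erase hw, hwe⟩))))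
        · exact Or.inr (Or.inl (Or.inr hz)))
  have h3 : e ∉ (nE ψ e E).image ψ ∪ I ∪ F := by
    rw [mem_union]
    rintro (h' | h')
    · exact notMem_img he (fun z hz => (mem_nE.1 hz).2) h'
    · exact hP.eF h'
  rw [hP.inn _ h3, union_assoc ((nE ψ e E).image ψ ∪ I), union_self] at h2
  have h4 := h1.2
  unfold mkb at h4
  have h5 := hP.r2.mono ((nE ψ e E).image ψ ∪ I) (insert y (insert x ((E.erase u).image ψ ∪ I))) (by
    intro z hz
    rw [mem_insert, mem_insert, mem_union]
    rcases mem_union.1 hz with hz | hz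
    · obtain ⟨w, hw, rfl⟩ := mem_image.1 hz
      have hw' := mem_nE.1 hw
      refine Or.inr (Or.inr (Or.inl (mem_image_of_mem _ (mem_erase.2 ⟨?_, hw'.1⟩))))
      rintro rfl
      exact hw'.2 hue
    · exact Or.inr (Or.inr (Or.inr hz)))
  rw [hP.out _ (notMem_img he fun z hz => (mem_nE.1 hz).2)] at h5
  have h6 := h1.1
  unfold mkr at h6
  rw [hP.out _ he]
  omega

/-- The rank function of `x` is smaller if there is only one copy of `e`. -/
theorem rx_le (hP : PE ρ ρ' e F) {ψ : β → α} {I : Finset α} (he : e ∉ I) {X : Finset β} {u : β}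
    {x : α} (hue : ψ u = e) (hx : x ∈ F) (hX : ∀ z ∈ X, z ≠ u → ψ z ≠ e) :
    mkr ρ' (Function.update ψ u x) I X ≤ mkr ρ' ψ I X := by
  by_cases hu : u ∈ X
  · have h1 : ∀ z ∈ X.erase u, ψ z ≠ e := fun z hz => hX z (mem_of_mem_erase hz) (ne_of_mem_erase hz)
    have h2 := pe_inn hP he h1 hue
    rw [insert_erase hu] at h2
    have hxe : x ≠ e := by
      rintro rfl
      exact hP.eF hx
    have h3 : e ∉ insert x ((X.erase u).image ψ ∪ I) := by
      rw [mem_insert]
      rintro (h' | h')
      · exact hxe h'.symm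
      · exact notMem_img he h1 h'
    rw [mkr_upd hu, hP.out _ he, hP.out _ h3, h2]
    have h4 := hP.r1.insert_le x ((X.erase u).image ψ ∪ I)
    have h5 := hP.r1.mono (insert x ((X.erase u).image ψ ∪ I)) ((X.erase u).image ψ ∪ I ∪ F) (by
      intro z hz
      rw [mem_union]
      rcases mem_insert.1 hz with rfl | hz
      · exact Or.inr hx
      · exact Or.inl hz)
    have h6 := hP.r1.mono I ((X.erase u).image ψ ∪ I) subset_union_right
    unfold mkr mkb
    omega
  · rw [mkr_upd_not hu]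

/-- A block which contains `u` is a basis of the system of some `x`. -/
theorem ex_x (hP : PE ρ ρ' e F) {ψ : β → α} {I : Finset α} (he : e ∉ I) {S : Finset β} {f : ℕ}
    {u : β} (hu : u ∈ S) (hue : ψ u = e) (hX : ∀ z ∈ S, z ≠ u → ψ z ≠ e)
    (hS : Bs (mkr ρ' ψ I) f S) : ∃ x ∈ F, ρ (insert x I) ≠ ρ I ∧
      Bs (mkr ρ' (Function.update ψ u x) I) f S := by
  have h1 : ∀ z ∈ S.erase u, ψ z ≠ e := fun z hz => hX z (mem_of_mem_erase hz) (ne_of_mem_erase hz)
  have h2 := pe_inn hP he h1 hue
  rw [insert_erase hu, hS.2] at h2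
  have h3 := card_erase_add_one hu
  have h4 := (mkr_rank hP.r1 ψ I).le_card (S.erase u)
  have h5 := hS.1
  have h6 : ∃ x ∈ F, ρ (insert x ((S.erase u).image ψ ∪ I)) ≠ ρ ((S.erase u).image ψ ∪ I) := by
    by_contra hn
    push Not at hn
    have h7 := rank_union hP.r1 hn
    unfold mkr mkb at h2
    unfold mkr at h4
    rw [h7] at h2
    omega
  obtain ⟨x, hx, hx'⟩ := h6
  have h8 : ρ (insert x I) ≠ ρ I := fun h' => hx' (ins_mono hP.r1 subset_union_right h')
  refine ⟨x, hx, h8, hS.1, ?_⟩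
  have hxe : x ≠ e := by
    rintro rfl
    exact hP.eF hx
  have h9 : e ∉ insert x ((S.erase u).image ψ ∪ I) := by
    rw [mem_insert]
    rintro (h' | h')
    · exact hxe h'.symm
    · exact notMem_img he h1 h'
  rw [mkr_upd hu, hP.out _ he, hP.out _ h9, ins_eq hP.r1 hx']
  have h10 := hP.r1.mono I ((S.erase u).image ψ ∪ I) subset_union_right
  unfold mkr at h2 h4
  unfold mkb at h2
  omega

/-- The systems of `x` have one class. -/
theorem con_x (hP : PE ρ ρ' e F) (hK : KR β ρ) {ψ : β → α} {I : Finset α} (he : e ∉ I)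
    {E : Finset β} {f : ℕ} {u : β} (hX : ∀ z ∈ E, z ≠ u → ψ z ≠ e) {x : α} (hx : x ∈ F)
    (hEx : Env (mkr ρ' (Function.update ψ u x) I) E f) :
    ConS (mkr ρ' (Function.update ψ u x) I) E f := by
  have hxe : x ≠ e := by
    rintro rfl
    exact hP.eF hx
  have h1 : ∀ Y ⊆ E, mkr ρ' (Function.update ψ u x) I Y = mkr ρ (Function.update ψ u x) I Y := by
    intro Y hY
    apply pe_out hP he
    intro z hz
    by_cases hzu : z = u
    · rw [hzu, Function.update_self]
      exact hxe
    · rw [Function.update_of_ne hzu]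
      exact hX z (hY hz) hzu
  exact con_congr (fun Y hY => (h1 Y hY).symm) (hK _ _ _ _ (env_congr h1 (mkr_rank hP.r1 _ I) hEx))

end

theorem stp_mono {r r' : Finset β → ℕ} {E : Finset β} {f : ℕ} (h : ∀ S ⊆ E, Bs r f S → Bs r' f S)
    {A A' : Finset β} (hA : Stp r E f A A') : Stp r' E f A A' := by
  obtain ⟨h1, h2, h3, h4, C, h5, h6, h7, h8, h9, h10⟩ := hA
  exact ⟨h1, h2, h _ h1 h3, h _ h2 h4, C, h5, h6, h7, h _ h5 h8, h _ sdiff_subset h9,
    h _ sdiff_subset h10⟩

theorem gd_mono {r r' : Finset β → ℕ} {E : Finset β} {f : ℕ} (hE : Env r E f) (hE' : Env r' E f)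
    (h : ∀ S ⊆ E, Bs r f S → Bs r' f S) {A : Finset β} (hA : Gd r E f A) : Gd r' E f A := by
  obtain ⟨C, hC, hd, hb, hb'⟩ := gd_parts hE hA
  exact gd_of_parts hE' hA.1 (h _ hA.1 hA.2.1) hC hd (h _ hC hb) (h _ sdiff_subset hb')

/-- A predicate which is constant on the blocks of a partition is invariant. -/
theorem inv_of_state {r : Finset β → ℕ} {E : Finset β} {f : ℕ} {Q : Finset β → Prop}
    (hst : ∀ A C, A ⊆ E → C ⊆ E → Disjoint A C → Bs r f A → Bs r f C → Bs r f (E \ (A ∪ C)) →
      Q A → Q C) {A A' : Finset β} (h : Stp r E f A A') (hq : Q A) : Q A' := by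
  obtain ⟨h1, h2, h3, h4, C, h5, h6, h7, h8, h9, h10⟩ := h
  have q1 := hst A C h1 h5 h6 h3 h8 h9 hq
  refine hst C A' h5 h2 h7.symm h8 h4 ?_ q1
  rw [union_comm]
  exact h10

theorem cover2 {r : Finset β → ℕ} (h : RankFn r) {f : ℕ} {S1 S2 X : Finset β} (h1 : Bs r f S1)
    (h2 : Bs r f S2) (hX : X ⊆ S1 ∪ S2) : X.card ≤ 2 * r X := by
  have k1 : r (X ∩ S1) = (X ∩ S1).card := CF98.ind_sub h (h1.2.trans h1.1.symm) inter_subset_right
  have k2 : r (X \ S1) = (X \ S1).card := by
    refine CF98.ind_sub h (h2.2.trans h2.1.symm) ?_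
    intro x hx
    have hx1 := mem_sdiff.1 hx
    rcases mem_union.1 (hX hx1.1) with h3 | h3
    · exact absurd h3 hx1.2
    · exact h3
  have k3 := h.mono (X ∩ S1) X inter_subset_left
  have k4 := h.mono (X \ S1) X sdiff_subset
  have k5 : (X ∩ S1).card + (X \ S1).card = X.card := card_inter_add_card_sdiff X S1
  omega

/-- Strict systems with exactly one copy of `e`. -/
theorem j1_strict [Infinite β] {ρ ρ' : Finset α → ℕ} {e : α} {F : Finset α} (hP : PE ρ ρ' e F)
    (hK : KR β ρ) (ψ : β → α) (I : Finset α) (E : Finset β) (f : ℕ) (he : e ∉ I)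
    (hE : Env (mkr ρ' ψ I) E f) (hs : Strict (mkr ρ' ψ I) E) (hu : ∃ u ∈ E, ψ u = e)
    (hj : (E.filter fun z => ψ z = e).card ≤ 1) : ConS (mkr ρ' ψ I) E f := by
  obtain ⟨u, hu, hue⟩ := hu
  have hX : ∀ z ∈ E, z ≠ u → ψ z ≠ e := by
    intro z hz hzu hze
    exact hzu (card_le_one.1 hj z (mem_filter.2 ⟨hz, hze⟩) u (mem_filter.2 ⟨hu, hue⟩))
  have hj2 : (E.filter fun z => ψ z = e).card ≤ 2 := by omega
  have hEx : ∀ x ∈ F, ρ (insert x I) ≠ ρ I → Env (mkr ρ' (Function.update ψ u x) I) E f :=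
    fun x hx hxI => env_x hP he hE hs hj2 hu hue hx hxI
  have hb : ∀ x ∈ F, ∀ S ⊆ E, Bs (mkr ρ' (Function.update ψ u x) I) f S → Bs (mkr ρ' ψ I) f S := by
    intro x hx S hS hb
    refine ⟨hb.1, ?_⟩
    have h1 := rx_le hP he hue hx (X := S) fun z hz => hX z (hS hz)
    have h2 := hE.rk.le_card S
    rw [hb.2] at h1
    rw [hb.1] at h2
    omega
  have hg : ∀ A, Gd (mkr ρ' ψ I) E f A → ∃ x ∈ F, ρ (insert x I) ≠ ρ I ∧
      Gd (mkr ρ' (Function.update ψ u x) I) E f A := by
    intro A hA
    obtain ⟨C, hC, hd, hb1, hb2⟩ := gd_parts hE hA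
    have hd' := disjoint_left.1 hd
    have hno : ∀ x S, u ∉ S → Bs (mkr ρ' ψ I) f S → Bs (mkr ρ' (Function.update ψ u x) I) f S := by
      intro x S hS hb
      exact ⟨hb.1, by rw [mkr_upd_not hS]; exact hb.2⟩
    by_cases h1 : u ∈ A
    · obtain ⟨x, hx, hxI, hbx⟩ := ex_x hP he h1 hue (fun z hz => hX z (hA.1 hz)) hA.2.1
      exact ⟨x, hx, hxI, gd_of_parts (hEx x hx hxI) hA.1 hbx hC hd (hno x C (hd' h1) hb1)
        (hno x _ (fun h' => (mem_sdiff.1 h').2 (mem_union_left _ h1)) hb2)⟩
    · by_cases h2 : u ∈ C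
      · obtain ⟨x, hx, hxI, hbx⟩ := ex_x hP he h2 hue (fun z hz => hX z (hC hz)) hb1
        exact ⟨x, hx, hxI, gd_of_parts (hEx x hx hxI) hA.1 (hno x A h1 hA.2.1) hC hd hbx
          (hno x _ (fun h' => (mem_sdiff.1 h').2 (mem_union_right _ h2)) hb2)⟩
      · have h3 : u ∈ E \ (A ∪ C) := by
          rw [mem_sdiff, mem_union]
          exact ⟨hu, fun h' => h'.elim h1 h2⟩
        obtain ⟨x, hx, hxI, hbx⟩ := ex_x hP he h3 hue
          (fun z hz => hX z (sdiff_subset hz)) hb2
        exact ⟨x, hx, hxI, gd_of_parts (hEx x hx hxI) hA.1 (hno x A h1 hA.2.1) hC hd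
          (hno x C h2 hb1) hbx⟩
  intro Q hQ A B hA hB hq
  obtain ⟨x, hx, hxI, hAx⟩ := hg A hA
  obtain ⟨y, hy, hyI, hBy⟩ := hg B hB
  obtain ⟨T, -, hTx, hTy⟩ := link_xy hP.r2 hu (hEx x hx hxI) (hEx y hy hyI)
    (full_xy hP he hE hj2 hu hue hx hy)
  have q1 := con_x hP hK he hX hx (hEx x hx hxI) Q
    (fun S S' hS => hQ S S' (stp_mono (hb x hx) hS)) A T hAx hTx hq
  exact con_x hP hK he hX hy (hEx y hy hyI) Q
    (fun S S' hS => hQ S S' (stp_mono (hb y hy) hS)) T B hTy hBy q1

end Pool.Agent.FT56
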