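import Pool.Agent.FT56.J1

/-!
Principal extensions, two copies of the new element.

* `share_2` : the blocks of all splittings of `E0 \ A` have the same class.
* `j2_strict` : strict systems with at most two copies of `e`.
-/

set_option autoImplicit false

namespace Pool.Agent.FT56

open Finset Pool.Agent.DT3 Pool.Agent.CF98

variable {α β : Type*} [DecidableEq α] [DecidableEq β]

omit [DecidableEq β] in
/-- A minimal violating set. -/
theorem min_viol {r : Finset β → ℕ} {Y : Finset β} (h1 : ∀ X ⊆ Y, X.card ≤ 2 * r X + 1)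
    (h2 : 2 * r Y + 1 ≤ Y.card) :
    ∃ Z ⊆ Y, Z.card = 2 * r Z + 1 ∧ ∀ X ⊆ Z, X ≠ Z → X.card ≤ 2 * r X := by
  have hne : (Y.powerset.filter fun Z => 2 * r Z + 1 ≤ Z.card).Nonempty :=
    ⟨Y, by
      rw [mem_filter]
      exact ⟨mem_powerset_self _, h2⟩⟩
  obtain ⟨Z, hZ, hmin⟩ := exists_min_image _ card hne
  rw [mem_filter, mem_powerset] at hZ
  refine ⟨Z, hZ.1, ?_, ?_⟩
  · have := h1 Z hZ.1
    have := hZ.2
    omega
  · intro X hX hXZ
    by_contra hn
    have h3 := hmin X (by
      rw [mem_filter, mem_powerset]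
      exact ⟨hX.trans hZ.1, by omega⟩)
    have h4 := card_lt_card (ssubset_of_subset_of_ne hX hXZ)
    omega

/-- The smallest subset spanning the fixed set lies in every tight set which spans the fixed set. -/
theorem cF_sub {a b : Finset β → ℕ} (h : AB a b) {C D Z : Finset β} {f g : ℕ} (hC : Bs a f C)
    (hD : Bs a g D) (hZ : Z ⊆ C ∪ D) (hZc : 2 * a Z ≤ Z.card) (hZb : b Z = a Z) :
    cF a b C ⊆ Z := by
  intro c hc
  rw [mem_cF] at hc
  by_contra hcZ
  have k1 : a (Z ∩ C) = (Z ∩ C).card := CF98.ind_sub h.ra (hC.2.trans hC.1.symm) inter_subset_right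
  have k2 : a (Z \ C) = (Z \ C).card := by
    refine CF98.ind_sub h.ra (hD.2.trans hD.1.symm) ?_
    intro x hx
    have hx1 := mem_sdiff.1 hx
    rcases mem_union.1 (hZ hx1.1) with h3 | h3
    · exact absurd h3 hx1.2
    · exact h3
  have k3 := h.ra.mono (Z ∩ C) Z inter_subset_left
  have k4 := h.ra.mono (Z \ C) Z sdiff_subset
  have k5 : (Z ∩ C).card + (Z \ C).card = Z.card := card_inter_add_card_sdiff Z C
  have k6 := h.mono (Z ∩ C) Z inter_subset_left
  have k7 := h.le (Z ∩ C)
  refine hc.2 (h.up (X := Z ∩ C) ?_ (by omega))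
  intro z hz
  rw [mem_inter] at hz
  rw [mem_erase]
  refine ⟨?_, hz.2⟩
  rintro rfl
  exact hcZ hz.1

theorem third_eq {E A C : Finset β} (hC : C ⊆ E) (hd : Disjoint A C) :
    E \ (E \ (A ∪ C) ∪ A) = C := by
  have hd' := disjoint_left.1 hd
  ext z
  simp only [mem_sdiff, mem_union]
  have h2 : z ∈ A → z ∉ C := fun h' => hd' h'
  have h3 : z ∈ C → z ∈ E := fun h' => hC h'
  clear hd hC hd'
  tauto

/-- The share lemma for two copies. -/
theorem share_2 {r a b : Finset β → ℕ} {E0 : Finset β} {f : ℕ} {u v : β} {Q : Finset β → Prop}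
    (h : AB a b) (huE : u ∉ E0) (hvE : v ∉ E0) (huv : u ≠ v)
    (hE : Env r (insert u (insert v E0)) f) (h0 : ∀ X ⊆ E0, r X = a X)
    (hu : ∀ X ⊆ E0, r (insert u X) = min (a X + 1) (b X))
    (hv : ∀ X ⊆ E0, r (insert v X) = min (a X + 1) (b X))
    (huv' : ∀ X ⊆ E0, r (insert v (insert u X)) = min (a X + 1) (b X))
    (hbf : ∀ X ⊆ E0, b X ≤ f)
    (hQ : ∀ S S', Stp r (insert u (insert v E0)) f S S' → Q S → Q S')
    {A : Finset β} (hA : A ⊆ E0) (hAc : A.card + 2 = f) (hAa : a A + 2 = f) (hAb : b A = f)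
    {C C' : Finset β} (hC : C ⊆ E0 \ A) (hC1 : Bs a f C) (hC2 : Bs a f ((E0 \ A) \ C))
    (hC' : C' ⊆ E0 \ A) (hC1' : Bs a f C') (hC2' : Bs a f ((E0 \ A) \ C')) (hq : Q C) : Q C' := by
  classical
  by_contra hnq
  set R := E0 \ A with hR
  set E := insert u (insert v E0) with hEd
  set V := insert u A with hVd
  have hRE : R ⊆ E0 := sdiff_subset
  have huA : u ∉ A := fun h' => huE (hA h')
  have hvA : v ∉ A := fun h' => hvE (hA h')
  have huR : u ∉ R := fun h' => huE (hRE h')
  have hvR : v ∉ R := fun h' => hvE (hRE h')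
  have hE0 : E0 ⊆ E := fun z hz => mem_insert_of_mem (mem_insert_of_mem hz)
  have huE' : u ∈ E := mem_insert_self _ _
  have hvE' : v ∈ E := mem_insert_of_mem (mem_insert_self _ _)
  have hVE : V ⊆ E := insert_subset huE' (hA.trans hE0)
  have hVc : V.card + 1 = f := by
    rw [hVd, card_insert_of_notMem huA]
    omega
  have hVr : r V + 1 = f := by
    rw [hVd, hu A hA]
    omega
  have hEV : E \ V = insert v R := by
    ext z
    simp only [hEd, hVd, hR, mem_sdiff, mem_insert]
    constructor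
    · rintro ⟨h1, h2⟩
      push Not at h2
      rcases h1 with h1 | h1 | h1
      · exact absurd h1 h2.1
      · exact Or.inl h1
      · exact Or.inr ⟨h1, h2.2⟩
    · rintro (h1 | h1)
      · refine ⟨Or.inr (Or.inl h1), ?_⟩
        rintro (h2 | h2)
        · exact huv (h2.symm.trans h1)
        · exact hvA (h1 ▸ h2)
      · refine ⟨Or.inr (Or.inr h1.1), ?_⟩
        rintro (h2 | h2)
        · exact huE (h2 ▸ h1.1)
        · exact h1.2 h2
  -- covering
  have hcov : ∀ X ⊆ R, X.card ≤ 2 * a X := by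
    intro X hX
    refine cover2 h.ra hC1 hC2 ?_
    intro z hz
    rw [mem_union, mem_sdiff]
    by_cases hz' : z ∈ C
    · exact Or.inl hz'
    · exact Or.inr ⟨hX hz, hz'⟩
  have hsub : ∀ X ⊆ insert v R, X.erase v ⊆ R := by
    intro X hX z hz
    rcases mem_insert.1 (hX (mem_of_mem_erase hz)) with h1 | h1
    · exact absurd h1 (ne_of_mem_erase hz)
    · exact h1
  have hY : ∀ X ⊆ insert v R, X.card ≤ 2 * r X + 1 := by
    intro X hX
    have h1 := hcov _ (hsub X hX)
    have h2 := hE.rk.mono (X.erase v) X (erase_subset v X)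
    rw [h0 _ ((hsub X hX).trans hRE)] at h2
    have h3 := pred_card_le_card_erase (s := X) (a := v)
    omega
  have hRc : R.card = 2 * f := by
    have h1 := card_sdiff_add_card_eq_card hC
    have h2 := hC1.1
    have h3 := hC2.1
    omega
  have hVR : 2 * r (insert v R) + 1 ≤ (insert v R).card := by
    rw [card_insert_of_notMem hvR, hRc]
    have h1 := hE.rk.mono (insert v R) E (insert_subset hvE' (hRE.trans hE0))
    rw [hE.rank] at h1
    omega
  obtain ⟨Z, hZ, hZc, hZs⟩ := min_viol hY hVR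
  have hZR := hsub Z hZ
  have hvZ : v ∈ Z := by
    by_contra hn
    have h1 : Z ⊆ R := by
      rw [← erase_eq_of_notMem hn]
      exact hZR
    have h2 := hcov Z h1
    rw [← h0 Z (h1.trans hRE)] at h2
    omega
  set Z' := Z.erase v with hZ'
  have hZE : Z' ⊆ E0 := hZR.trans hRE
  have hZi : insert v Z' = Z := insert_erase hvZ
  have hZc' : Z'.card + 1 = Z.card := card_erase_add_one hvZ
  have hrZ := hv Z' hZE
  rw [hZi] at hrZ
  have hcZ := hcov Z' hZR
  have hmZ := hE.rk.mono Z' Z (erase_subset v Z)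
  rw [h0 Z' hZE] at hmZ
  have hleZ := h.le Z'
  have hZb : b Z' = a Z' := by omega
  have hZa : r Z = a Z' := by omega
  -- the key property
  have hins : ∀ c ∈ R, r (insert c V) = min (a (insert c A) + 1) (b (insert c A)) := by
    intro c hc
    rw [hVd, Finset.insert_comm]
    exact hu _ (insert_subset (hRE hc) hA)
  have hcl : ∀ c ∈ R, (r (insert c V) ≠ r V ↔ a (insert c A) ≠ a A) := by
    intro c hc
    have h1 := hins c hc
    have h2 := h.mono A (insert c A) (subset_insert _ _)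
    have h3 := h.ra.insert_le c A
    have h4 := h.ra.mono A (insert c A) (subset_insert _ _)
    constructor
    · intro h5 h6
      have h7 := h.dim A (insert c A) (subset_insert _ _)
      omega
    · intro h5 h6
      omega
  have key : ∀ S ⊆ R, Bs a f S → Bs a f (R \ S) → ∀ c ∈ cF a b S, a (insert c A) ≠ a A →
      Stp r E f (insert c V) (R \ S) := by
    intro S hS hS1 hS2 c hc hcA
    rw [mem_cF] at hc
    have hcR := hS hc.1
    have hcE := hRE hcR
    have h1 := hins c hcR
    have h2 := h.mono A (insert c A) (subset_insert _ _)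
    have h3 := ins_eq h.ra hcA
    have h4 := hbf (insert c A) (insert_subset hcE hA)
    have hcV : c ∉ V := by
      intro h'
      rcases mem_insert.1 h' with h' | h'
      · exact huE (h' ▸ hcE)
      · exact hcA (by rw [insert_eq_of_mem h'])
    have hb1 : Bs r f (insert c V) := by
      refine ⟨?_, ?_⟩
      · rw [card_insert_of_notMem hcV]
        omega
      · omega
    refine gd_stp hE (insert_subset (hE0 hcE) hVE) hb1 (sdiff_subset.trans (hRE.trans hE0)) ?_
      ⟨hS2.1, by rw [h0 _ (sdiff_subset.trans hRE)]; exact hS2.2⟩ ?_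
    · rw [disjoint_left]
      intro z hz hz'
      rw [mem_sdiff] at hz'
      rcases mem_insert.1 hz with h5 | h5
      · exact hz'.2 (h5 ▸ hc.1)
      · rcases mem_insert.1 h5 with h6 | h6
        · exact huR (h6 ▸ hz'.1)
        · exact (mem_sdiff.1 hz'.1).2 h6
    · have e1 : E \ (insert c V ∪ R \ S) = insert v (S.erase c) := by
        ext z
        simp only [hEd, hVd, mem_sdiff, mem_union, mem_insert, mem_erase]
        constructor
        · rintro ⟨h5, h6⟩
          push Not at h6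
          obtain ⟨⟨h7, h8, h9⟩, h10⟩ := h6
          rcases h5 with h5 | h5 | h5
          · exact absurd h5 h8
          · exact Or.inl h5
          · exact Or.inr ⟨h7, h10 (mem_sdiff.2 ⟨h5, h9⟩)⟩
        · rintro (h5 | h5)
          · subst h5
            refine ⟨Or.inr (Or.inl rfl), ?_⟩
            rintro ((h6 | h6 | h6) | h6)
            · exact hvE (h6 ▸ hcE)
            · exact huv h6.symm
            · exact hvA h6
            · exact hvR h6.1
          · have h6 := hS h5.2
            refine ⟨Or.inr (Or.inr (hRE h6)), ?_⟩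
            rintro ((h7 | h7 | h7) | h7)
            · exact h5.1 h7
            · exact huR (h7 ▸ h6)
            · exact (mem_sdiff.1 h6).2 h7
            · exact h7.2 h5.2
      rw [e1]
      have hSE : S.erase c ⊆ E0 := (erase_subset _ _).trans (hS.trans hRE)
      have h5 := hv (S.erase c) hSE
      have h6 := card_erase_add_one hc.1
      have h7 := CF98.ind_sub h.ra (hS1.2.trans hS1.1.symm) (erase_subset c S)
      have h8 := h.le (S.erase c)
      have h9 := hbf (S.erase c) hSE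
      have h10 := hS1.1
      have h11 := hc.2
      refine ⟨?_, by omega⟩
      rw [card_insert_of_notMem fun h' => hvE (hSE h')]
      omega
  set X1 := Z.filter fun z => r (insert z V) ≠ r V ∧ Q (insert z V) with hX1
  set X2 := Z.filter fun z => r (insert z V) ≠ r V ∧ ¬ Q (insert z V) with hX2
  have hss := star_sharp hE hQ hVE hVc hVr (Z := Z) (X1 := X1) (X2 := X2) (by rw [hEV]; exact hZ) hZc
    hZs (by rw [hEV]; exact hY) (filter_subset _ _) (filter_subset _ _)
    (fun x hx => (mem_filter.1 hx).2) (fun x hx => (mem_filter.1 hx).2)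
  have hvV : r (insert v V) = r V := by
    rw [hVd, huv' A hA, hu A hA]
  have hv1 : v ∉ X1 := fun h' => (mem_filter.1 h').2.1 hvV
  have hv2 : v ∉ X2 := fun h' => (mem_filter.1 h').2.1 hvV
  have hd : Disjoint X1 X2 := by
    rw [disjoint_left]
    intro x hx hx'
    exact (mem_filter.1 hx').2.2 (mem_filter.1 hx).2.2
  have hsp : ∀ S ⊆ R, Bs a f S → Bs a f (R \ S) → ∀ X : Finset β,
      (∀ c ∈ cF a b S, c ∉ X) → b (Z' \ X) = a (Z' \ X) := by
    intro S hS hS1 hS2 X hX
    have h1 : b S = a S := by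
      have := h.le S
      have := hbf S (hS.trans hRE)
      have := hS1.2
      omega
    refine h.up (X := cF a b S) ?_ (h.cF_span (hS1.2.trans hS1.1.symm) h1)
    intro c hc
    rw [mem_sdiff]
    refine ⟨cF_sub h hS1 hS2 (Z := Z') ?_ (by omega) hZb hc, hX c hc⟩
    intro z hz
    rw [mem_union, mem_sdiff]
    by_cases hz' : z ∈ S
    · exact Or.inl hz'
    · exact Or.inr ⟨hZR hz, hz'⟩
  have hRC : R \ (R \ C) = C := Finset.sdiff_sdiff_eq_self hC
  have hRC' : R \ (R \ C') = C' := Finset.sdiff_sdiff_eq_self hC'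
  have b2 : b (Z' \ X2) = a (Z' \ X2) := by
    refine hsp (R \ C) sdiff_subset hC2 (by rw [hRC]; exact hC1) X2 ?_
    intro c hc hcX
    have hc' := mem_filter.1 hcX
    have hcR : c ∈ R := sdiff_subset (mem_cF.1 hc).1
    have h1 := key (R \ C) sdiff_subset hC2 (by rw [hRC]; exact hC1) c hc
      ((hcl c hcR).1 hc'.2.1)
    rw [hRC] at h1
    exact hc'.2.2 (hQ _ _ (stp_symm h1) hq)
  have b1 : b (Z' \ X1) = a (Z' \ X1) := by
    refine hsp (R \ C') sdiff_subset hC2' (by rw [hRC']; exact hC1') X1 ?_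
    intro c hc hcX
    have hc' := mem_filter.1 hcX
    have hcR : c ∈ R := sdiff_subset (mem_cF.1 hc).1
    have h1 := key (R \ C') sdiff_subset hC2' (by rw [hRC']; exact hC1') c hc
      ((hcl c hcR).1 hc'.2.1)
    rw [hRC'] at h1
    exact hnq (hQ _ _ h1 hc'.2.2)
  have hre : ∀ X : Finset β, v ∉ X → Z \ X = insert v (Z' \ X) := by
    intro X hX
    ext z
    simp only [hZ', mem_sdiff, mem_insert, mem_erase]
    constructor
    · rintro ⟨h1, h2⟩
      by_cases hz : z = v
      · exact Or.inl hz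
      · exact Or.inr ⟨⟨hz, h1⟩, h2⟩
    · rintro (h1 | h1)
      · rw [h1]
        exact ⟨hvZ, hX⟩
      · exact ⟨h1.1.2, h1.2⟩
  have hv12 : v ∉ X1 ∪ X2 := by
    rw [mem_union]
    rintro (h' | h')
    · exact hv1 h'
    · exact hv2 h'
  set J := Z' \ (X1 ∪ X2) with hJ
  have hJE : J ⊆ E0 := sdiff_subset.trans hZE
  rw [hre X1 hv1, hre X2 hv2, hre _ hv12, hv _ (sdiff_subset.trans hZE),
    hv _ (sdiff_subset.trans hZE), hv _ hJE] at hss
  have hJcl : ∀ x ∈ J, a (insert x A) = a A := by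
    intro x hx
    by_contra hn
    have hx' := mem_sdiff.1 hx
    have hxR := hZR hx'.1
    have h1 := (hcl x hxR).2 hn
    apply hx'.2
    rw [mem_union, hX1, hX2, mem_filter, mem_filter]
    by_cases hqx : Q (insert x V)
    · exact Or.inl ⟨mem_of_mem_erase hx'.1, h1, hqx⟩
    · exact Or.inr ⟨mem_of_mem_erase hx'.1, h1, hqx⟩
  have j1 := rank_union h.ra hJcl
  have j2 := h.dim J (A ∪ J) subset_union_right
  have j3 := h.mono A (A ∪ J) subset_union_left
  have j4 := h.sub (Z' \ X1) (Z' \ X2)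
  have e1 : Z' \ X1 ∪ Z' \ X2 = Z' := by
    ext z
    simp only [mem_union, mem_sdiff]
    have h5 : z ∈ X1 → z ∉ X2 := fun h' => disjoint_left.1 hd h'
    clear * - h5
    tauto
  have e2 : Z' \ X1 ∩ (Z' \ X2) = J := by
    ext z
    simp only [hJ, mem_inter, mem_union, mem_sdiff]
    clear * -
    tauto
  rw [e1, e2] at j4
  omega

/-- Strict systems with at most two copies of `e`. -/
theorem j2_strict [Infinite β] {ρ ρ' : Finset α → ℕ} {e : α} {F : Finset α} (hP : PE ρ ρ' e F)
    (h1 : ∀ (ψ : β → α) (I : Finset α) (E : Finset β) (f : ℕ), e ∉ I →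
      Env (mkr ρ' ψ I) E f → (E.filter fun z => ψ z = e).card ≤ 1 → ConS (mkr ρ' ψ I) E f)
    (ψ : β → α) (I : Finset α) (E : Finset β) (f : ℕ) (he : e ∉ I)
    (hE : Env (mkr ρ' ψ I) E f) (hs : Strict (mkr ρ' ψ I) E)
    (hj : (E.filter fun z => ψ z = e).card ≤ 2) : ConS (mkr ρ' ψ I) E f := by
  classical
  by_cases hj1 : (E.filter fun z => ψ z = e).card ≤ 1
  · exact h1 ψ I E f he hE hj1
  have hj2 : (E.filter fun z => ψ z = e).card = 2 := by omega
  obtain ⟨u, v, huv, hfl⟩ := card_eq_two.1 hj2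
  have hmem : ∀ z, z ∈ E ∧ ψ z = e ↔ z = u ∨ z = v := by
    intro z
    have h2 : z ∈ E.filter (fun z => ψ z = e) ↔ z ∈ ({u, v} : Finset β) := by rw [hfl]
    rwa [mem_filter, mem_insert, mem_singleton] at h2
  obtain ⟨hu, hue⟩ := (hmem u).2 (Or.inl rfl)
  obtain ⟨hv, hve⟩ := (hmem v).2 (Or.inr rfl)
  obtain ⟨E0, huE, hvE, rfl⟩ : ∃ E0, u ∉ E0 ∧ v ∉ E0 ∧ insert u (insert v E0) = E := by
    refine ⟨(E.erase u).erase v, ?_, notMem_erase _ _, ?_⟩
    · intro h'
      exact notMem_erase u E (mem_of_mem_erase h')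
    · rw [insert_erase (mem_erase.2 ⟨Ne.symm huv, hv⟩), insert_erase hu]
  set E := insert u (insert v E0) with hEd
  have hE0 : E0 ⊆ E := fun z hz => mem_insert_of_mem (mem_insert_of_mem hz)
  have hne : ∀ z ∈ E0, ψ z ≠ e := by
    intro z hz hze
    rcases (hmem z).1 ⟨hE0 hz, hze⟩ with h2 | h2
    · exact huE (h2 ▸ hz)
    · exact hvE (h2 ▸ hz)
  have hab := mk_ab hP.r1 ψ I F
  have g0 : ∀ X ⊆ E0, mkr ρ' ψ I X = mkr ρ ψ I X := fun X hX =>
    pe_out hP he fun z hz => hne z (hX hz)
  have gu : ∀ X ⊆ E0, mkr ρ' ψ I (insert u X) = min (mkr ρ ψ I X + 1) (mkb ρ ψ I F X) := fun X hX =>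
    pe_inn hP he (fun z hz => hne z (hX hz)) hue
  have gv : ∀ X ⊆ E0, mkr ρ' ψ I (insert v X) = min (mkr ρ ψ I X + 1) (mkb ρ ψ I F X) := fun X hX =>
    pe_inn hP he (fun z hz => hne z (hX hz)) hve
  have guv : ∀ X ⊆ E0, mkr ρ' ψ I (insert v (insert u X)) =
      min (mkr ρ ψ I X + 1) (mkb ρ ψ I F X) := by
    intro X hX
    have h2 : nE ψ e (insert v (insert u X)) = X := by
      ext z
      rw [mem_nE, mem_insert, mem_insert]
      constructor
      · rintro ⟨h3 | h3 | h3, h4⟩
        · exact absurd (h3 ▸ hve) h4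
        · exact absurd (h3 ▸ hue) h4
        · exact h3
      · intro h3
        exact ⟨Or.inr (Or.inr h3), hne z (hX h3)⟩
    have h3 := pe_inn' hP he (ψ := ψ) (X := insert v (insert u X)) ⟨v, mem_insert_self _ _, hve⟩
    rw [h2] at h3
    exact h3
  have hnE : nE ψ e E = E0 := by
    ext z
    rw [mem_nE]
    constructor
    · rintro ⟨h3, h4⟩
      rcases mem_insert.1 h3 with h3 | h3
      · exact absurd (h3 ▸ hue) h4
      · rcases mem_insert.1 h3 with h3 | h3
        · exact absurd (h3 ▸ hve) h4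
        · exact h3
    · intro h3
      exact ⟨hE0 h3, hne z h3⟩
  have hfull := full hP he hE hj ⟨u, hu, hue⟩
  rw [hnE] at hfull
  have hbf : ∀ X ⊆ E0, mkb ρ ψ I F X ≤ f := by
    intro X hX
    rw [← hfull.2]
    exact hab.mono X E0 hX
  have hEx : ∀ x ∈ F, ρ (insert x I) ≠ ρ I → Env (mkr ρ' (Function.update ψ v x) I) E f :=
    fun x hx hxI => env_x hP he hE hs hj hv hve hx hxI
  have hCx : ∀ x ∈ F, ρ (insert x I) ≠ ρ I → ConS (mkr ρ' (Function.update ψ v x) I) E f := by
    intro x hx hxI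
    refine h1 _ I E f he (hEx x hx hxI) ?_
    rw [card_le_one]
    have hxe : x ≠ e := by
      rintro rfl
      exact hP.eF hx
    have h3 : ∀ z ∈ E.filter (fun z => Function.update ψ v x z = e), z = u := by
      intro z hz
      rw [mem_filter] at hz
      by_cases hzv : z = v
      · rw [hzv, Function.update_self] at hz
        exact absurd hz.2 hxe
      · rw [Function.update_of_ne hzv] at hz
        rcases (hmem z).1 hz with h4 | h4
        · exact h4
        · exact absurd h4 hzv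
    intro z hz w hw
    rw [h3 z hz, h3 w hw]
  -- blocks without both copies
  have hbs : ∀ x ∈ F, ∀ S ⊆ E, ¬ (u ∈ S ∧ v ∈ S) → Bs (mkr ρ' (Function.update ψ v x) I) f S →
      Bs (mkr ρ' ψ I) f S := by
    intro x hx S hS huvS hb
    refine ⟨hb.1, ?_⟩
    have h2 := hE.rk.le_card S
    rw [hb.1] at h2
    by_cases hvS : v ∈ S
    · have h3 := rx_le hP he hve hx (X := S) (by
        intro z hz hzv hze
        rcases (hmem z).1 ⟨hS hz, hze⟩ with h4 | h4
        · exact huvS ⟨h4 ▸ hz, hvS⟩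
        · exact hzv h4)
      rw [hb.2] at h3
      omega
    · rw [← hb.2, mkr_upd_not hvS]
  -- blocks with both copies
  have hbw : ∀ x ∈ F, ∀ S ⊆ E, u ∈ S → v ∈ S → Bs (mkr ρ' (Function.update ψ v x) I) f S →
      ((S.erase u).erase v).card + 2 = f ∧ mkr ρ ψ I ((S.erase u).erase v) + 2 = f ∧
      mkb ρ ψ I F ((S.erase u).erase v) = f := by
    intro x hx S hS huS hvS hb
    set A := (S.erase u).erase v with hA
    have hAE : A ⊆ E0 := by
      intro z hz
      have hz1 := mem_erase.1 hz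
      have hz2 := mem_erase.1 hz1.2
      rcases mem_insert.1 (hS hz2.2) with h3 | h3
      · exact absurd h3 hz2.1
      · rcases mem_insert.1 h3 with h3 | h3
        · exact absurd h3 hz1.1
        · exact h3
    have c1 := card_erase_add_one huS
    have c2 := card_erase_add_one (mem_erase.2 ⟨Ne.symm huv, hvS⟩ : v ∈ S.erase u)
    rw [← hA] at c2
    have c3 := hb.1
    have hxe : x ≠ e := by
      rintro rfl
      exact hP.eF hx
    have h3 : (S.erase v).image ψ = insert e (A.image ψ) := by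
      have h4 : S.erase v = insert u A := by
        rw [hA, erase_right_comm, insert_erase (mem_erase.2 ⟨huv, huS⟩)]
      rw [h4, image_insert, hue]
    have h5 := hb.2
    rw [mkr_upd hvS, h3, insert_union, Finset.insert_comm, hP.out _ he, hP.inn _ (by
      rw [mem_insert]
      rintro (h' | h')
      · exact hxe h'.symm
      · exact notMem_img he (fun z hz => hne z (hAE hz)) h')] at h5
    have h6 : insert x (A.image ψ ∪ I) ∪ F = A.image ψ ∪ I ∪ F := by
      ext z
      simp only [mem_union, mem_insert]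
      constructor
      · rintro ((h' | h') | h')
        · exact Or.inr (h' ▸ hx)
        · exact Or.inl h'
        · exact Or.inr h'
      · rintro (h' | h')
        · exact Or.inl (Or.inr h')
        · exact Or.inr h'
    rw [h6] at h5
    have h7 := hP.r1.insert_le x (A.image ψ ∪ I)
    have h8 := hP.r1.mono I (A.image ψ ∪ I) subset_union_right
    have h9 := hab.ra.le_card A
    have h10 := hbf A hAE
    have h11 := hP.r1.mono (A.image ψ ∪ I) (A.image ψ ∪ I ∪ F) subset_union_left
    unfold mkb at h10 ⊢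
    unfold mkr at h9 ⊢
    omega
  have hnw : ∀ S ⊆ E, Bs (mkr ρ' ψ I) f S → ¬ (u ∈ S ∧ v ∈ S) := by
    rintro S hS hb ⟨huS, hvS⟩
    set A := (S.erase u).erase v with hA
    have hAE : A ⊆ E0 := by
      intro z hz
      have hz1 := mem_erase.1 hz
      have hz2 := mem_erase.1 hz1.2
      rcases mem_insert.1 (hS hz2.2) with h3 | h3
      · exact absurd h3 hz2.1
      · rcases mem_insert.1 h3 with h3 | h3
        · exact absurd h3 hz1.1
        · exact h3
    have c1 := card_erase_add_one huS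
    have c2 := card_erase_add_one (mem_erase.2 ⟨Ne.symm huv, hvS⟩ : v ∈ S.erase u)
    rw [← hA] at c2
    have c3 := hb.1
    have h4 : S = insert v (insert u A) := by
      rw [Finset.insert_comm, hA, insert_erase (mem_erase.2 ⟨Ne.symm huv, hvS⟩), insert_erase huS]
    have h5 := guv A hAE
    rw [← h4, hb.2] at h5
    have h6 := hab.ra.le_card A
    omega
  intro Q hQ P P' hP1 hP2 hq
  -- the extended class function
  set Q' : Finset β → Prop := fun S => if u ∈ S ∧ v ∈ S then
    ∃ C ⊆ E0 \ ((S.erase u).erase v), Bs (mkr ρ ψ I) f C ∧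
      Bs (mkr ρ ψ I) f ((E0 \ ((S.erase u).erase v)) \ C) ∧ Q C else Q S with hQ'
  have hQ1 : ∀ S, ¬ (u ∈ S ∧ v ∈ S) → (Q' S ↔ Q S) := by
    intro S hS
    rw [hQ']
    simp only [if_neg hS]
  have hQ2 : ∀ S, (u ∈ S ∧ v ∈ S) → (Q' S ↔ ∃ C ⊆ E0 \ ((S.erase u).erase v), Bs (mkr ρ ψ I) f C ∧
      Bs (mkr ρ ψ I) f ((E0 \ ((S.erase u).erase v)) \ C) ∧ Q C) := by
    intro S hS
    rw [hQ']
    simp only [if_pos hS]
  have hba : ∀ x ∈ F, ∀ C ⊆ E0, Bs (mkr ρ' (Function.update ψ v x) I) f C →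
      Bs (mkr ρ ψ I) f C := by
    intro x hx C hC hb
    have h2 := hbs x hx C (hC.trans hE0) (fun h' => huE (hC h'.1)) hb
    exact ⟨h2.1, by rw [← g0 C hC]; exact h2.2⟩
  have hR : ∀ S C, u ∈ S → v ∈ S → C ⊆ E → Disjoint S C →
      C ⊆ E0 \ ((S.erase u).erase v) ∧ (E0 \ ((S.erase u).erase v)) \ C = E \ (S ∪ C) := by
    intro S C huS hvS hC hd
    have hd' := disjoint_left.1 hd
    constructor
    · intro z hz
      rw [mem_sdiff]
      refine ⟨?_, fun h' => hd' (mem_of_mem_erase (mem_of_mem_erase h')) hz⟩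
      rcases mem_insert.1 (hC hz) with h3 | h3
      · exact absurd (h3 ▸ hz) (hd' huS)
      · rcases mem_insert.1 h3 with h3 | h3
        · exact absurd (h3 ▸ hz) (hd' hvS)
        · exact h3
    · ext z
      simp only [mem_sdiff, mem_union, mem_erase]
      constructor
      · rintro ⟨⟨h2, h3⟩, h4⟩
        refine ⟨hE0 h2, ?_⟩
        rintro (h5 | h5)
        · refine h3 ⟨?_, ?_, h5⟩
          · rintro rfl
            exact hvE h2
          · rintro rfl
            exact huE h2
        · exact h4 h5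
      · rintro ⟨h2, h3⟩
        refine ⟨⟨?_, fun h4 => h3 (Or.inl h4.2.2)⟩, fun h4 => h3 (Or.inr h4)⟩
        rcases mem_insert.1 h2 with h4 | h4
        · exact absurd (Or.inl (h4 ▸ huS)) h3
        · rcases mem_insert.1 h4 with h4 | h4
          · exact absurd (Or.inl (h4 ▸ hvS)) h3
          · exact h4
  have hshare : ∀ x ∈ F, ∀ S ⊆ E, u ∈ S → v ∈ S → Bs (mkr ρ' (Function.update ψ v x) I) f S →
      ∀ C C', C ⊆ E0 \ ((S.erase u).erase v) → Bs (mkr ρ ψ I) f C →
      Bs (mkr ρ ψ I) f ((E0 \ ((S.erase u).erase v)) \ C) →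
      C' ⊆ E0 \ ((S.erase u).erase v) → Bs (mkr ρ ψ I) f C' →
      Bs (mkr ρ ψ I) f ((E0 \ ((S.erase u).erase v)) \ C') → Q C → Q C' := by
    intro x hx S hS huS hvS hb C C' k1 k2 k3 k4 k5 k6 k7
    obtain ⟨m1, m2, m3⟩ := hbw x hx S hS huS hvS hb
    have hAE : (S.erase u).erase v ⊆ E0 := by
      intro z hz
      have hz1 := mem_erase.1 hz
      have hz2 := mem_erase.1 hz1.2
      rcases mem_insert.1 (hS hz2.2) with h3 | h3
      · exact absurd h3 hz2.1
      · rcases mem_insert.1 h3 with h3 | h3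
        · exact absurd h3 hz1.1
        · exact h3
    exact share_2 hab huE hvE huv hE g0 gu gv guv hbf hQ hAE m1 m2 m3 k1 k2 k3 k4 k5 k6 k7
  have hst : ∀ x ∈ F, ∀ A C, A ⊆ E → C ⊆ E → Disjoint A C →
      Bs (mkr ρ' (Function.update ψ v x) I) f A → Bs (mkr ρ' (Function.update ψ v x) I) f C →
      Bs (mkr ρ' (Function.update ψ v x) I) f (E \ (A ∪ C)) → Q' A → Q' C := by
    intro x hx A C hA hC hd hbA hbC hbD hqA
    have hd' := disjoint_left.1 hd
    by_cases cA : u ∈ A ∧ v ∈ A
    · have cC : ¬ (u ∈ C ∧ v ∈ C) := fun h' => hd' cA.1 h'.1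
      rw [hQ1 C cC]
      obtain ⟨C0, hC0, k1, k2, k3⟩ := (hQ2 A cA).1 hqA
      obtain ⟨m1, m2⟩ := hR A C cA.1 cA.2 hC hd
      refine hshare x hx A hA cA.1 cA.2 hbA C0 C hC0 k1 k2 m1
        (hba x hx C (m1.trans sdiff_subset) hbC) ?_ k3
      rw [m2]
      refine hba x hx _ ?_ hbD
      rw [← m2]
      exact sdiff_subset.trans sdiff_subset
    · have qA := (hQ1 A cA).1 hqA
      by_cases cC : u ∈ C ∧ v ∈ C
      · rw [hQ2 C cC]
        obtain ⟨m1, m2⟩ := hR C A cC.1 cC.2 hA hd.symm
        refine ⟨A, m1, hba x hx A (m1.trans sdiff_subset) hbA, ?_, qA⟩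
        rw [m2, union_comm]
        refine hba x hx _ ?_ hbD
        rw [union_comm, ← m2]
        exact sdiff_subset.trans sdiff_subset
      · rw [hQ1 C cC]
        by_cases cD : u ∈ E \ (A ∪ C) ∧ v ∈ E \ (A ∪ C)
        · have dA : Disjoint (E \ (A ∪ C)) A := by
            rw [disjoint_left]
            intro z hz hz'
            exact (mem_sdiff.1 hz).2 (mem_union_left _ hz')
          have dC : Disjoint (E \ (A ∪ C)) C := by
            rw [disjoint_left]
            intro z hz hz'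
            exact (mem_sdiff.1 hz).2 (mem_union_right _ hz')
          obtain ⟨m1, m2⟩ := hR _ A cD.1 cD.2 hA dA
          obtain ⟨m3, m4⟩ := hR _ C cD.1 cD.2 hC dC
          have e1 : E \ (E \ (A ∪ C) ∪ A) = C := third_eq hC hd
          have e2 : E \ (E \ (A ∪ C) ∪ C) = A := by
            rw [union_comm A C]
            exact third_eq hA hd.symm
          have bA := hba x hx A (m1.trans sdiff_subset) hbA
          have bC := hba x hx C (m3.trans sdiff_subset) hbC
          refine hshare x hx _ sdiff_subset cD.1 cD.2 hbD A C m1 bA ?_ m3 bC ?_ qA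
          · rw [m2, e1]
            exact bC
          · rw [m4, e2]
            exact bA
        · exact hQ _ _ (gd_stp hE hA (hbs x hx A hA cA hbA) hC hd (hbs x hx C hC cC hbC)
            (hbs x hx _ sdiff_subset cD hbD)) qA
  have hg : ∀ A, Gd (mkr ρ' ψ I) E f A → ∃ x ∈ F, ρ (insert x I) ≠ ρ I ∧
      Gd (mkr ρ' (Function.update ψ v x) I) E f A := by
    intro A hA
    obtain ⟨C, hC, hd, hb1, hb2⟩ := gd_parts hE hA
    have hd' := disjoint_left.1 hd
    have hno : ∀ x S, v ∉ S → Bs (mkr ρ' ψ I) f S → Bs (mkr ρ' (Function.update ψ v x) I) f S := by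
      intro x S hS hb
      exact ⟨hb.1, by rw [mkr_upd_not hS]; exact hb.2⟩
    have hex : ∀ S ⊆ E, v ∈ S → Bs (mkr ρ' ψ I) f S → ∃ x ∈ F, ρ (insert x I) ≠ ρ I ∧
        Bs (mkr ρ' (Function.update ψ v x) I) f S := by
      intro S hS hvS hb
      refine ex_x hP he hvS hve ?_ hb
      intro z hz hzv hze
      rcases (hmem z).1 ⟨hS hz, hze⟩ with h4 | h4
      · exact hnw S hS hb ⟨h4 ▸ hz, hvS⟩
      · exact hzv h4
    by_cases c1 : v ∈ A
    · obtain ⟨x, hx, hxI, hbx⟩ := hex A hA.1 c1 hA.2.1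
      exact ⟨x, hx, hxI, gd_of_parts (hEx x hx hxI) hA.1 hbx hC hd (hno x C (hd' c1) hb1)
        (hno x _ (fun h' => (mem_sdiff.1 h').2 (mem_union_left _ c1)) hb2)⟩
    · by_cases c2 : v ∈ C
      · obtain ⟨x, hx, hxI, hbx⟩ := hex C hC c2 hb1
        exact ⟨x, hx, hxI, gd_of_parts (hEx x hx hxI) hA.1 (hno x A c1 hA.2.1) hC hd hbx
          (hno x _ (fun h' => (mem_sdiff.1 h').2 (mem_union_right _ c2)) hb2)⟩
      · have c3 : v ∈ E \ (A ∪ C) := by
          rw [mem_sdiff, mem_union]
          exact ⟨hv, fun h' => h'.elim c1 c2⟩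
        obtain ⟨x, hx, hxI, hbx⟩ := hex _ sdiff_subset c3 hb2
        exact ⟨x, hx, hxI, gd_of_parts (hEx x hx hxI) hA.1 (hno x A c1 hA.2.1) hC hd
          (hno x C c2 hb1) hbx⟩
  obtain ⟨x, hx, hxI, hAx⟩ := hg P hP1
  obtain ⟨y, hy, hyI, hBy⟩ := hg P' hP2
  obtain ⟨T, hT, hTx, hTy⟩ := link_xy hP.r2 hv (hEx x hx hxI) (hEx y hy hyI)
    (full_xy hP he hE hj hv hve hx hy)
  have q0 := (hQ1 P (hnw P hP1.1 hP1.2.1)).2 hq
  have q1 := hCx x hx hxI Q' (fun S S' hS => inv_of_state (hst x hx) hS) P T hAx hTx q0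
  have q2 := hCx y hy hyI Q' (fun S S' hS => inv_of_state (hst y hy) hS) T P' hTy hBy q1
  exact (hQ1 P' (hnw P' hP2.1 hP2.2.1)).1 q2

end Pool.Agent.FT56
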