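import Pool.Agent.FT56.ShD
import Pool.Agent.FT56.J2

/-!
SHARE-A for the principal truncation: for a fixed block `A` of a partition of the second kind all blocks `B` have
one colour.
-/

set_option autoImplicit false

namespace Pool.Agent.FT56

open Finset Pool.Agent.DT3 Pool.Agent.CF98

variable {β : Type*} [DecidableEq β] {a b t : Finset β → ℕ} {E : Finset β} {f : ℕ} {Q : Finset β → Prop}

/-- The blocks `B` and `insert c A` are in one state. -/
theorem tri_stpA (h : AB a b) (ht : ∀ X ⊆ E, t X = min (a X) (b X - 1)) (hE : Env t E f)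
    {D B A : Finset β} (h1 : Tri a b E f D B A) {c : β}
    (hc : c ∈ D) (hD : t (D.erase c) = f) (hA : a (insert c A) ≠ a A) : Stp t E f B (insert c A) := by
  obtain ⟨g1, g2, g3, g4⟩ := h1.symm
  have hcA : c ∉ A := fun h2 => disjoint_left.1 h1.da hc h2
  have hcB : c ∉ B := fun h2 => disjoint_left.1 h1.db hc h2
  have k1 := card_erase_of_mem hc
  have k2 := h1.d1
  have hBB : Bs t f B := by
    refine ⟨h1.b1, ?_⟩
    rw [ht B g2, h1.b2]
    have := h1.b3
    omega
  have hDD : Bs t f (D.erase c) := ⟨by omega, hD⟩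
  have hAA : Bs t f (insert c A) := by
    refine ⟨by rw [card_insert_of_notMem hcA]; exact h1.a1, ?_⟩
    rw [ht _ (insert_subset (g1 hc) g3)]
    have k3 := h.ra.insert_le c A
    have k4 := h.ra.mono A (insert c A) (subset_insert c A)
    have k5 := h.mono A (insert c A) (subset_insert c A)
    have k6 := h1.a2
    have k7 := h1.a3
    omega
  have e : E \ (B ∪ insert c A) = D.erase c := by
    rw [← h1.un]
    have m1 := disjoint_left.1 h1.db
    have m2 := disjoint_left.1 h1.da
    ext x
    simp only [mem_sdiff, mem_union, mem_erase, mem_insert, not_or, ne_eq]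
    constructor
    · rintro ⟨(h3 | h3) | h3, h4, h5, h6⟩
      · exact ⟨h5, h3⟩
      · exact absurd h3 h4
      · exact absurd h3 h6
    · rintro ⟨h3, h4⟩
      exact ⟨Or.inl (Or.inl h4), fun h5 => m1 h4 h5, h3, fun h5 => m2 h4 h5⟩
  refine gd_stp hE g2 hBB (insert_subset (g1 hc) g3) ?_ hAA (by rw [e]; exact hDD)
  rw [disjoint_left]
  intro x hx hx'
  rcases mem_insert.1 hx' with h5 | h5
  · exact hcB (h5 ▸ hx)
  · exact disjoint_left.1 h1.ba hx h5

/-- What one partition says about the circuit `Z`. -/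
theorem tri_circ (h : AB a b) (hb : ∀ X, 1 ≤ b X) (ht : ∀ X ⊆ E, t X = min (a X) (b X - 1))
    (hE : Env t E f) {D B A Z : Finset β} (h1 : Tri a b E f D B A) (hZ : Z ⊆ E \ A)
    (hZc : Z.card = 2 * t Z + 1) : b Z = a Z ∧ a Z = t Z + 1 ∧ cF a b D ⊆ Z := by
  obtain ⟨g1, g2, g3, g4⟩ := h1.symm
  have hr := hE.rk
  have hZE : Z ⊆ E := hZ.trans sdiff_subset
  have m1 := disjoint_left.1 h1.db
  have tB : t B = B.card := by
    rw [ht B g2]
    have := h1.b1
    have := h1.b2
    have := h1.b3
    omega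
  have aD : a D = D.card := by rw [h1.d1, h1.d2]
  have k1 : t (Z ∩ B) = (Z ∩ B).card := CF98.ind_sub hr tB inter_subset_right
  have k2 : a (Z ∩ D) = (Z ∩ D).card := CF98.ind_sub h.ra aD inter_subset_right
  have k3 : Z.card = (Z ∩ D).card + (Z ∩ B).card := by
    rw [← card_union_of_disjoint]
    · rw [← inter_union_distrib_left]
      congr 1
      rw [eq_comm, inter_eq_left]
      intro x hx
      have h5 := mem_sdiff.1 (hZ hx)
      rw [← h1.un, mem_union] at h5
      exact h5.1.resolve_right h5.2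
    · exact disjoint_of_subset_left inter_subset_right (disjoint_of_subset_right inter_subset_right h1.db)
  have k4 := hr.mono (Z ∩ B) Z inter_subset_left
  have k5 := h.ra.mono (Z ∩ D) Z inter_subset_left
  have k6 := ht Z hZE
  have k7 := h.le Z
  have k8 := hb Z
  have e1 : b Z = a Z := by omega
  have e2 : a Z = t Z + 1 := by omega
  refine ⟨e1, e2, ?_⟩
  intro c hc
  rw [mem_cF] at hc
  by_contra hcZ
  have k9 := h.mono (Z ∩ D) Z inter_subset_left
  have k10 := h.le (Z ∩ D)
  refine hc.2 (h.up (X := Z ∩ D) ?_ (by omega))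
  intro z hz
  rw [mem_inter] at hz
  rw [mem_erase]
  refine ⟨?_, hz.2⟩
  rintro rfl
  exact hcZ hz.1

theorem share_a (h : AB a b) (hb : ∀ X, 1 ≤ b X) (ht : ∀ X ⊆ E, t X = min (a X) (b X - 1)) (hE : Env t E f)
    (hQ : ∀ S S', Stp t E f S S' → Q S → Q S') {D B D' B' A : Finset β}
    (h1 : Tri a b E f D B A) (h2 : Tri a b E f D' B' A) (hq : Q B) : Q B' := by
  classical
  by_contra hq'
  have hr := hE.rk
  obtain ⟨g1, g2, g3, g4⟩ := h1.symm
  have tA : t A + 1 = f := by
    rw [ht A g3]
    have := h1.a2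
    have := h1.a3
    omega
  have m1 := disjoint_left.1 h1.db
  have aD : a D = D.card := by rw [h1.d1, h1.d2]
  have tB : t B = B.card := by
    rw [ht B g2]
    have := h1.b1
    have := h1.b2
    have := h1.b3
    omega
  -- covering
  have hY : ∀ X ⊆ E \ A, X.card ≤ 2 * t X + 1 := by
    intro X hX
    have hXE : X ⊆ E := hX.trans sdiff_subset
    have k1 : t (X ∩ B) = (X ∩ B).card := CF98.ind_sub hr tB inter_subset_right
    have k2 : a (X ∩ D) = (X ∩ D).card := CF98.ind_sub h.ra aD inter_subset_right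
    have k3 : X.card = (X ∩ D).card + (X ∩ B).card := by
      rw [← card_union_of_disjoint]
      · rw [← inter_union_distrib_left]
        congr 1
        rw [eq_comm, inter_eq_left]
        intro x hx
        have h5 := mem_sdiff.1 (hX hx)
        rw [← h1.un, mem_union] at h5
        exact h5.1.resolve_right h5.2
      · exact disjoint_of_subset_left inter_subset_right (disjoint_of_subset_right inter_subset_right h1.db)
    have k4 := hr.mono (X ∩ B) X inter_subset_left
    have k5 := hr.mono (X ∩ D) X inter_subset_left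
    have k6 := ht (X ∩ D) (inter_subset_left.trans hXE)
    have k7 := h.le (X ∩ D)
    omega
  have hRc : 2 * t (E \ A) + 1 ≤ (E \ A).card := by
    have k1 : (E \ A).card = D.card + B.card := by
      rw [← card_union_of_disjoint h1.db]
      congr 1
      rw [← h1.un]
      have m2 := disjoint_left.1 h1.da
      have m3 := disjoint_left.1 h1.ba
      ext x
      simp only [mem_sdiff, mem_union]
      constructor
      · rintro ⟨h3 | h3, h4⟩
        · exact h3
        · exact absurd h3 h4
      · rintro (h3 | h3)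
        · exact ⟨Or.inl (Or.inl h3), fun h4 => m2 h3 h4⟩
        · exact ⟨Or.inl (Or.inr h3), fun h4 => m3 h3 h4⟩
    have k2 := hr.mono (E \ A) E sdiff_subset
    rw [hE.rank] at k2
    have := h1.d1
    have := h1.b1
    omega
  obtain ⟨Z, hZ, hZc, hZs⟩ := min_viol hY hRc
  have hZE : Z ⊆ E := hZ.trans sdiff_subset
  obtain ⟨zb, za, c1⟩ := tri_circ h hb ht hE h1 hZ hZc
  obtain ⟨-, -, c2⟩ := tri_circ h hb ht hE h2 hZ hZc
  set X1 := Z.filter fun z => t (insert z A) ≠ t A ∧ Q (insert z A) with hX1
  set X2 := Z.filter fun z => t (insert z A) ≠ t A ∧ ¬ Q (insert z A) with hX2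
  have hss := star_sharp hE hQ g3 h1.a1 tA (Z := Z) (X1 := X1) (X2 := X2) hZ hZc
    hZs hY (filter_subset _ _) (filter_subset _ _)
    (fun x hx => (mem_filter.1 hx).2) (fun x hx => (mem_filter.1 hx).2)
  -- tokens are outside the closure of `A`
  have hcl : ∀ z ∈ E, (t (insert z A) ≠ t A ↔ a (insert z A) ≠ a A) := by
    intro z hz
    have k1 := ht (insert z A) (insert_subset hz g3)
    have k2 := h.ra.insert_le z A
    have k3 := h.ra.mono A (insert z A) (subset_insert z A)
    have k4 := h.mono A (insert z A) (subset_insert z A)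
    have k5 := h1.a2
    have k6 := h1.a3
    constructor
    · intro k7 k8
      omega
    · intro k7 k8
      omega
  have key : ∀ D B : Finset β, Tri a b E f D B A → ∀ c ∈ cF a b D, a (insert c A) ≠ a A →
      Stp t E f B (insert c A) := by
    intro D B h1 c hc hcA
    rw [mem_cF] at hc
    have hD : t (D.erase c) = f := by
      rw [ht _ ((erase_subset c D).trans h1.symm.1)]
      have k1 := card_erase_add_one hc.1
      have k2 : a (D.erase c) = (D.erase c).card :=
        CF98.ind_sub h.ra (by rw [h1.d1, h1.d2]) (erase_subset c D)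
      have k3 := h.le (D.erase c)
      have k4 := hc.2
      have k5 := h1.d1
      omega
    exact tri_stpA h ht hE h1 hc.1 hD hcA
  have hsp : ∀ D B : Finset β, Tri a b E f D B A → cF a b D ⊆ Z → ∀ X : Finset β,
      (∀ c ∈ cF a b D, c ∉ X) → b (Z \ X) = a (Z \ X) := by
    intro D B h1 hcZ X hX
    have k1 : b D = a D := by rw [h1.d3, h1.d2]
    refine h.up (X := cF a b D) ?_ (h.cF_span (by rw [h1.d1, h1.d2]) k1)
    intro c hc
    rw [mem_sdiff]
    exact ⟨hcZ hc, hX c hc⟩
  have b2 : b (Z \ X2) = a (Z \ X2) := by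
    refine hsp D B h1 c1 X2 ?_
    intro c hc hcX
    have hc' := mem_filter.1 hcX
    have k1 := key D B h1 c hc ((hcl c (hZE hc'.1)).1 hc'.2.1)
    exact hc'.2.2 (hQ _ _ k1 hq)
  have b1 : b (Z \ X1) = a (Z \ X1) := by
    refine hsp D' B' h2 c2 X1 ?_
    intro c hc hcX
    have hc' := mem_filter.1 hcX
    have k1 := key D' B' h2 c hc ((hcl c (hZE hc'.1)).1 hc'.2.1)
    exact hq' (hQ _ _ (stp_symm k1) hc'.2.2)
  set J := Z \ (X1 ∪ X2) with hJ
  have hJE : J ⊆ E := sdiff_subset.trans hZE
  have hJcl : ∀ x ∈ J, a (insert x A) = a A := by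
    intro x hx
    by_contra hn
    have hx' := mem_sdiff.1 hx
    have k1 := (hcl x (hZE hx'.1)).2 hn
    apply hx'.2
    rw [mem_union, hX1, hX2, mem_filter, mem_filter]
    by_cases hqx : Q (insert x A)
    · exact Or.inl ⟨hx'.1, k1, hqx⟩
    · exact Or.inr ⟨hx'.1, k1, hqx⟩
  have j1 := rank_union h.ra hJcl
  have j2 := h.dim J (A ∪ J) subset_union_right
  have j3 := h.mono A (A ∪ J) subset_union_left
  have j4 := h.sub (Z \ X1) (Z \ X2)
  have hd : Disjoint X1 X2 := by
    rw [disjoint_left]
    intro x hx hx'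
    exact (mem_filter.1 hx').2.2 (mem_filter.1 hx).2.2
  have e1 : Z \ X1 ∪ Z \ X2 = Z := by
    ext z
    simp only [mem_union, mem_sdiff]
    have h5 : z ∈ X1 → z ∉ X2 := fun h' => disjoint_left.1 hd h'
    clear * - h5
    tauto
  have e2 : Z \ X1 ∩ (Z \ X2) = J := by
    ext z
    simp only [hJ, mem_inter, mem_union, mem_sdiff]
    clear * -
    tauto
  rw [e1, e2] at j4
  have t1 := ht (Z \ X1) (sdiff_subset.trans hZE)
  have t2 := ht (Z \ X2) (sdiff_subset.trans hZE)
  have t3 := ht J hJE
  have p1 := hb (Z \ X1)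
  have p2 := hb (Z \ X2)
  have q1 := h1.a2
  have q2 := h1.a3
  omega

end Pool.Agent.FT56
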