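import Pool.Agent.FT56.Up2
import Pool.Agent.FT56.ShA

/-!
Principal extensions: strict systems of the principal truncation.

* `Qh` : the extended class function on the system `E3` of rank `f + 1`;
* `up_const` : it is constant on states (`share_a`, `share_d`);
* `jt_strict` : strict systems of the contraction by `e`.
-/

set_option autoImplicit false

namespace Pool.Agent.FT56

open Finset Pool.Agent.DT3 Pool.Agent.CF98

variable {α β : Type*} [DecidableEq α] [DecidableEq β]

section

variable {rx a b ax t : Finset β → ℕ} {E S : Finset β} {u1 u2 u3 : β} {f : ℕ} {Q : Finset β → Prop}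

theorem card_E3 (n1 : u1 ∉ E) (n2 : u2 ∉ E) (n3 : u3 ∉ E) (n12 : u1 ≠ u2) (n13 : u1 ≠ u3)
    (n23 : u2 ≠ u3) (hS : S ⊆ E3 E u1 u2 u3) :
    S.card = (S ∩ E).card + (if u1 ∈ S then 1 else 0) + (if u2 ∈ S then 1 else 0) +
      (if u3 ∈ S then 1 else 0) := by
  have h1 : S \ E = ({u1, u2, u3} : Finset β).filter fun z => z ∈ S := by
    ext z
    rw [mem_sdiff, mem_filter, mem_insert, mem_insert, mem_singleton]
    constructor
    · rintro ⟨h2, h3⟩
      refine ⟨?_, h2⟩
      rcases mem_E3.1 (hS h2) with h4 | h4 | h4 | h4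
      · exact Or.inl h4
      · exact Or.inr (Or.inl h4)
      · exact Or.inr (Or.inr h4)
      · exact absurd h4 h3
    · rintro ⟨h2, h3⟩
      refine ⟨h3, ?_⟩
      rcases h2 with h2 | h2 | h2
      · rw [h2]
        exact n1
      · rw [h2]
        exact n2
      · rw [h2]
        exact n3
  have h2 := card_inter_add_card_sdiff S E
  rw [h1, card_filter, sum_insert (by
    rw [mem_insert, mem_singleton]
    rintro (h' | h')
    · exact n12 h'
    · exact n13 h'), sum_insert (by
    rw [mem_singleton]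
    exact n23), sum_singleton] at h2
  omega

set_option linter.unusedSimpArgs false in
/-- The types of the blocks. -/
theorem up_ty (h : AB a b) (hbE : b E = f + 1) (hU : Up rx a b ax E u1 u2 u3)
    (hS : S ⊆ E3 E u1 u2 u3) (hb : Bs rx (f + 1) S) :
    ¬ (u1 ∈ S ∧ u2 ∈ S) ∧
    ((u1 ∈ S ∨ u2 ∈ S) → u3 ∉ S → (S ∩ E).card = f ∧ a (S ∩ E) = f ∧ f + 1 ≤ b (S ∩ E)) ∧
    ((u1 ∈ S ∨ u2 ∈ S) → u3 ∈ S → (S ∩ E).card + 1 = f ∧ a (S ∩ E) + 1 = f ∧ b (S ∩ E) = f + 1) ∧
    (¬ (u1 ∈ S ∨ u2 ∈ S) → u3 ∈ S → (S ∩ E).card = f ∧ a (S ∩ E) = f ∧ f + 1 ≤ b (S ∩ E)) ∧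
    (¬ (u1 ∈ S ∨ u2 ∈ S) → u3 ∉ S → (S ∩ E).card = f + 1 ∧ a (S ∩ E) = f + 1 ∧
      b (S ∩ E) = f + 1) := by
  have c1 := card_E3 hU.n1 hU.n2 hU.n3 hU.n12 hU.n13 hU.n23 hS
  have c2 := hb.1
  have c3 := hb.2
  have c4 := h.ra.le_card (S ∩ E)
  have c5 := hU.l1 (S ∩ E)
  have c6 := hU.l2 (S ∩ E)
  have c7 := hU.l3 (S ∩ E)
  have c8 := h.mono (S ∩ E) E inter_subset_right
  have c9 := h.le (S ∩ E)
  by_cases k1 : u1 ∈ S <;> by_cases k2 : u2 ∈ S <;> by_cases k3 : u3 ∈ S
  · have := hU.v123 S hS (Or.inl k1) k3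
    simp only [k1, k2, k3, if_true, if_false] at c1
    omega
  · have := hU.v12 S hS (Or.inl k1) k3
    simp only [k1, k2, k3, if_true, if_false] at c1
    omega
  · have := hU.v123 S hS (Or.inl k1) k3
    simp only [k1, k2, k3, if_true, if_false] at c1
    simp only [k1, k2, k3, not_true_eq_false, not_false_eq_true, true_or, or_true, or_false, false_or, false_implies,
      true_implies, and_true, and_false, true_and]
    omega
  · have := hU.v12 S hS (Or.inl k1) k3
    simp only [k1, k2, k3, if_true, if_false] at c1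
    simp only [k1, k2, k3, not_true_eq_false, not_false_eq_true, true_or, or_true, or_false, false_or, false_implies,
      true_implies, and_true, and_false, true_and]
    omega
  · have := hU.v123 S hS (Or.inr k2) k3
    simp only [k1, k2, k3, if_true, if_false] at c1
    simp only [k1, k2, k3, not_true_eq_false, not_false_eq_true, true_or, or_true, or_false, false_or, false_implies,
      true_implies, and_true, and_false, true_and, false_and]
    omega
  · have := hU.v12 S hS (Or.inr k2) k3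
    simp only [k1, k2, k3, if_true, if_false] at c1
    simp only [k1, k2, k3, not_true_eq_false, not_false_eq_true, true_or, or_true, or_false, false_or, false_implies,
      true_implies, and_true, and_false, true_and, false_and]
    omega
  · have := hU.v3 S hS k1 k2 k3
    simp only [k1, k2, k3, if_true, if_false] at c1
    simp only [k1, k2, k3, not_true_eq_false, not_false_eq_true, true_or, or_true, or_false, false_or, false_implies,
      true_implies, and_true, and_false, true_and, false_and]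
    omega
  · have := hU.v0 S hS k1 k2 k3
    simp only [k1, k2, k3, if_true, if_false] at c1
    simp only [k1, k2, k3, not_true_eq_false, not_false_eq_true, true_or, or_true, or_false, false_or, false_implies,
      true_implies, and_true, and_false, true_and, false_and]
    omega

open Classical in
/-- The extended class function. -/
def Qh (a b : Finset β → ℕ) (E : Finset β) (f : ℕ) (u1 u2 u3 : β) (Q : Finset β → Prop)
    (S : Finset β) : Prop :=
  if u1 ∈ S ∨ u2 ∈ S then (if u3 ∈ S then ∃ D B, Tri a b E f D B (S ∩ E) ∧ Q B else Q (S ∩ E))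
  else (if u3 ∈ S then Q (S ∩ E) else ∃ B A, Tri a b E f (S ∩ E) B A ∧ Q B)

theorem qh1 (h1 : u1 ∈ S ∨ u2 ∈ S) (h3 : u3 ∉ S) : Qh a b E f u1 u2 u3 Q S ↔ Q (S ∩ E) := by
  unfold Qh
  rw [if_pos h1, if_neg h3]

theorem qh2 (h1 : u1 ∈ S ∨ u2 ∈ S) (h3 : u3 ∈ S) : Qh a b E f u1 u2 u3 Q S ↔
    ∃ D B, Tri a b E f D B (S ∩ E) ∧ Q B := by
  unfold Qh
  rw [if_pos h1, if_pos h3]

theorem qh3 (h1 : ¬ (u1 ∈ S ∨ u2 ∈ S)) (h3 : u3 ∈ S) : Qh a b E f u1 u2 u3 Q S ↔ Q (S ∩ E) := by
  unfold Qh
  rw [if_neg h1, if_pos h3]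

theorem qh4 (h1 : ¬ (u1 ∈ S ∨ u2 ∈ S)) (h3 : u3 ∉ S) : Qh a b E f u1 u2 u3 Q S ↔
    ∃ B A, Tri a b E f (S ∩ E) B A ∧ Q B := by
  unfold Qh
  rw [if_neg h1, if_neg h3]

/-- A state of the second kind. -/
theorem up_b (h : AB a b) (hb1 : ∀ X, 1 ≤ b X) (ht : ∀ X ⊆ E, t X = min (a X) (b X - 1))
    (hEt : Env t E f) (hbE : b E = f + 1) (hU : Up rx a b ax E u1 u2 u3)
    (hQ : ∀ S S', Stp t E f S S' → Q S → Q S') {A B D : Finset β}
    (sA : A ⊆ E3 E u1 u2 u3) (sB : B ⊆ E3 E u1 u2 u3) (sD : D ⊆ E3 E u1 u2 u3)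
    (hA : Bs rx (f + 1) A) (hB : Bs rx (f + 1) B) (hD : Bs rx (f + 1) D)
    (dBA : Disjoint B A) (dDA : Disjoint D A) (dDB : Disjoint D B) (hc : ∀ z ∈ E, z ∈ D ∨ z ∈ B ∨ z ∈ A)
    (k1 : u1 ∈ A ∨ u2 ∈ A) (k2 : u3 ∈ A) (k3 : u1 ∈ B ∨ u2 ∈ B) (k4 : u3 ∉ B)
    (k5 : ¬ (u1 ∈ D ∨ u2 ∈ D)) (k6 : u3 ∉ D) :
    (Qh a b E f u1 u2 u3 Q A ↔ Q (B ∩ E)) ∧ (Qh a b E f u1 u2 u3 Q B ↔ Q (B ∩ E)) ∧
    (Qh a b E f u1 u2 u3 Q D ↔ Q (B ∩ E)) := by
  obtain ⟨a1, a2, a3⟩ := (up_ty h hbE hU sA hA).2.2.1 k1 k2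
  obtain ⟨b1, b2, b3⟩ := (up_ty h hbE hU sB hB).2.1 k3 k4
  obtain ⟨d1, d2, d3⟩ := (up_ty h hbE hU sD hD).2.2.2.2 k5 k6
  have hT : Tri a b E f (D ∩ E) (B ∩ E) (A ∩ E) := by
    refine ⟨dDB.mono inter_subset_left inter_subset_left, dDA.mono inter_subset_left inter_subset_left,
      dBA.mono inter_subset_left inter_subset_left, ?_, d1, d2, d3, b1, b2, b3, a1, a2, a3⟩
    ext z
    rw [mem_union, mem_union, mem_inter, mem_inter, mem_inter]
    constructor
    · rintro ((h1 | h1) | h1)
      · exact h1.2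
      · exact h1.2
      · exact h1.2
    · intro h1
      rcases hc z h1 with h2 | h2 | h2
      · exact Or.inl (Or.inl ⟨h2, h1⟩)
      · exact Or.inl (Or.inr ⟨h2, h1⟩)
      · exact Or.inr ⟨h2, h1⟩
  refine ⟨?_, qh1 k3 k4, ?_⟩
  · rw [qh2 k1 k2]
    constructor
    · rintro ⟨D', B', h1, h2⟩
      exact share_a h hb1 ht hEt hQ h1 hT h2
    · intro h1
      exact ⟨_, _, hT, h1⟩
  · rw [qh4 k5 k6]
    constructor
    · rintro ⟨B', A', h1, h2⟩
      exact share_d h hb1 ht hEt hQ h1 hT h2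
    · intro h1
      exact ⟨_, _, hT, h1⟩

/-- The extended class function is constant on states. -/
theorem up_const (h : AB a b) (hb1 : ∀ X, 1 ≤ b X) (ht : ∀ X ⊆ E, t X = min (a X) (b X - 1))
    (hEt : Env t E f) (hbE : b E = f + 1) (hU : Up rx a b ax E u1 u2 u3)
    (hQ : ∀ S S', Stp t E f S S' → Q S → Q S') {S : Fin 3 → Finset β}
    (hS : ∀ i, S i ⊆ E3 E u1 u2 u3) (hd : ∀ i j, i ≠ j → Disjoint (S i) (S j))
    (hc : ∀ z ∈ E3 E u1 u2 u3, ∃ i, z ∈ S i) (hb : ∀ i, Bs rx (f + 1) (S i)) (i j : Fin 3)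
    (hq : Qh a b E f u1 u2 u3 Q (S i)) : Qh a b E f u1 u2 u3 Q (S j) := by
  have hu : ∀ {i j z}, z ∈ S i → z ∈ S j → i = j := by
    intro i j z h1 h2
    by_contra hn
    exact disjoint_left.1 (hd i j hn) h1 h2
  obtain ⟨i1, h1⟩ := hc u1 (mem_E3.2 (Or.inl rfl))
  obtain ⟨i2, h2⟩ := hc u2 (mem_E3.2 (Or.inr (Or.inl rfl)))
  obtain ⟨i3, h3⟩ := hc u3 (mem_E3.2 (Or.inr (Or.inr (Or.inl rfl))))
  have h12 : i1 ≠ i2 := by
    rintro rfl
    exact (up_ty h hbE hU (hS i1) (hb i1)).1 ⟨h1, h2⟩
  obtain ⟨k, hk1, hk2, hall⟩ : ∃ k, k ≠ i1 ∧ k ≠ i2 ∧ ∀ l, l = i1 ∨ l = i2 ∨ l = k := by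
    clear * - h12
    revert i1 i2
    decide
  have hk : ¬ (u1 ∈ S k ∨ u2 ∈ S k) := by
    rintro (h' | h')
    · exact hk1 (hu h' h1)
    · exact hk2 (hu h' h2)
  have hcE : ∀ z ∈ E, z ∈ S i1 ∨ z ∈ S i2 ∨ z ∈ S k := by
    intro z hz
    obtain ⟨l, hl⟩ := hc z (mem_E3.2 (Or.inr (Or.inr (Or.inr hz))))
    rcases hall l with h' | h' | h'
    · rw [h'] at hl
      exact Or.inl hl
    · rw [h'] at hl
      exact Or.inr (Or.inl hl)
    · rw [h'] at hl
      exact Or.inr (Or.inr hl)
  suffices hv : ∃ v : Prop, ∀ l, Qh a b E f u1 u2 u3 Q (S l) ↔ v by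
    obtain ⟨v, hv⟩ := hv
    exact (hv j).2 ((hv i).1 hq)
  by_cases c1 : i3 = i1
  · subst c1
    have g := up_b h hb1 ht hEt hbE hU hQ (hS i3) (hS i2) (hS k) (hb i3) (hb i2) (hb k)
      (hd _ _ (Ne.symm h12)) (hd _ _ hk1) (hd _ _ hk2) (fun z hz => by
        rcases hcE z hz with h' | h' | h'
        · exact Or.inr (Or.inr h')
        · exact Or.inr (Or.inl h')
        · exact Or.inl h') (Or.inl h1) h3 (Or.inr h2) (fun h' => h12 (hu h3 h')) hk
      (fun h' => hk1 (hu h' h3))
    refine ⟨Q (S i2 ∩ E), fun l => ?_⟩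
    rcases hall l with h' | h' | h'
    · rw [h']
      exact g.1
    · rw [h']
      exact g.2.1
    · rw [h']
      exact g.2.2
  · by_cases c2 : i3 = i2
    · subst c2
      have g := up_b h hb1 ht hEt hbE hU hQ (hS i3) (hS i1) (hS k) (hb i3) (hb i1) (hb k)
        (hd _ _ h12) (hd _ _ hk2) (hd _ _ hk1) (fun z hz => by
          rcases hcE z hz with h' | h' | h'
          · exact Or.inr (Or.inl h')
          · exact Or.inr (Or.inr h')
          · exact Or.inl h') (Or.inr h2) h3 (Or.inl h1) (fun h' => h12 (hu h' h3)) hk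
        (fun h' => hk2 (hu h' h3))
      refine ⟨Q (S i1 ∩ E), fun l => ?_⟩
      rcases hall l with h' | h' | h'
      · rw [h']
        exact g.2.1
      · rw [h']
        exact g.1
      · rw [h']
        exact g.2.2
    · have c3 : i3 = k := by
        rcases hall i3 with h' | h' | h'
        · exact absurd h' c1
        · exact absurd h' c2
        · exact h'
      subst c3
      have e1 : ∀ l, Qh a b E f u1 u2 u3 Q (S l) ↔ Q (S l ∩ E) := by
        intro l
        rcases hall l with h' | h' | h'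
        · rw [h']
          exact qh1 (Or.inl h1) (fun h'' => hk1 (hu h3 h''))
        · rw [h']
          exact qh1 (Or.inr h2) (fun h'' => hk2 (hu h3 h''))
        · rw [h']
          exact qh3 hk h3
      have e2 : ∀ l, Bs t f (S l ∩ E) := by
        intro l
        have g : (S l ∩ E).card = f ∧ a (S l ∩ E) = f ∧ f + 1 ≤ b (S l ∩ E) := by
          rcases hall l with h' | h' | h'
          · rw [h']
            exact (up_ty h hbE hU (hS _) (hb _)).2.1 (Or.inl h1) (fun h'' => hk1 (hu h3 h''))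
          · rw [h']
            exact (up_ty h hbE hU (hS _) (hb _)).2.1 (Or.inr h2) (fun h'' => hk2 (hu h3 h''))
          · rw [h']
            exact (up_ty h hbE hU (hS _) (hb _)).2.2.2.1 hk h3
        refine ⟨g.1, ?_⟩
        rw [ht _ inter_subset_right]
        omega
      have e3 : ∀ l m, l ≠ m → Q (S l ∩ E) → Q (S m ∩ E) := by
        intro l m hlm
        obtain ⟨n, hn1, hn2, hn⟩ : ∃ k, k ≠ l ∧ k ≠ m ∧ ∀ p, p = l ∨ p = m ∨ p = k := by
          clear * - hlm
          revert l m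
          decide
        have e4 : E \ (S l ∩ E ∪ S m ∩ E) = S n ∩ E := by
          ext z
          rw [mem_sdiff, mem_union, mem_inter, mem_inter, mem_inter]
          constructor
          · rintro ⟨g1, g2⟩
            push Not at g2
            refine ⟨?_, g1⟩
            obtain ⟨p, hp⟩ := hc z (mem_E3.2 (Or.inr (Or.inr (Or.inr g1))))
            rcases hn p with h' | h' | h'
            · rw [h'] at hp
              exact absurd g1 (g2.1 hp)
            · rw [h'] at hp
              exact absurd g1 (g2.2 hp)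
            · rw [h'] at hp
              exact hp
          · rintro ⟨g1, g2⟩
            refine ⟨g2, ?_⟩
            rintro (g3 | g3)
            · exact hn1 (hu g1 g3.1)
            · exact hn2 (hu g1 g3.1)
        exact hQ _ _ (gd_stp hEt inter_subset_right (e2 l) inter_subset_right
          ((hd l m hlm).mono inter_subset_left inter_subset_left) (e2 m) (by rw [e4]; exact e2 n))
      refine ⟨Q (S i1 ∩ E), fun l => ?_⟩
      rw [e1]
      by_cases hl : l = i1
      · rw [hl]
      · exact ⟨e3 l i1 hl, e3 i1 l (Ne.symm hl)⟩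

end

/-- Strict systems of the principal truncation. -/
theorem jt_strict [Infinite β] {ρ ρ' : Finset α → ℕ} {e : α} {F : Finset α} (hP : PE ρ ρ' e F)
    (hK : KR β ρ) (h2 : ∀ (ψ : β → α) (I : Finset α) (E : Finset β) (f : ℕ), e ∉ I →
      Env (mkr ρ' ψ I) E f → (E.filter fun z => ψ z = e).card ≤ 2 → ConS (mkr ρ' ψ I) E f)
    (ψ : β → α) (I : Finset α) (E : Finset β) (f : ℕ) (he : e ∉ I) (hF : ρ (I ∪ F) ≠ ρ I)
    (hE : Env (mkr ρ' ψ (insert e I)) E f) (hs : Strict (mkr ρ' ψ (insert e I)) E) :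
    ConS (mkr ρ' ψ (insert e I)) E f := by
  classical
  have hne : ∀ z ∈ E, ψ z ≠ e := by
    intro z hz hze
    have h3 := hE.three {z} (singleton_subset_iff.2 hz)
    have h4 : mkr ρ' ψ (insert e I) {z} = 0 := by
      unfold mkr
      rw [image_singleton, hze, union_eq_right.2 (singleton_subset_iff.2 (mem_insert_self e I))]
      exact Nat.sub_self _
    rw [h4, card_singleton] at h3
    omega
  have hFl := hP.r1.mono I (I ∪ F) subset_union_left
  have hab := mk_ab hP.r1 ψ I F
  have hb : ∀ X, 1 ≤ mkb ρ ψ I F X := by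
    intro X
    have h3 := hP.r1.mono (I ∪ F) (X.image ψ ∪ I ∪ F) (union_subset_union_left subset_union_right)
    unfold mkb
    omega
  have ht : ∀ X ⊆ E, mkr ρ' ψ (insert e I) X = min (mkr ρ ψ I X) (mkb ρ ψ I F X - 1) := by
    intro X hX
    have h3 := hP.inn _ (notMem_img he (ψ := ψ) fun z hz => hne z (hX hz))
    have h4 := hP.inn I he
    have h5 := hP.r1.mono I (X.image ψ ∪ I) subset_union_right
    have h6 := hP.r1.mono (X.image ψ ∪ I) (X.image ψ ∪ I ∪ F) subset_union_left
    have h7 := hb X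
    unfold mkb at h7 ⊢
    unfold mkr
    rw [union_insert, h3, h4]
    omega
  by_cases haf : mkr ρ ψ I E = f
  · have h3 : ∀ Y ⊆ E, mkr ρ' ψ (insert e I) Y = mkr ρ ψ I Y := by
      intro Y hY
      have h4 := hab.dim Y E hY
      have h5 := ht E (Subset.refl E)
      have h6 := hE.rank
      have h7 := hab.ra.mono Y E hY
      rw [ht Y hY]
      omega
    exact con_congr (fun Y hY => (h3 Y hY).symm) (hK _ _ _ _ (env_congr h3 hab.ra hE))
  have h3 := ht E (Subset.refl E)
  have h4 := hE.rank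
  have h5 := hab.le E
  have haE : mkr ρ ψ I E = f + 1 := by omega
  have hbE : mkb ρ ψ I F E = f + 1 := by omega
  obtain ⟨u1, n1⟩ := Infinite.exists_notMem_finset E
  obtain ⟨u2, n2'⟩ := Infinite.exists_notMem_finset (insert u1 E)
  obtain ⟨u3, n3'⟩ := Infinite.exists_notMem_finset (insert u2 (insert u1 E))
  have n2 : u2 ∉ E := fun h' => n2' (mem_insert_of_mem h')
  have n3 : u3 ∉ E := fun h' => n3' (mem_insert_of_mem (mem_insert_of_mem h'))
  have n12 : u1 ≠ u2 := by
    rintro rfl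
    exact n2' (mem_insert_self _ _)
  have n13 : u1 ≠ u3 := by
    rintro rfl
    exact n3' (mem_insert_of_mem (mem_insert_self _ _))
  have n23 : u2 ≠ u3 := by
    rintro rfl
    exact n3' (mem_insert_self _ _)
  set φ := Function.update (Function.update ψ u1 e) u2 e with hφ
  have hφ1 : φ u1 = e := by
    rw [hφ, Function.update_of_ne n12, Function.update_self]
  have hφ2 : φ u2 = e := by
    rw [hφ, Function.update_self]
  have hφE : ∀ z ∈ E, φ z = ψ z := by
    intro z hz
    have g1 : z ≠ u1 := fun h' => n1 (h' ▸ hz)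
    have g2 : z ≠ u2 := fun h' => n2 (h' ▸ hz)
    rw [hφ, Function.update_of_ne g2, Function.update_of_ne g1]
  have hU : ∀ x ∈ F, ρ (insert x I) ≠ ρ I → Up (mkr ρ' (Function.update φ u3 x) I) (mkr ρ ψ I)
      (mkb ρ ψ I F) (fun Y => ρ (insert x (Y.image ψ ∪ I)) - ρ I) E u1 u2 u3 := fun x hx hxI =>
    up_x hP he hne n1 n2 n3 n12 n13 n23 hx hxI
  have hEx : ∀ x ∈ F, ρ (insert x I) ≠ ρ I →
      Env (mkr ρ' (Function.update φ u3 x) I) (E3 E u1 u2 u3) (f + 1) := fun x hx hxI =>
    up_env hab hb ht hE hs haE hbE (hU x hx hxI)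
  have hCx : ∀ x ∈ F, ρ (insert x I) ≠ ρ I →
      ConS (mkr ρ' (Function.update φ u3 x) I) (E3 E u1 u2 u3) (f + 1) := by
    intro x hx hxI
    refine h2 _ I _ _ he (hEx x hx hxI) ?_
    have hxe : x ≠ e := by
      rintro rfl
      exact hP.eF hx
    refine (card_le_card (t := {u1, u2}) ?_).trans card_le_two
    intro z hz
    rw [mem_filter] at hz
    rw [mem_insert, mem_singleton]
    rcases mem_E3.1 hz.1 with h' | h' | h' | h'
    · exact Or.inl h'
    · exact Or.inr h'
    · rw [h', Function.update_self] at hz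
      exact absurd hz.2 hxe
    · have g1 : z ≠ u3 := fun h'' => n3 (h'' ▸ h')
      rw [Function.update_of_ne g1, hφE z h'] at hz
      exact absurd hz.2 (hne z h')
  intro Q hQ P P' hP1 hP2 hq
  have hinv : ∀ x ∈ F, ρ (insert x I) ≠ ρ I → ∀ S S',
      Stp (mkr ρ' (Function.update φ u3 x) I) (E3 E u1 u2 u3) (f + 1) S S' →
      Qh (mkr ρ ψ I) (mkb ρ ψ I F) E f u1 u2 u3 Q S → Qh (mkr ρ ψ I) (mkb ρ ψ I F) E f u1 u2 u3 Q S' := by
    intro x hx hxI S S' hS hqS
    refine inv_of_state ?_ hS hqS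
    intro A C hA hC hd hbA hbC hbD hqA
    have hd' := disjoint_left.1 hd
    refine up_const (S := ![A, C, E3 E u1 u2 u3 \ (A ∪ C)]) hab hb ht hE hbE (hU x hx hxI) hQ ?_ ?_ ?_ ?_
      0 1 hqA
    · intro i
      fin_cases i
      · exact hA
      · exact hC
      · exact sdiff_subset
    · have dA : Disjoint A (E3 E u1 u2 u3 \ (A ∪ C)) := by
        rw [disjoint_left]
        intro z hz hz'
        exact (mem_sdiff.1 hz').2 (mem_union_left _ hz)
      have dC : Disjoint C (E3 E u1 u2 u3 \ (A ∪ C)) := by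
        rw [disjoint_left]
        intro z hz hz'
        exact (mem_sdiff.1 hz').2 (mem_union_right _ hz)
      intro i j hij
      fin_cases i <;> fin_cases j
      · exact absurd rfl hij
      · exact hd
      · exact dA
      · exact hd.symm
      · exact absurd rfl hij
      · exact dC
      · exact dA.symm
      · exact dC.symm
      · exact absurd rfl hij
    · intro z hz
      by_cases h6 : z ∈ A
      · exact ⟨0, h6⟩
      · by_cases h7 : z ∈ C
        · exact ⟨1, h7⟩
        · refine ⟨2, ?_⟩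
          show z ∈ E3 E u1 u2 u3 \ (A ∪ C)
          rw [mem_sdiff, mem_union]
          exact ⟨hz, fun h' => h'.elim h6 h7⟩
    · intro i
      fin_cases i
      · exact hbA
      · exact hbC
      · exact hbD
  have hg : ∀ P, Gd (mkr ρ' ψ (insert e I)) E f P → ∃ x ∈ F, ρ (insert x I) ≠ ρ I ∧
      Gd (mkr ρ' (Function.update φ u3 x) I) (E3 E u1 u2 u3) (f + 1) (insert u1 P) := by
    intro P hP3
    obtain ⟨C, hC, hd, hb1, hb2⟩ := gd_parts hE hP3
    have hd' := disjoint_left.1 hd
    have hpr : ∀ S ⊆ E, Bs (mkr ρ' ψ (insert e I)) f S → mkr ρ ψ I S = f ∧ f + 1 ≤ mkb ρ ψ I F S := by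
      intro S hS hbS
      have g1 := ht S hS
      rw [hbS.2] at g1
      have g2 := hab.ra.le_card S
      rw [hbS.1] at g2
      have g3 := hb S
      omega
    have hR := hpr _ sdiff_subset hb2
    have h6 : ∃ x ∈ F, ρ (insert x ((E \ (P ∪ C)).image ψ ∪ I)) ≠ ρ ((E \ (P ∪ C)).image ψ ∪ I) := by
      by_contra hn
      push Not at hn
      have h7 := rank_union hP.r1 hn
      have h8 := hR.1
      have h9 := hR.2
      unfold mkr at h8
      unfold mkb at h9
      rw [h7] at h9
      omega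
    obtain ⟨x, hx, hx'⟩ := h6
    have h8 : ρ (insert x I) ≠ ρ I := fun h' => hx' (ins_mono hP.r1 subset_union_right h')
    refine ⟨x, hx, h8, ?_⟩
    have hUx := hU x hx h8
    have hPE := hP3.1
    have hEE : ∀ {z}, z ∈ E → z ∈ E3 E u1 u2 u3 := fun h' => mem_E3.2 (Or.inr (Or.inr (Or.inr h')))
    have u1E : u1 ∈ E3 E u1 u2 u3 := mem_E3.2 (Or.inl rfl)
    have u2E : u2 ∈ E3 E u1 u2 u3 := mem_E3.2 (Or.inr (Or.inl rfl))
    have u3E : u3 ∈ E3 E u1 u2 u3 := mem_E3.2 (Or.inr (Or.inr (Or.inl rfl)))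
    have s1 : insert u1 P ⊆ E3 E u1 u2 u3 := insert_subset u1E fun z hz => hEE (hPE hz)
    have s2 : insert u2 C ⊆ E3 E u1 u2 u3 := insert_subset u2E fun z hz => hEE (hC hz)
    have s3 : insert u3 (E \ (P ∪ C)) ⊆ E3 E u1 u2 u3 :=
      insert_subset u3E fun z hz => hEE (sdiff_subset hz)
    have hint : ∀ w S, w ∉ E → S ⊆ E → insert w S ∩ E = S := by
      intro w S hw hS
      rw [insert_inter_of_notMem hw, inter_eq_left.2 hS]
    have p1 := hpr P hPE hP3.2.1
    have p2 := hpr C hC hb1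
    have b1 : Bs (mkr ρ' (Function.update φ u3 x) I) (f + 1) (insert u1 P) := by
      refine ⟨by rw [card_insert_of_notMem fun h' => n1 (hPE h'), hP3.2.1.1], ?_⟩
      rw [hUx.v12 _ s1 (Or.inl (mem_insert_self _ _)) (by
        rw [mem_insert]
        rintro (h' | h')
        · exact n13 h'.symm
        · exact n3 (hPE h')), hint _ _ n1 hPE]
      omega
    have b2 : Bs (mkr ρ' (Function.update φ u3 x) I) (f + 1) (insert u2 C) := by
      refine ⟨by rw [card_insert_of_notMem fun h' => n2 (hC h'), hb1.1], ?_⟩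
      rw [hUx.v12 _ s2 (Or.inr (mem_insert_self _ _)) (by
        rw [mem_insert]
        rintro (h' | h')
        · exact n23 h'.symm
        · exact n3 (hC h')), hint _ _ n2 hC]
      omega
    have b3 : Bs (mkr ρ' (Function.update φ u3 x) I) (f + 1) (insert u3 (E \ (P ∪ C))) := by
      refine ⟨by rw [card_insert_of_notMem fun h' => n3 (sdiff_subset h'), hb2.1], ?_⟩
      rw [hUx.v3 _ s3 (by
        rw [mem_insert]
        rintro (h' | h')
        · exact n13 h'
        · exact n1 (sdiff_subset h')) (by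
        rw [mem_insert]
        rintro (h' | h')
        · exact n23 h'
        · exact n2 (sdiff_subset h')) (mem_insert_self _ _), hint _ _ n3 sdiff_subset]
      show ρ (insert x ((E \ (P ∪ C)).image ψ ∪ I)) - ρ I = f + 1
      rw [ins_eq hP.r1 hx']
      have h9 := hR.1
      have h10 := hP.r1.mono I ((E \ (P ∪ C)).image ψ ∪ I) subset_union_right
      unfold mkr at h9
      omega
    refine gd_of_parts (hEx x hx h8) s1 b1 s2 ?_ b2 ?_
    · rw [disjoint_left]
      intro z hz hz'
      rcases mem_insert.1 hz with h9 | h9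
      · rcases mem_insert.1 hz' with h10 | h10
        · exact n12 (h9.symm.trans h10)
        · exact n1 (h9 ▸ hC h10)
      · rcases mem_insert.1 hz' with h10 | h10
        · exact n2 (h10 ▸ hPE h9)
        · exact hd' h9 h10
    · have e1 : E3 E u1 u2 u3 \ (insert u1 P ∪ insert u2 C) = insert u3 (E \ (P ∪ C)) := by
        ext z
        rw [mem_sdiff, mem_E3, mem_union, mem_insert, mem_insert, mem_insert, mem_sdiff, mem_union]
        constructor
        · rintro ⟨h9, h10⟩
          push Not at h10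
          obtain ⟨⟨g1, g2⟩, g3, g4⟩ := h10
          rcases h9 with h9 | h9 | h9 | h9
          · exact absurd h9 g1
          · exact absurd h9 g3
          · exact Or.inl h9
          · exact Or.inr ⟨h9, fun h' => h'.elim g2 g4⟩
        · rintro (h9 | h9)
          · rw [h9]
            refine ⟨Or.inr (Or.inr (Or.inl rfl)), ?_⟩
            rintro ((h' | h') | (h' | h'))
            · exact n13 h'.symm
            · exact n3 (hPE h')
            · exact n23 h'.symm
            · exact n3 (hC h')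
          · refine ⟨Or.inr (Or.inr (Or.inr h9.1)), ?_⟩
            rintro ((h' | h') | (h' | h'))
            · exact n1 (h' ▸ h9.1)
            · exact h9.2 (Or.inl h')
            · exact n2 (h' ▸ h9.1)
            · exact h9.2 (Or.inr h')
      rw [e1]
      exact b3
  have hqq : ∀ P ⊆ E, (Qh (mkr ρ ψ I) (mkb ρ ψ I F) E f u1 u2 u3 Q (insert u1 P) ↔ Q P) := by
    intro P hPE
    have g1 : insert u1 P ∩ E = P := by
      rw [insert_inter_of_notMem n1, inter_eq_left.2 hPE]
    rw [qh1 (Or.inl (mem_insert_self _ _)) (by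
      rw [mem_insert]
      rintro (h' | h')
      · exact n13 h'.symm
      · exact n3 (hPE h')), g1]
  obtain ⟨x, hx, hxI, hPx⟩ := hg P hP1
  obtain ⟨y, hy, hyI, hPy⟩ := hg P' hP2
  have u3E : u3 ∈ E3 E u1 u2 u3 := mem_E3.2 (Or.inr (Or.inr (Or.inl rfl)))
  have hxy : ρ' (insert y (insert x (((E3 E u1 u2 u3).erase u3).image φ ∪ I))) - ρ' I = f + 1 := by
    have g1 := hP.r2.mono (insert y (insert x (((E3 E u1 u2 u3).erase u3).image φ ∪ I)))
      (insert e (E.image ψ ∪ I ∪ F)) (by
      intro z hz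
      rw [mem_insert, mem_union, mem_union]
      rcases mem_insert.1 hz with rfl | hz
      · exact Or.inr (Or.inr hy)
      · rcases mem_insert.1 hz with rfl | hz
        · exact Or.inr (Or.inr hx)
        · rcases mem_union.1 hz with hz | hz
          · obtain ⟨w, hw, rfl⟩ := mem_image.1 hz
            have hw' := mem_erase.1 hw
            rcases mem_E3.1 hw'.2 with h' | h' | h' | h'
            · rw [h']
              exact Or.inl hφ1
            · rw [h']
              exact Or.inl hφ2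
            · exact absurd h' hw'.1
            · rw [hφE w h']
              exact Or.inr (Or.inl (Or.inl (mem_image_of_mem _ h')))
          · exact Or.inr (Or.inl (Or.inr hz)))
    have g2 : e ∉ E.image ψ ∪ I ∪ F := by
      rw [mem_union]
      rintro (h' | h')
      · exact notMem_img he hne h'
      · exact hP.eF h'
    rw [hP.inn _ g2, union_assoc (E.image ψ ∪ I), union_self] at g1
    have g3 := hP.r2.mono (E.image ψ ∪ I)
      (insert y (insert x (((E3 E u1 u2 u3).erase u3).image φ ∪ I))) (by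
      intro z hz
      rw [mem_insert, mem_insert, mem_union]
      rcases mem_union.1 hz with hz | hz
      · obtain ⟨w, hw, rfl⟩ := mem_image.1 hz
        refine Or.inr (Or.inr (Or.inl ?_))
        rw [← hφE w hw]
        refine mem_image_of_mem _ (mem_erase.2 ⟨fun h' => n3 (h' ▸ hw), ?_⟩)
        exact mem_E3.2 (Or.inr (Or.inr (Or.inr hw)))
      · exact Or.inr (Or.inr (Or.inr hz)))
    rw [hP.out _ (notMem_img he hne)] at g3
    have g4 := haE
    have g5 := hbE
    unfold mkr at g4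
    unfold mkb at g5
    rw [hP.out _ he]
    omega
  obtain ⟨T, -, hTx, hTy⟩ := link_xy hP.r2 u3E (hEx x hx hxI) (hEx y hy hyI) hxy
  have q1 := hCx x hx hxI _ (hinv x hx hxI) _ T hPx hTx ((hqq P hP1.1).2 hq)
  have q2 := hCx y hy hyI _ (hinv y hy hyI) T _ hTy hPy q1
  exact (hqq P' hP2.1).1 q2

end Pool.Agent.FT56
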