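import Pool.Agent.DT3.Link
import Pool.Agent.EX18.QDefs

/-!
The rank function of the principal extension of a finite matroid by a point `e` on a set `F`.
-/

set_option autoImplicit false

namespace Pool.Agent.FT56

open Pool.Agent.DT3

variable {α : Type*}

private theorem pr_coe (M : Matroid α) (Y : Finset α) :
    ((rkFn M Y : ℕ) : ℕ∞) = M.eRk (Y : Set α) := by
  unfold rkFn
  apply ENat.natCast_toNat
  have h1 := M.eRk_le_encard (Y : Set α)
  have h2 : (Y : Set α).encard ≠ ⊤ := by
    rw [Set.encard_ne_top_iff]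
    exact Y.finite_toSet
  exact ne_top_of_le_ne_top h2 h1

section

variable {M M' : Matroid α} {e : α} {F : Set α}

theorem prExt_indep (he : e ∉ M.E)
    (h : ∀ B : Set α, M'.IsBase B ↔ (e ∉ B ∧ M.IsBase B) ∨
      (e ∈ B ∧ ∃ x ∈ F, x ∉ B ∧ M.IsBase (insert x (B \ {e})))) {I : Set α} (hI : e ∉ I) :
    M'.Indep I ↔ M.Indep I := by
  constructor
  · intro h1
    obtain ⟨B, hB, hIB⟩ := h1.exists_isBase_superset
    rcases (h B).1 hB with ⟨_, h3⟩ | ⟨_, x, _, _, h3⟩
    · exact h3.indep.subset hIB
    · refine h3.indep.subset fun y hy => Or.inr ⟨hIB hy, ?_⟩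
      rintro rfl
      exact hI hy
  · intro h1
    obtain ⟨B, hB, hIB⟩ := h1.exists_isBase_superset
    have h2 : M'.IsBase B := (h B).2 (Or.inl ⟨fun h3 => he (hB.subset_ground h3), hB⟩)
    exact h2.indep.subset hIB

theorem prExt_insert (he : e ∉ M.E) (hF : F ⊆ M.E)
    (h : ∀ B : Set α, M'.IsBase B ↔ (e ∉ B ∧ M.IsBase B) ∨
      (e ∈ B ∧ ∃ x ∈ F, x ∉ B ∧ M.IsBase (insert x (B \ {e})))) {I : Set α} (hI : e ∉ I) :
    M'.Indep (insert e I) ↔ M.Indep I ∧ ¬ F ⊆ M.closure I := by
  constructor
  · intro h1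
    obtain ⟨B, hB, hIB⟩ := h1.exists_isBase_superset
    have heB : e ∈ B := hIB (Set.mem_insert e I)
    rcases (h B).1 hB with ⟨h3, _⟩ | ⟨_, x, hx, hxB, h3⟩
    · exact absurd heB h3
    · have hIB' : I ⊆ B \ {e} := fun y hy => ⟨hIB (Set.mem_insert_of_mem _ hy), by
        rintro rfl
        exact hI hy⟩
      have h4 : M.Indep (B \ {e}) := h3.indep.subset (Set.subset_insert _ _)
      refine ⟨h4.subset hIB', fun hs => ?_⟩
      have hx' : x ∉ B \ {e} := fun h5 => hxB h5.1
      have h6 := (h4.insert_indep_iff_of_notMem hx').1 h3.indep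
      exact h6.2 (M.closure_subset_closure hIB' (hs hx))
  · rintro ⟨h1, h2⟩
    obtain ⟨x, hx, hxI⟩ := Set.not_subset.1 h2
    have hxI' : x ∉ I := fun h3 => hxI (M.mem_closure_of_mem h3 h1.subset_ground)
    have h3 : M.Indep (insert x I) := (h1.insert_indep_iff_of_notMem hxI').2 ⟨hF hx, hxI⟩
    obtain ⟨B, hB, hIB⟩ := h3.exists_isBase_superset
    have heB : e ∉ B := fun h4 => he (hB.subset_ground h4)
    have hxB : x ∈ B := hIB (Set.mem_insert x I)
    have hex : x ≠ e := by
      rintro rfl
      exact he (hF hx)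
    have h4 : M'.IsBase (insert e (B \ {x})) := by
      rw [h]
      right
      refine ⟨Set.mem_insert _ _, x, hx, ?_, ?_⟩
      · rintro (h5 | h5)
        · exact hex h5
        · exact h5.2 rfl
      · have h6 : insert x (insert e (B \ {x}) \ {e}) = B := by
          ext y
          simp only [Set.mem_insert_iff, Set.mem_sdiff, Set.mem_singleton_iff]
          constructor
          · rintro (rfl | ⟨rfl | ⟨h7, _⟩, h8⟩)
            · exact hxB
            · exact absurd rfl h8
            · exact h7
          · intro hy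
            by_cases hyx : y = x
            · exact Or.inl hyx
            · refine Or.inr ⟨Or.inr ⟨hy, hyx⟩, ?_⟩
              rintro rfl
              exact heB hy
        rw [h6]
        exact hB
    refine h4.indep.subset ?_
    rintro y (rfl | hy)
    · exact Set.mem_insert _ _
    · refine Set.mem_insert_of_mem _ ⟨hIB (Set.mem_insert_of_mem _ hy), ?_⟩
      rintro rfl
      exact hxI' hy

/-- The rank function of the principal extension. -/
theorem prExt_rk [DecidableEq α] [M.Finite] (he : e ∉ M.E) {F' : Finset α} (hF : (F' : Set α) ⊆ M.E)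
    (h : ∀ B : Set α, M'.IsBase B ↔ (e ∉ B ∧ M.IsBase B) ∨
      (e ∈ B ∧ ∃ x ∈ (F' : Set α), x ∉ B ∧ M.IsBase (insert x (B \ {e}))))
    (X : Finset α) (hX : e ∉ X) :
    rkFn M' X = rkFn M X ∧ rkFn M' (insert e X) = min (rkFn M X + 1) (rkFn M (X ∪ F')) := by
  have heX : e ∉ (X : Set α) := fun h1 => hX (Finset.mem_coe.1 h1)
  have hr := rkFn_rank M
  have hr' := rkFn_rank M'
  obtain ⟨I, hI⟩ := M.exists_isBasis' (X : Set α)
  have heI : e ∉ I := fun h1 => heX (hI.subset h1)
  have hI' : M'.IsBasis' I (X : Set α) := by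
    rw [Matroid.isBasis'_iff_isBasis_inter_ground, Matroid.isBasis_iff']
    refine ⟨⟨(prExt_indep he h heI).2 hI.indep, ?_, ?_⟩, Set.inter_subset_right⟩
    · exact Set.subset_inter hI.subset ((prExt_indep he h heI).2 hI.indep).subset_ground
    · intro J hJ hIJ hJX
      have heJ : e ∉ J := fun h1 => heX (hJX h1).1
      exact hI.eq_of_subset_indep ((prExt_indep he h heJ).1 hJ) hIJ
        (hJX.trans Set.inter_subset_left)
  have h1 : rkFn M' X = rkFn M X := by
    have h2 : ((rkFn M' X : ℕ) : ℕ∞) = (rkFn M X : ℕ) := by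
      rw [pr_coe, pr_coe, hI'.eRk_eq_encard, hI.eRk_eq_encard]
    exact_mod_cast h2
  refine ⟨h1, ?_⟩
  have hIf : I.Finite := X.finite_toSet.subset hI.subset
  by_cases hc : (F' : Set α) ⊆ M.closure I
  · -- `e` is in the closure of `X`
    have h2 : rkFn M (X ∪ F') = rkFn M X := by
      have h3 : ((rkFn M (X ∪ F') : ℕ) : ℕ∞) = (rkFn M X : ℕ) := by
        rw [pr_coe, pr_coe]
        apply le_antisymm
        · rw [← M.eRk_closure_eq (X : Set α), Finset.coe_union, ← M.eRk_inter_ground]
          apply M.eRk_mono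
          rintro y ⟨hy | hy, hyE⟩
          · exact M.mem_closure_of_mem' hy hyE
          · rw [← hI.closure_eq_closure]
            exact hc hy
        · exact M.eRk_mono (Finset.coe_subset.2 Finset.subset_union_left)
      exact_mod_cast h3
    have h3 : rkFn M' (insert e X) = rkFn M' X := by
      have h4 : ((rkFn M' (insert e X) : ℕ) : ℕ∞) = (rkFn M' X : ℕ) := by
        rw [pr_coe, pr_coe, Finset.coe_insert]
        apply le_antisymm
        · have h5 : M'.IsBasis' I (insert e (X : Set α)) := by
            rw [Matroid.isBasis'_iff_isBasis_inter_ground, Matroid.isBasis_iff']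
            refine ⟨⟨(prExt_indep he h heI).2 hI.indep, ?_, ?_⟩, Set.inter_subset_right⟩
            · exact Set.subset_inter (hI.subset.trans (Set.subset_insert _ _))
                ((prExt_indep he h heI).2 hI.indep).subset_ground
            · intro J hJ hIJ hJX
              by_cases heJ : e ∈ J
              · exfalso
                have h6 : M'.Indep (insert e I) := hJ.subset (Set.insert_subset heJ hIJ)
                exact ((prExt_insert he hF h heI).1 h6).2 hc
              · refine hI.eq_of_subset_indep ((prExt_indep he h heJ).1 hJ) hIJ ?_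
                intro y hy
                rcases (hJX hy).1 with h7 | h7
                · exact absurd (h7 ▸ hy) heJ
                · exact h7
          rw [h5.eRk_eq_encard, hI'.eRk_eq_encard]
        · exact M'.eRk_mono (Set.subset_insert _ _)
      exact_mod_cast h4
    rw [h3, h1, h2]
    omega
  · -- `e` is not in the closure of `X`
    have h2 : rkFn M X + 1 ≤ rkFn M (X ∪ F') := by
      obtain ⟨x, hx, hxI⟩ := Set.not_subset.1 hc
      have hxI' : x ∉ I := fun h3 => hxI (M.mem_closure_of_mem h3 hI.indep.subset_ground)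
      have h3 : M.Indep (insert x I) :=
        (hI.indep.insert_indep_iff_of_notMem hxI').2 ⟨hF hx, hxI⟩
      have h4 : ((rkFn M X + 1 : ℕ) : ℕ∞) ≤ (rkFn M (X ∪ F') : ℕ) := by
        push_cast
        rw [pr_coe, pr_coe, hI.eRk_eq_encard, ← Set.encard_insert_of_notMem hxI']
        apply h3.encard_le_eRk_of_subset
        rw [Finset.coe_union]
        exact Set.insert_subset (Or.inr hx) (hI.subset.trans Set.subset_union_left)
      exact_mod_cast h4
    have h3 : rkFn M X + 1 ≤ rkFn M' (insert e X) := by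
      have h4 : M'.Indep (insert e I) := (prExt_insert he hF h heI).2 ⟨hI.indep, hc⟩
      have h5 : ((rkFn M X + 1 : ℕ) : ℕ∞) ≤ (rkFn M' (insert e X) : ℕ) := by
        push_cast
        rw [pr_coe, pr_coe, hI.eRk_eq_encard, ← Set.encard_insert_of_notMem heI]
        apply h4.encard_le_eRk_of_subset
        rw [Finset.coe_insert]
        exact Set.insert_subset_insert hI.subset
      exact_mod_cast h5
    have h4 := hr'.insert_le e X
    omega

/-- The base condition of `IsPrincExt` in terms of exchanges. -/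
theorem prExt_raw {G : Set α} [M.Finite] (h : EX18.IsPrincExt M' M G e) (B : Set α) :
    M'.IsBase B ↔ (e ∉ B ∧ M.IsBase B) ∨
      (e ∈ B ∧ ∃ x ∈ G, x ∉ B ∧ M.IsBase (insert x (B \ {e}))) := by
  obtain ⟨hG, he, -, hb⟩ := h
  rw [hb B]
  refine or_congr_right (and_congr_right fun heB => ?_)
  have hB : B.encard = (B \ {e}).encard + 1 := by
    rw [Set.encard_sdiff_singleton_add_one heB]
  constructor
  · rintro ⟨h1, h2, h3⟩
    obtain ⟨x, hx, hxc⟩ := Set.not_subset.1 h3
    have hx' : x ∉ B \ {e} := fun h4 => hxc (M.mem_closure_of_mem h4 h1.subset_ground)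
    have hxe : x ≠ e := by
      rintro rfl
      exact he (hG hx)
    refine ⟨x, hx, fun h4 => hx' ⟨h4, hxe⟩, ?_⟩
    have h5 : M.Indep (insert x (B \ {e})) :=
      (h1.insert_indep_iff_of_notMem hx').2 ⟨hG hx, hxc⟩
    have h6 : (insert x (B \ {e})).Finite := M.ground_finite.subset h5.subset_ground
    refine h5.isBase_of_eRk_ge h6 ?_
    rw [h5.eRk_eq_encard, Set.encard_insert_of_notMem hx', ← hB, h2]
  · rintro ⟨x, hx, hxB, h1⟩
    have hx' : x ∉ B \ {e} := fun h4 => hxB h4.1
    have h2 : M.Indep (B \ {e}) := h1.indep.subset (Set.subset_insert _ _)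
    refine ⟨h2, ?_, fun h3 => ?_⟩
    · rw [hB, ← Set.encard_insert_of_notMem hx', h1.encard_eq_eRank]
    · exact ((h2.insert_indep_iff_of_notMem hx').1 h1.indep).2 (h3 hx)

/-- The rank function of the principal extension. -/
theorem princ_rk [DecidableEq α] {G : Set α} [M.Finite] (h : EX18.IsPrincExt M' M G e)
    {F : Finset α} (hF : (F : Set α) = G) {X : Finset α} (hX : e ∉ X) :
    rkFn M' X = rkFn M X ∧ rkFn M' (insert e X) = min (rkFn M X + 1) (rkFn M (X ∪ F)) := by
  subst hF
  exact prExt_rk h.2.1 h.1 (prExt_raw h) X hX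

/-- The rank of the principal extension. -/
theorem princ_rank {G : Set α} (h : EX18.IsPrincExt M' M G e) : M'.eRank = M.eRank := by
  obtain ⟨-, he, -, hb⟩ := h
  obtain ⟨B, hB⟩ := M.exists_isBase
  have h1 : M'.IsBase B := (hb B).2 (Or.inl ⟨fun h2 => he (hB.subset_ground h2), hB⟩)
  rw [← h1.encard_eq_eRank, hB.encard_eq_eRank]

end

end Pool.Agent.FT56
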