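import Pool.Agent.FT56.Main
import Pool.Agent.FT56.PRank
import Pool.Agent.FT56.Fib
import Pool.Agent.FT56.J1
import Pool.Agent.FT56.J2
import Pool.Agent.FT56.JT

/-!
The connectivity of triples of bases is inherited by principal extensions.
-/

set_option autoImplicit false

namespace Pool.Agent.FT56

open Finset Pool.Agent.DT3 Pool.Agent.CF98 Pool.Agent.WD Pool.Agent.EX91

variable {α : Type*} [DecidableEq α]

/-- PRINCIPAL EXTENSIONS: if `M'` is the principal extension of `M` by `e` along `G` then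
`TConn M → TConn M'`. -/
theorem tconn_princExt {α : Type*} [DecidableEq α] (M' M : Matroid α) [M.Finite] (G : Set α)
    (e : α) (h : EX18.IsPrincExt M' M G e) (hM : TConn M) : TConn M' := by
  classical
  have hGfin : G.Finite := M.ground_finite.subset h.1
  have hF : (hGfin.toFinset : Set α) = G := hGfin.coe_toFinset
  have hP : PE (rkFn M) (rkFn M') e hGfin.toFinset := by
    refine ⟨rkFn_rank M, rkFn_rank M', ?_, fun X hX => (princ_rk h hF hX).1,
      fun X hX => (princ_rk h hF hX).2⟩
    intro he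
    exact h.2.1 (h.1 (hGfin.mem_toFinset.1 he))
  obtain ⟨g, hg⟩ : ∃ g : ℕ, M.eRank = (g : ℕ∞) := by
    obtain ⟨B, hB⟩ := M.exists_isBase
    have hBfin : B.Finite := M.ground_finite.subset hB.subset_ground
    exact ⟨B.ncard, by rw [← hB.encard_eq_eRank, hBfin.cast_ncard_eq]⟩
  have hne : Nonempty α := ⟨e⟩
  have hinf : Infinite (α × ℕ) := inferInstance
  have hK : KR (α × ℕ) (rkFn M) := fun ψ I E f hE => Pool.Agent.FT56.G.con_of_tconn (ψ := ψ) hg hM I E hE
  have h1 := fib_e hP hK 1 (by norm_num) (fun ψ I E f he hE hs hu hj =>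
    j1_strict hP hK ψ I E f he hE hs hu hj)
  have h2 := fib_e hP hK 2 le_rfl (fun ψ I E f he hE hs _ hj =>
    j2_strict hP h1 ψ I E f he hE hs hj)
  have ht := fib_t hP hK (fun ψ I E f he hF hE hs => jt_strict hP hK h2 ψ I E f he hF hE hs)
  have hall := fib_all hP h2 ht
  refine tconn_of_con fun E f hE => ?_
  have e0 : rkFn M' ∅ = 0 := (rkFn_rank M').empty
  have e1 : ∀ Y ⊆ E, rr M' Y = mkr (rkFn M') Prod.fst ∅ Y := by
    intro Y _
    show rkFn M' (Y.image Prod.fst) = rkFn M' (Y.image Prod.fst ∪ ∅) - rkFn M' ∅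
    rw [union_empty, e0, Nat.sub_zero]
  exact con_congr (fun Y hY => (e1 Y hY).symm)
    (hall Prod.fst E f (env_congr e1 (mkr_rank (rkFn_rank M') _ _) hE))

end Pool.Agent.FT56
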