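import Pool.Agent.FT56.Star
import Pool.Agent.FT56.OfG

/-!
Principal extensions: rank functions.

* `mkr ρ ψ I` : the rank function of the contraction by `I`, pulled back along `ψ`.
* `PE ρ ρ' e F` : `ρ'` is the extension of `ρ` by `e` along `F`.
* `AB a b` : `a X` is a rank function and `b X` is the rank of `X` together with the set `F`.
* `cF a b C` : the smallest subset of the independent set `C` which spans `F`.
-/

set_option autoImplicit false

namespace Pool.Agent.FT56

open Finset Pool.Agent.DT3 Pool.Agent.CF98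

variable {α β : Type*} [DecidableEq α] [DecidableEq β]

/-- The rank function of the contraction by `I`, pulled back along `ψ`. -/
def mkr (ρ : Finset α → ℕ) (ψ : β → α) (I : Finset α) (X : Finset β) : ℕ := ρ (X.image ψ ∪ I) - ρ I

/-- `ρ'` is the extension of `ρ` by `e` along `F`. -/
structure PE (ρ ρ' : Finset α → ℕ) (e : α) (F : Finset α) : Prop where
  r1 : RankFn ρ
  r2 : RankFn ρ'
  eF : e ∉ F
  out : ∀ X, e ∉ X → ρ' X = ρ X
  inn : ∀ X, e ∉ X → ρ' (insert e X) = min (ρ X + 1) (ρ (X ∪ F))

/-- `a` is a rank function, `b X` is the rank of `X` together with a fixed set. -/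
structure AB (a b : Finset β → ℕ) : Prop where
  ra : RankFn a
  le : ∀ X, a X ≤ b X
  mono : ∀ X Y, X ⊆ Y → b X ≤ b Y
  sub : ∀ X Y, b (X ∪ Y) + b (X ∩ Y) ≤ b X + b Y
  dim : ∀ X Y, X ⊆ Y → b Y + a X ≤ b X + a Y

theorem mkr_rank {ρ : Finset α → ℕ} (h : RankFn ρ) (ψ : β → α) (I : Finset α) :
    RankFn (mkr ρ ψ I) := rk_img (contr_rank h I) ψ

/-- The function `b`. -/
def mkb (ρ : Finset α → ℕ) (ψ : β → α) (I F : Finset α) (X : Finset β) : ℕ :=
  ρ (X.image ψ ∪ I ∪ F) - ρ I

theorem mk_ab {ρ : Finset α → ℕ} (h : RankFn ρ) (ψ : β → α) (I F : Finset α) :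
    AB (mkr ρ ψ I) (mkb ρ ψ I F) := by
  have g1 : ∀ X : Finset β, ρ I ≤ ρ (X.image ψ ∪ I) := fun X => h.mono _ _ subset_union_right
  have g2 : ∀ X : Finset β, ρ (X.image ψ ∪ I) ≤ ρ (X.image ψ ∪ I ∪ F) :=
    fun X => h.mono _ _ subset_union_left
  refine ⟨mkr_rank h ψ I, ?_, ?_, ?_, ?_⟩
  · intro X
    exact Nat.sub_le_sub_right (g2 X) _
  · intro X Y hXY
    exact Nat.sub_le_sub_right (h.mono _ _ (union_subset_union_left
      (union_subset_union_left (image_subset_image hXY)))) _
  · intro X Y
    have h1 := h.submod (X.image ψ ∪ I ∪ F) (Y.image ψ ∪ I ∪ F)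
    have h2 : X.image ψ ∪ I ∪ F ∪ (Y.image ψ ∪ I ∪ F) = (X ∪ Y).image ψ ∪ I ∪ F := by
      rw [image_union]
      ext z
      simp only [mem_union]
      tauto
    have h3 := h.mono ((X ∩ Y).image ψ ∪ I ∪ F) ((X.image ψ ∪ I ∪ F) ∩ (Y.image ψ ∪ I ∪ F)) (by
      intro z hz
      have h4 := image_inter_subset ψ X Y
      simp only [mem_union, mem_inter] at hz ⊢
      have h5 := @h4 z
      rw [mem_inter] at h5
      tauto)
    rw [h2] at h1
    have := g1 X
    have := g1 Y
    have := g1 (X ∩ Y)
    have := g1 (X ∪ Y)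
    have := g2 X
    have := g2 Y
    have := g2 (X ∩ Y)
    have := g2 (X ∪ Y)
    unfold mkb
    omega
  · intro X Y hXY
    have h1 := h.submod (X.image ψ ∪ I ∪ F) (Y.image ψ ∪ I)
    have h2 : X.image ψ ∪ I ∪ F ∪ (Y.image ψ ∪ I) = Y.image ψ ∪ I ∪ F := by
      have h5 := image_subset_image (f := ψ) hXY
      ext z
      have := @h5 z
      simp only [mem_union]
      tauto
    have h3 := h.mono (X.image ψ ∪ I) ((X.image ψ ∪ I ∪ F) ∩ (Y.image ψ ∪ I)) (by
      intro z hz
      have h5 := image_subset_image (f := ψ) hXY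
      have := @h5 z
      simp only [mem_union, mem_inter] at hz ⊢
      tauto)
    rw [h2] at h1
    have := g1 X
    have := g1 Y
    have := g2 X
    have := g2 Y
    unfold mkb mkr
    omega

section

variable {a b : Finset β → ℕ} {X Y C : Finset β}

theorem AB.up (h : AB a b) (hXY : X ⊆ Y) (hX : b X = a X) : b Y = a Y := by
  have h1 := h.dim X Y hXY
  have h2 := h.le Y
  omega

/-- If `X` spans the fixed set and `X` is in the closure of `Y`, then `Y` spans the fixed set. -/
theorem AB.up' (h : AB a b) (hX : b X = a X) (hXY : ∀ x ∈ X, a (insert x Y) = a Y) : b Y = a Y := by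
  have h1 := rank_union h.ra hXY
  have h2 := h.up (subset_union_right : X ⊆ Y ∪ X) hX
  have h3 := h.mono Y (Y ∪ X) subset_union_left
  have h4 := h.le Y
  omega

open Classical in
/-- The smallest subset of the independent set `C` which spans the fixed set. -/
noncomputable def cF (a b : Finset β → ℕ) (C : Finset β) : Finset β :=
  C.filter fun c => b (C.erase c) ≠ a (C.erase c)

theorem mem_cF {c : β} : c ∈ cF a b C ↔ c ∈ C ∧ b (C.erase c) ≠ a (C.erase c) := by
  unfold cF
  rw [mem_filter]

theorem AB.inter (h : AB a b) (hC : a C = C.card) {S S' : Finset β} (hS : S ⊆ C) (hS' : S' ⊆ C)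
    (h1 : b S = a S) (h2 : b S' = a S') : b (S ∩ S') = a (S ∩ S') := by
  have k1 := h.sub S S'
  have k2 := h.le (S ∪ S')
  have k3 := h.le (S ∩ S')
  have k4 := CF98.ind_sub h.ra hC hS
  have k5 := CF98.ind_sub h.ra hC hS'
  have k6 := CF98.ind_sub h.ra hC (union_subset hS hS')
  have k7 := CF98.ind_sub h.ra hC ((inter_subset_left : S ∩ S' ⊆ S).trans hS)
  have k8 := card_union_add_card_inter S S'
  omega

theorem AB.cF_span (h : AB a b) (hC : a C = C.card) (hb : b C = a C) : b (cF a b C) = a (cF a b C) := by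
  have key : ∀ R ⊆ C \ cF a b C, b (C \ R) = a (C \ R) := by
    intro R
    induction R using Finset.induction_on with
    | empty =>
      intro _
      rw [sdiff_empty]
      exact hb
    | insert c R hc ih =>
      intro hR
      have h1 := ih ((subset_insert c R).trans hR)
      have h2 := hR (mem_insert_self c R)
      rw [mem_sdiff, mem_cF] at h2
      push Not at h2
      have h3 := h2.2 h2.1
      have h4 := h.inter hC (S := C \ R) (S' := C.erase c) sdiff_subset (erase_subset c C) h1 h3
      have h5 : C \ R ∩ C.erase c = C \ insert c R := by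
        ext z
        simp only [mem_inter, mem_sdiff, mem_erase, mem_insert]
        tauto
      rw [h5] at h4
      exact h4
  have h1 := key (C \ cF a b C) (Subset.refl _)
  have h2 : C \ (C \ cF a b C) = cF a b C := by
    refine Finset.sdiff_sdiff_eq_self ?_
    intro c hc
    exact (mem_cF.1 hc).1
  rw [h2] at h1
  exact h1

end

end Pool.Agent.FT56
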