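import Pool.Agent.FT56.Strict
import Pool.Agent.CF98.SplitA

/-!
Truncations.

* `con_strict`: in a strict system of the truncation (`r E = f + 1`) all good bases are in one class.
* `con_congr`: `ConS` depends only on the ranks of the subsets of `E`.
* `con_split`: splitting at a tight set.
* `conT`: the fibre theorem for the truncation of a contraction `mc r₀ I` of `r₀`, if `ConS` holds for all `mc r₀ I`.
-/

set_option autoImplicit false

namespace Pool.Agent.FT56

open Finset Pool.Agent.DT3 Pool.Agent.CF98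

variable {α : Type*} [DecidableEq α] {E X : Finset α} {r r' : Finset α → ℕ} {f : ℕ}

theorem bs_trunc (h : RankFn r) {S : Finset α} (hS : Bs (fun X => min (r X) f) f S) :
    S.card = f ∧ r S = f := by
  obtain ⟨h1, h2⟩ := hS
  have h3 : min (r S) f = f := h2
  have h4 := h.le_card S
  exact ⟨h1, by omega⟩

/-- Two different blocks of a state satisfy `Stp`. -/
theorem st_stp {c : α → Fin 3} (hE : Env r E f) (hc : ∀ i, Bs r f (sl E c i)) {i j : Fin 3}
    (hij : i ≠ j) : Stp r E f (sl E c i) (sl E c j) := by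
  obtain ⟨k, hk⟩ : ∃ k, k ≠ i ∧ k ≠ j ∧ ∀ l, l = i ∨ l = j ∨ l = k := by
    revert i j
    decide
  have e : E \ (sl E c i ∪ sl E c j) = sl E c k := by
    ext x
    rw [mem_sdiff, mem_union, mem_sl, mem_sl, mem_sl]
    constructor
    · rintro ⟨hx, hn⟩
      refine ⟨hx, ?_⟩
      rcases hk.2.2 (c x) with h1 | h1 | h1
      · exact absurd (Or.inl ⟨hx, h1⟩) hn
      · exact absurd (Or.inr ⟨hx, h1⟩) hn
      · exact h1
    · rintro ⟨hx, h1⟩
      refine ⟨hx, ?_⟩
      rintro (h2 | h2)
      · exact hk.1 (h1.symm.trans h2.2)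
      · exact hk.2.1 (h1.symm.trans h2.2)
  exact gd_stp hE sl_sub (hc i) sl_sub (sl_disj hij) (hc j) (by rw [e]; exact hc k)

open Classical in
/-- The colouring of a partition. -/
noncomputable def col (A C : Finset α) (x : α) : Fin 3 := if x ∈ A then 0 else if x ∈ C then 1 else 2

theorem sl_col {A C : Finset α} (hA : A ⊆ E) (hC : C ⊆ E) (hd : Disjoint A C) :
    sl E (col A C) 0 = A ∧ sl E (col A C) 1 = C ∧ sl E (col A C) 2 = E \ (A ∪ C) := by
  have hd' := disjoint_left.1 hd
  have k0 : ∀ x, x ∈ A → col A C x = 0 := fun x hx => by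
    unfold col
    rw [if_pos hx]
  have k1 : ∀ x, x ∉ A → x ∈ C → col A C x = 1 := fun x hx hx' => by
    unfold col
    rw [if_neg hx, if_pos hx']
  have k2 : ∀ x, x ∉ A → x ∉ C → col A C x = 2 := fun x hx hx' => by
    unfold col
    rw [if_neg hx, if_neg hx']
  have n1 : (1 : Fin 3) ≠ 0 := by decide
  have n2 : (2 : Fin 3) ≠ 0 := by decide
  have n3 : (2 : Fin 3) ≠ 1 := by decide
  refine ⟨?_, ?_, ?_⟩
  · ext x
    rw [mem_sl]
    constructor
    · rintro ⟨-, h⟩
      by_contra h1
      by_cases h2 : x ∈ C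
      · exact n1 ((k1 x h1 h2).symm.trans h)
      · exact n2 ((k2 x h1 h2).symm.trans h)
    · intro hx
      exact ⟨hA hx, k0 x hx⟩
  · ext x
    rw [mem_sl]
    constructor
    · rintro ⟨-, h⟩
      by_contra h2
      by_cases h1 : x ∈ A
      · exact n1 (h.symm.trans (k0 x h1))
      · exact n3 ((k2 x h1 h2).symm.trans h)
    · intro hx
      exact ⟨hC hx, k1 x (fun h => hd' h hx) hx⟩
  · ext x
    rw [mem_sl, mem_sdiff, mem_union]
    constructor
    · rintro ⟨hx, h⟩
      refine ⟨hx, ?_⟩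
      rintro (h1 | h1)
      · exact n2 (h.symm.trans (k0 x h1))
      · exact n3 (h.symm.trans (k1 x (fun h' => hd' h' h1) h1))
    · rintro ⟨hx, hn⟩
      push Not at hn
      exact ⟨hx, k2 x hn.1 hn.2⟩

theorem con_strict (h : RankFn r) (hE : Env (fun X => min (r X) f) E f)
    (hs : Strict (fun X => min (r X) f) E) (hr : r E = f + 1) : ConS (fun X => min (r X) f) E f := by
  intro Q hQ A B hA hB hq
  obtain ⟨C, hC, hd, hb, hb'⟩ := gd_parts hE hA
  obtain ⟨D, hD, hd2, hb2, hb2'⟩ := gd_parts hE hB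
  have e1 := sl_col hA.1 hC hd
  have e2 := sl_col hB.1 hD hd2
  have t1 : Ts r E f (col A C) := by
    intro i
    fin_cases i
    · show (sl E (col A C) 0).card = f ∧ r (sl E (col A C) 0) = f
      rw [e1.1]
      exact bs_trunc h hA.2.1
    · show (sl E (col A C) 1).card = f ∧ r (sl E (col A C) 1) = f
      rw [e1.2.1]
      exact bs_trunc h hb
    · show (sl E (col A C) 2).card = f ∧ r (sl E (col A C) 2) = f
      rw [e1.2.2]
      exact bs_trunc h hb'
  have t2 : Ts r E f (col B D) := by
    intro i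
    fin_cases i
    · show (sl E (col B D) 0).card = f ∧ r (sl E (col B D) 0) = f
      rw [e2.1]
      exact bs_trunc h hB.2.1
    · show (sl E (col B D) 1).card = f ∧ r (sl E (col B D) 1) = f
      rw [e2.2.1]
      exact bs_trunc h hb2
    · show (sl E (col B D) 2).card = f ∧ r (sl E (col B D) 2) = f
      rw [e2.2.2]
      exact bs_trunc h hb2'
  have hcon : ∀ d, Ts r E f d → ∀ i j, Q (sl E d i) → Q (sl E d j) := by
    intro d hd i j hqi
    by_cases hij : i = j
    · rw [← hij]
      exact hqi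
    · refine hQ _ _ (st_stp hE (fun k => ⟨(hd k).1, ?_⟩) hij) hqi
      show min (r (sl E d k)) f = f
      rw [(hd k).2, min_self]
  have key := ts_conn (Q := fun d => Q (sl E d 0)) (c := col A C) (c' := col B D) h hE.card hr hs ?_ t1 t2
    ?_ (by show Q (sl E (col A C) 0); rw [e1.1]; exact hq)
  · change Q (sl E (col B D) 0) at key
    rw [e2.1] at key
    exact key
  · rintro d d' hd hd' ⟨i, hi⟩ hqd
    apply hcon d' hd' i 0
    rw [← hi]
    exact hcon d hd 0 i hqd
  · intro x hx
    unfold col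
    rw [if_neg (fun h' => hx (hA.1 h')), if_neg (fun h' => hx (hC h')),
      if_neg (fun h' => hx (hB.1 h')), if_neg (fun h' => hx (hD h'))]

theorem env_congr (h : ∀ Y ⊆ E, r Y = r' Y) (hr' : RankFn r') (hE : Env r E f) : Env r' E f :=
  ⟨hr', hE.card, by rw [← h E (Subset.refl E)]; exact hE.rank,
    fun X hX => by rw [← h X hX]; exact hE.three X hX⟩

theorem gd_congr (h : ∀ Y ⊆ E, r Y = r' Y) {A : Finset α} (hA : Gd r E f A) : Gd r' E f A :=
  ⟨hA.1, ⟨hA.2.1.1, by rw [← h A hA.1]; exact hA.2.1.2⟩,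
    fun X hX => by rw [← h X (hX.trans sdiff_subset)]; exact hA.2.2 X hX⟩

theorem stp_congr (h : ∀ Y ⊆ E, r Y = r' Y) {A A' : Finset α} (hA : Stp r E f A A') :
    Stp r' E f A A' := by
  have hb : ∀ {X}, X ⊆ E → Bs r f X → Bs r' f X := by
    intro X hX hX'
    exact ⟨hX'.1, by rw [← h X hX]; exact hX'.2⟩
  obtain ⟨h1, h2, h3, h4, C, h5, h6, h7, h8, h9, h10⟩ := hA
  exact ⟨h1, h2, hb h1 h3, hb h2 h4, C, h5, h6, h7, hb h5 h8, hb sdiff_subset h9, hb sdiff_subset h10⟩

theorem con_congr (h : ∀ Y ⊆ E, r Y = r' Y) (hc : ConS r E f) : ConS r' E f := by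
  intro Q hQ A B hA hB hq
  have h' : ∀ Y ⊆ E, r' Y = r Y := fun Y hY => (h Y hY).symm
  exact hc Q (fun S S' hS => hQ S S' (stp_congr h hS)) A B (gd_congr h' hA) (gd_congr h' hB) hq

theorem con_split (hE : Env r E f) (hX : X ⊆ E) (ht : X.card = 3 * r X) (h1 : ConS r X (r X))
    (h2 : ConS (fun Y => r (Y ∪ X) - r X) (E \ X) (f - r X)) : ConS r E f := by
  intro Q hQ A B hA hB hQA
  have hA1 := gd_res hE hX ht hA
  have hA2 := gd_con hE hX ht hA
  have hB1 := gd_res hE hX ht hB
  have hB2 := gd_con hE hX ht hB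
  have hAu : A ∩ X ∪ A \ X = A := by
    rw [union_comm]
    exact sdiff_union_inter A X
  have hBu : B ∩ X ∪ B \ X = B := by
    rw [union_comm]
    exact sdiff_union_inter B X
  have k1 : Q (B ∩ X ∪ A \ X) := by
    refine h1 (fun S => Q (S ∪ A \ X)) ?_ (A ∩ X) (B ∩ X) hA1 hB1 ?_
    · intro S S' hS hq
      exact hQ _ _ (stp_glue_left hE hX ht hS hA2) hq
    · show Q (A ∩ X ∪ A \ X)
      rw [hAu]
      exact hQA
  have k2 : Q (B ∩ X ∪ B \ X) := by
    refine h2 (fun S => Q (B ∩ X ∪ S)) ?_ (A \ X) (B \ X) hA2 hB2 k1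
    intro S S' hS hq
    exact hQ _ _ (stp_glue_right hE hX ht hB1 hS) hq
  rw [hBu] at k2
  exact k2

/-- The contraction. -/
def mc (r₀ : Finset α → ℕ) (I Y : Finset α) : ℕ := r₀ (Y ∪ I) - r₀ I

theorem mc_rank {r₀ : Finset α → ℕ} (h : RankFn r₀) (I : Finset α) : RankFn (mc r₀ I) := contr_rank h I

theorem mc_con {r₀ : Finset α → ℕ} (h : RankFn r₀) (I X Y : Finset α) :
    mc r₀ I (Y ∪ X) - mc r₀ I X = mc r₀ (X ∪ I) Y := by
  unfold mc
  have h1 := h.mono I (X ∪ I) subset_union_right
  have h2 := h.mono (X ∪ I) (Y ∪ (X ∪ I)) subset_union_right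
  rw [union_assoc]
  omega

theorem conT {r₀ : Finset α → ℕ} (h : RankFn r₀) (hK : ∀ I E f, Env (mc r₀ I) E f → ConS (mc r₀ I) E f)
    (n : ℕ) : ∀ (E I : Finset α) (f : ℕ), E.card ≤ n → mc r₀ I E ≤ f + 1 →
    Env (fun Y => min (mc r₀ I Y) f) E f → ConS (fun Y => min (mc r₀ I Y) f) E f := by
  induction n with
  | zero =>
    intro E I f hn _ _ Q _ A B hA hB hQA
    have hE0 : E = ∅ := by
      rw [← card_eq_zero]
      omega
    have hA0 : A = ∅ := subset_empty.1 (hE0 ▸ hA.1)
    have hB0 : B = ∅ := subset_empty.1 (hE0 ▸ hB.1)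
    rw [hB0, ← hA0]
    exact hQA
  | succ n ih =>
    intro E I f hn hf hE
    have hR := mc_rank h I
    by_cases hf1 : mc r₀ I E ≤ f
    · have e : ∀ Y ⊆ E, min (mc r₀ I Y) f = mc r₀ I Y := by
        intro Y hY
        have := hR.mono Y E hY
        omega
      exact con_congr (fun Y hY => (e Y hY).symm) (hK I E f (env_congr e hR hE))
    · by_cases hs : Strict (fun Y => min (mc r₀ I Y) f) E
      · exact con_strict hR hE hs (by omega)
      · unfold Strict at hs
        push Not at hs
        obtain ⟨X, hX, hne, hXE, hlt⟩ := hs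
        have ht : X.card = 3 * min (mc r₀ I X) f := by
          have h3 : X.card ≤ 3 * min (mc r₀ I X) f := hE.three X hX
          omega
        have hXc : X.card < E.card := card_lt_card (hX.ssubset_of_ne hXE)
        have hXp : 0 < X.card := hne.card_pos
        have hdc : (E \ X).card < E.card := by
          rw [card_sdiff_of_subset hX]
          omega
        have hEc := hE.card
        have hXf : mc r₀ I X < f := by omega
        have hmX : min (mc r₀ I X) f = mc r₀ I X := by omega
        refine con_split hE hX ht ?_ ?_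
        · have e : ∀ Y ⊆ X, min (mc r₀ I Y) f = mc r₀ I Y := by
            intro Y hY
            have := hR.mono Y X hY
            omega
          have hEX : Env (mc r₀ I) X (min (mc r₀ I X) f) := env_congr e hR (env_res hE hX ht)
          exact con_congr (fun Y hY => (e Y hY).symm) (hK I X _ hEX)
        · have hEX := env_con hE hX ht
          have e : ∀ Y, min (mc r₀ I (Y ∪ X)) f - min (mc r₀ I X) f =
              min (mc r₀ (X ∪ I) Y) (f - min (mc r₀ I X) f) := by
            intro Y
            have h1 := mc_con h I X Y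
            have h2 := hR.mono X (Y ∪ X) subset_union_right
            omega
          have hRc := mc_rank h (X ∪ I)
          have hEX' : Env (fun Y => min (mc r₀ (X ∪ I) Y) (f - min (mc r₀ I X) f)) (E \ X)
              (f - min (mc r₀ I X) f) := env_congr (fun Y _ => e Y) (trunc_rank hRc _) hEX
          refine con_congr (fun Y _ => (e Y).symm) (ih (E \ X) (X ∪ I) _ (by omega) ?_ hEX')
          have h1 := mc_con h I X (E \ X)
          rw [sdiff_union_of_subset hX] at h1
          omega

end Pool.Agent.FT56
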