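import Pool.Agent.DT3.HFlat

/-!
Partitions of `E` into independent sets (block `i` independent for the rank function `r i`) are connected by moves of single elements if
`|A| < ∑ i, r i A` for all non-empty `A ⊆ E`.
-/

set_option autoImplicit false

namespace Pool.Agent.FT56

open Finset Pool.Agent.DT3

variable {α κ : Type*} [DecidableEq α] [Fintype κ] [DecidableEq κ]

/-- The block `i` of the colouring `c`. -/
def sl (E : Finset α) (c : α → κ) (i : κ) : Finset α := E.filter fun x => c x = i

/-- All blocks are independent. -/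
def Nd (r : κ → Finset α → ℕ) (E : Finset α) (c : α → κ) : Prop :=
  ∀ i, r i (sl E c i) = (sl E c i).card

/-- A move of one element. -/
def Mv (r : κ → Finset α → ℕ) (E : Finset α) (c c' : α → κ) : Prop :=
  Nd r E c ∧ Nd r E c' ∧ ∃ s ∈ E, ∃ j, c s ≠ j ∧ c' = Function.update c s j

variable {E : Finset α} {c c' : α → κ}

omit [Fintype κ] [DecidableEq α] in
theorem mem_sl {x : α} {i : κ} : x ∈ sl E c i ↔ x ∈ E ∧ c x = i := mem_filter

omit [Fintype κ] [DecidableEq α] in
theorem sl_sub {i : κ} : sl E c i ⊆ E := filter_subset _ _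

omit [Fintype κ] [DecidableEq α] in
theorem sl_disj {i j : κ} (h : i ≠ j) : Disjoint (sl E c i) (sl E c j) := by
  rw [disjoint_left]
  intro x hx hx'
  rw [mem_sl] at hx hx'
  exact h (hx.2.symm.trans hx'.2)

omit [Fintype κ] in
theorem sl_update_self {s : α} (hs : s ∈ E) (m : κ) :
    sl E (Function.update c s m) m = insert s (sl E c m) := by
  ext x
  rw [mem_sl, mem_insert, mem_sl]
  by_cases hx : x = s
  · subst hx
    simp [hs]
  · rw [Function.update_of_ne hx]
    simp [hx]

omit [Fintype κ] in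
theorem sl_update_ne {s : α} {m i : κ} (hi : i ≠ m) :
    sl E (Function.update c s m) i = (sl E c i).erase s := by
  ext x
  rw [mem_sl, mem_erase, mem_sl]
  by_cases hx : x = s
  · subst hx
    simp [Ne.symm hi]
  · rw [Function.update_of_ne hx]
    simp [hx]

omit [Fintype κ] in
theorem sl_update_of_ne {s : α} {m i : κ} (hi : i ≠ m) (hc : c s ≠ i) :
    sl E (Function.update c s m) i = sl E c i := by
  rw [sl_update_ne hi, erase_eq_of_notMem]
  rw [mem_sl]
  exact fun h => hc h.2

omit [DecidableEq α] in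
theorem card_sl : ∑ i, (sl E c i).card = E.card :=
  (card_eq_sum_card_fiberwise (f := c) (t := univ) (fun _ _ => mem_coe.2 (mem_univ _))).symm

/-- Independence passes to subsets. -/
theorem ind_sub {r : Finset α → ℕ} (h : RankFn r) {X Y : Finset α} (hY : r Y = Y.card) (hX : X ⊆ Y) :
    r X = X.card := by
  have h1 := h.submod X (Y \ X)
  rw [union_sdiff_of_subset hX] at h1
  have h2 := h.le_card X
  have h3 := h.le_card (Y \ X)
  have h4 := card_sdiff_add_card_eq_card hX
  omega

/-- Adding elements of the closure. -/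
theorem rank_union {r : Finset α → ℕ} (h : RankFn r) {X Y : Finset α}
    (hY : ∀ x ∈ Y, r (insert x X) = r X) : r (X ∪ Y) = r X := by
  classical
  induction Y using Finset.induction_on with
  | empty => rw [union_empty]
  | insert y Y hy ih =>
    rw [union_insert]
    have h1 := ih fun x hx => hY x (mem_insert_of_mem hx)
    have h2 := hY y (mem_insert_self y Y)
    have h3 := h.submod (insert y X) (X ∪ Y)
    have h4 : r X ≤ r (insert y X ∩ (X ∪ Y)) := by
      apply h.mono
      intro z hz
      rw [mem_inter, mem_insert, mem_union]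
      exact ⟨Or.inr hz, Or.inl hz⟩
    have h5 : insert y X ∪ (X ∪ Y) = insert y (X ∪ Y) := by
      ext z
      simp only [mem_union, mem_insert]
      tauto
    rw [h5] at h3
    have h6 := h.mono (X ∪ Y) (insert y (X ∪ Y)) (subset_insert _ _)
    omega

theorem ins_eq {r : Finset α → ℕ} (h : RankFn r) {x : α} {X : Finset α} (hx : r (insert x X) ≠ r X) :
    r (insert x X) = r X + 1 := by
  have h1 := h.insert_le x X
  have h2 := h.mono X (insert x X) (subset_insert _ _)
  omega

theorem ins_mono {r : Finset α → ℕ} (h : RankFn r) {x : α} {X Y : Finset α} (hXY : X ⊆ Y)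
    (hx : r (insert x X) = r X) : r (insert x Y) = r Y := by
  have h1 := h.submod (insert x X) Y
  have h2 : insert x X ∪ Y = insert x Y := by
    ext z
    simp only [mem_union, mem_insert]
    have := @hXY z
    tauto
  have h3 : r X ≤ r (insert x X ∩ Y) := by
    apply h.mono
    intro z hz
    rw [mem_inter, mem_insert]
    exact ⟨Or.inr hz, hXY hz⟩
  have h4 := h.mono Y (insert x Y) (subset_insert _ _)
  rw [h2] at h1
  omega

/-- Closure is transitive. -/
theorem ins_trans {r : Finset α → ℕ} (h : RankFn r) {x : α} {X Y : Finset α}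
    (hx : r (insert x Y) = r Y) (hY : ∀ y ∈ Y, r (insert y X) = r X) : r (insert x X) = r X := by
  have h1 := rank_union h hY
  have h2 : r (insert x (X ∪ Y)) = r (X ∪ Y) := ins_mono h subset_union_right hx
  have h3 := h.mono (insert x X) (insert x (X ∪ Y)) (insert_subset_insert _ subset_union_left)
  have h4 := h.mono X (insert x X) (subset_insert _ _)
  omega

omit [Fintype κ] in
/-- A node stays a node after the move of an element to a block which does not span it. -/
theorem nd_update {r : κ → Finset α → ℕ} (hr : ∀ i, RankFn (r i)) (hc : Nd r E c) {s : α} (hs : s ∈ E)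
    {m : κ} (h : r m (insert s (sl E c m)) ≠ r m (sl E c m)) : Nd r E (Function.update c s m) := by
  intro i
  by_cases hi : i = m
  · subst hi
    rw [sl_update_self hs]
    have hn : s ∉ sl E c i := fun h' => h (by rw [insert_eq_of_mem h'])
    rw [ins_eq (hr i) h, hc i, card_insert_of_notMem hn]
  · rw [sl_update_ne hi]
    exact ind_sub (hr i) (hc i) (erase_subset _ _)

omit [Fintype κ] in
theorem ne_of_ins {r : κ → Finset α → ℕ} {s : α} (hs : s ∈ E)
    {m : κ} (h : r m (insert s (sl E c m)) ≠ r m (sl E c m)) : c s ≠ m := by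
  intro h'
  exact h (by rw [insert_eq_of_mem (mem_sl.2 ⟨hs, h'⟩)])

omit [Fintype κ] in
theorem mv_update {r : κ → Finset α → ℕ} (hr : ∀ i, RankFn (r i)) (hc : Nd r E c) {s : α} (hs : s ∈ E)
    {m : κ} (h : r m (insert s (sl E c m)) ≠ r m (sl E c m)) : Mv r E c (Function.update c s m) :=
  ⟨hc, nd_update hr hc hs h, s, hs, m, ne_of_ins hs h, rfl⟩

/-- The elements with different blocks. -/
def Df (E : Finset α) (c c' : α → κ) : Finset α := E.filter fun x => c x ≠ c' x

omit [Fintype κ] [DecidableEq α] in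
theorem mem_df {x : α} : x ∈ Df E c c' ↔ x ∈ E ∧ c x ≠ c' x := mem_filter

/-- A closest pair: `c` in `Q`, `c'` not in `Q`. -/
structure Cp (r : κ → Finset α → ℕ) (E : Finset α) (Q : (α → κ) → Prop) (c c' : α → κ) : Prop where
  n1 : Nd r E c
  n2 : Nd r E c'
  ag : ∀ x ∉ E, c x = c' x
  q1 : Q c
  q2 : ¬ Q c'
  mn : ∀ d d', Nd r E d → Nd r E d' → (∀ x ∉ E, d x = d' x) → Q d → ¬ Q d' →
    (Df E c c').card ≤ (Df E d d').card

section

variable {r : κ → Finset α → ℕ} {Q : (α → κ) → Prop}

omit [Fintype κ] in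
theorem cp_one (hr : ∀ i, RankFn (r i)) (hQ : ∀ d d', Mv r E d d' → (Q d ↔ Q d')) (h : Cp r E Q c c')
    {s : α} (hs : s ∈ Df E c c') : r (c' s) (insert s (sl E c (c' s))) = r (c' s) (sl E c (c' s)) := by
  by_contra hn
  rw [mem_df] at hs
  have h1 := mv_update hr h.n1 hs.1 hn
  have h2 := h.mn (Function.update c s (c' s)) c' h1.2.1 h.n2 (fun x hx => by
    rw [Function.update_of_ne (fun e => hx (by rw [e]; exact hs.1)), h.ag x hx])
    ((hQ _ _ h1).1 h.q1) h.q2
  have h3 : Df E (Function.update c s (c' s)) c' = (Df E c c').erase s := by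
    ext x
    rw [mem_df, mem_erase, mem_df]
    by_cases hx : x = s
    · subst hx
      simp
    · rw [Function.update_of_ne hx]
      simp [hx]
  rw [h3, card_erase_of_mem (mem_df.2 hs)] at h2
  have h4 : 0 < (Df E c c').card := card_pos.2 ⟨s, mem_df.2 hs⟩
  omega

omit [Fintype κ] in
theorem cp_two (hr : ∀ i, RankFn (r i)) (hQ : ∀ d d', Mv r E d d' → (Q d ↔ Q d')) (h : Cp r E Q c c')
    {s : α} (hs : s ∈ Df E c c') : r (c s) (insert s (sl E c' (c s))) = r (c s) (sl E c' (c s)) := by
  by_contra hn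
  rw [mem_df] at hs
  have h1 := mv_update hr h.n2 hs.1 hn
  have h2 := h.mn c (Function.update c' s (c s)) h.n1 h1.2.1 (fun x hx => by
    rw [Function.update_of_ne (fun e => hx (by rw [e]; exact hs.1)), h.ag x hx])
    h.q1 (fun hq => h.q2 ((hQ _ _ h1).2 hq))
  have h3 : Df E c (Function.update c' s (c s)) = (Df E c c').erase s := by
    ext x
    rw [mem_df, mem_erase, mem_df]
    by_cases hx : x = s
    · subst hx
      simp
    · rw [Function.update_of_ne hx]
      simp [hx]
  rw [h3, card_erase_of_mem (mem_df.2 hs)] at h2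
  have h4 : 0 < (Df E c c').card := card_pos.2 ⟨s, mem_df.2 hs⟩
  omega

omit [Fintype κ] in
/-- The blocks of a closest pair have the same closures. -/
theorem cp_clo (hr : ∀ i, RankFn (r i)) (hQ : ∀ d d', Mv r E d d' → (Q d ↔ Q d')) (h : Cp r E Q c c')
    (i : κ) (x : α) : r i (insert x (sl E c i)) = r i (sl E c i) ↔
      r i (insert x (sl E c' i)) = r i (sl E c' i) := by
  have a1 : ∀ y ∈ sl E c' i, r i (insert y (sl E c i)) = r i (sl E c i) := by
    intro y hy
    rw [mem_sl] at hy
    by_cases hc : c y = i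
    · rw [insert_eq_of_mem (mem_sl.2 ⟨hy.1, hc⟩)]
    · have := cp_one hr hQ h (s := y) (mem_df.2 ⟨hy.1, fun e => hc (e.trans hy.2)⟩)
      rw [hy.2] at this
      exact this
  have a2 : ∀ y ∈ sl E c i, r i (insert y (sl E c' i)) = r i (sl E c' i) := by
    intro y hy
    rw [mem_sl] at hy
    by_cases hc : c' y = i
    · rw [insert_eq_of_mem (mem_sl.2 ⟨hy.1, hc⟩)]
    · have := cp_two hr hQ h (s := y) (mem_df.2 ⟨hy.1, fun e => hc (e.symm.trans hy.2)⟩)
      rw [hy.2] at this
      exact this
  exact ⟨fun hx => ins_trans (hr i) hx a2, fun hx => ins_trans (hr i) hx a1⟩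

omit [Fintype κ] in
/-- The elements of the difference lie in all closures. -/
theorem cp_df (hr : ∀ i, RankFn (r i)) (hQ : ∀ d d', Mv r E d d' → (Q d ↔ Q d')) (h : Cp r E Q c c')
    {s : α} (hs : s ∈ Df E c c') (m : κ) : r m (insert s (sl E c m)) = r m (sl E c m) := by
  by_contra hn
  have hn' : ¬ r m (insert s (sl E c' m)) = r m (sl E c' m) := fun h' => hn ((cp_clo hr hQ h m s).2 h')
  have hs' := mem_df.1 hs
  have h1 := mv_update hr h.n1 hs'.1 hn
  have h1' := mv_update hr h.n2 hs'.1 hn'
  have h2 := h.mn (Function.update c s m) (Function.update c' s m) h1.2.1 h1'.2.1 (fun x hx => by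
    have hxs : x ≠ s := fun e => hx (by rw [e]; exact hs'.1)
    rw [Function.update_of_ne hxs, Function.update_of_ne hxs, h.ag x hx])
    ((hQ _ _ h1).1 h.q1) (fun hq => h.q2 ((hQ _ _ h1').2 hq))
  have h3 : Df E (Function.update c s m) (Function.update c' s m) = (Df E c c').erase s := by
    ext x
    rw [mem_df, mem_erase, mem_df]
    by_cases hx : x = s
    · subst hx
      simp
    · rw [Function.update_of_ne hx, Function.update_of_ne hx]
      simp [hx]
  rw [h3, card_erase_of_mem hs] at h2
  have h4 : 0 < (Df E c c').card := card_pos.2 ⟨s, hs⟩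
  omega

/-- A simultaneous move of a common element. -/
def W (r : κ → Finset α → ℕ) (E : Finset α) (p q : (α → κ) × (α → κ)) : Prop :=
  ∃ s ∈ E, ∃ m, p.1 s = p.2 s ∧ r m (insert s (sl E p.1 m)) ≠ r m (sl E p.1 m) ∧
    q = (Function.update p.1 s m, Function.update p.2 s m)

omit [Fintype κ] in
theorem cp_w (hr : ∀ i, RankFn (r i)) (hQ : ∀ d d', Mv r E d d' → (Q d ↔ Q d'))
    {p q : (α → κ) × (α → κ)} (h : Cp r E Q p.1 p.2) (hw : W r E p q) :
    Cp r E Q q.1 q.2 ∧ Df E q.1 q.2 = Df E p.1 p.2 := by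
  obtain ⟨s, hs, m, hc, hn, rfl⟩ := hw
  have hn' : ¬ r m (insert s (sl E p.2 m)) = r m (sl E p.2 m) :=
    fun h' => hn ((cp_clo hr hQ h m s).2 h')
  have h1 := mv_update hr h.n1 hs hn
  have h1' := mv_update hr h.n2 hs hn'
  have h3 : Df E (Function.update p.1 s m) (Function.update p.2 s m) = Df E p.1 p.2 := by
    ext x
    rw [mem_df, mem_df]
    by_cases hx : x = s
    · subst hx
      simp [hc]
    · rw [Function.update_of_ne hx, Function.update_of_ne hx]
  refine ⟨⟨h1.2.1, h1'.2.1, ?_, (hQ _ _ h1).1 h.q1, fun hq => h.q2 ((hQ _ _ h1').2 hq), ?_⟩, h3⟩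
  · intro x hx
    have hxs : x ≠ s := fun e => hx (by rw [e]; exact hs)
    show Function.update p.1 s m x = Function.update p.2 s m x
    rw [Function.update_of_ne hxs, Function.update_of_ne hxs, h.ag x hx]
  · intro d d' g1 g2 g3 g4 g5
    show (Df E (Function.update p.1 s m) (Function.update p.2 s m)).card ≤ _
    rw [h3]
    exact h.mn d d' g1 g2 g3 g4 g5

omit [Fintype κ] in
theorem cp_reach (hr : ∀ i, RankFn (r i)) (hQ : ∀ d d', Mv r E d d' → (Q d ↔ Q d'))
    {p q : (α → κ) × (α → κ)} (h : Cp r E Q p.1 p.2) (hw : Relation.ReflTransGen (W r E) p q) :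
    Cp r E Q q.1 q.2 ∧ Df E q.1 q.2 = Df E p.1 p.2 := by
  induction hw with
  | refl => exact ⟨h, rfl⟩
  | tail _ h2 ih =>
    have h3 := cp_w hr hQ ih.1 h2
    exact ⟨h3.1, h3.2.trans ih.2⟩

omit [Fintype κ] [DecidableEq κ] in
/-- The fundamental circuit argument. -/
theorem circ {r : Finset α → ℕ} (h : RankFn r) {I C : Finset α} {x s : α} (hI : r I = I.card) (hC : C ⊆ I)
    (hx : x ∈ C) (h1 : r (insert s C) = r C) (h2 : r (insert s (I.erase x)) = r (I.erase x)) :
    r (insert s (C.erase x)) = r (C.erase x) := by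
  have h3 := h.submod (insert s C) (insert s (I.erase x))
  have h4 : insert s C ∪ insert s (I.erase x) = insert s I := by
    ext z
    simp only [mem_union, mem_insert, mem_erase]
    have := @hC z
    by_cases hz : z = x
    · subst hz
      have := hC hx
      tauto
    · tauto
  have h5 : insert s (C.erase x) ⊆ insert s C ∩ insert s (I.erase x) := by
    intro z
    simp only [mem_inter, mem_insert, mem_erase]
    have := @hC z
    tauto
  have h6 := h.mono _ _ h5
  have h7 := ind_sub h hI hC
  have h8 := ind_sub h hI (erase_subset x I)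
  have h9 := ind_sub h hI ((erase_subset x C).trans hC)
  have h10 := card_erase_add_one hx
  have h11 := card_erase_add_one (hC hx)
  have h12 := h.mono I (insert s I) (subset_insert _ _)
  have h13 := h.mono (C.erase x) (insert s (C.erase x)) (subset_insert _ _)
  rw [h4] at h3
  omega

end

open Classical in
/-- The elements which are never movable. -/
noncomputable def Fr (r : κ → Finset α → ℕ) (E : Finset α) (p : (α → κ) × (α → κ)) : Finset α :=
  E.filter fun s => ∀ q, Relation.ReflTransGen (W r E) p q →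
    ∀ m, r m (insert s (sl E q.1 m)) = r m (sl E q.1 m)

section

variable {r : κ → Finset α → ℕ} {Q : (α → κ) → Prop}

omit [Fintype κ] in
theorem mem_fr {p : (α → κ) × (α → κ)} {s : α} : s ∈ Fr r E p ↔ s ∈ E ∧
    ∀ q, Relation.ReflTransGen (W r E) p q →
    ∀ m, r m (insert s (sl E q.1 m)) = r m (sl E q.1 m) := by
  classical
  exact mem_filter

omit [Fintype κ] in
/-- A frozen element is spanned by the frozen elements of every block. -/
theorem fr_span (hr : ∀ i, RankFn (r i)) (hQ : ∀ d d', Mv r E d d' → (Q d ↔ Q d'))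
    {p : (α → κ) × (α → κ)} (h : Cp r E Q p.1 p.2) {s : α} (hs : s ∈ Fr r E p) (m : κ) :
    r m (insert s (sl (Fr r E p) p.1 m)) = r m (sl (Fr r E p) p.1 m) := by
  classical
  have hs' := mem_fr.1 hs
  -- a minimal set in the block which spans `s`
  have hne : ((sl E p.1 m).powerset.filter fun C => r m (insert s C) = r m C).Nonempty :=
    ⟨sl E p.1 m, by
      rw [mem_filter]
      exact ⟨mem_powerset_self _, hs'.2 p Relation.ReflTransGen.refl m⟩⟩
  obtain ⟨C, hC, hmin⟩ := exists_min_image _ card hne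
  rw [mem_filter, mem_powerset] at hC
  have hCm : ∀ x ∈ C, r m (insert s (C.erase x)) ≠ r m (C.erase x) := by
    intro x hx h'
    have h1 := hmin (C.erase x) (by
      rw [mem_filter, mem_powerset]
      exact ⟨(erase_subset x C).trans hC.1, h'⟩)
    have h2 := card_erase_lt_of_mem hx
    omega
  -- it never leaves the block
  have key : ∀ q, Relation.ReflTransGen (W r E) p q → C ⊆ sl E q.1 m := by
    intro q hq
    induction hq with
    | refl => exact hC.1
    | @tail q q' h1 h2 ih =>
      have hcp := cp_reach hr hQ h h1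
      have hs2 := hs'.2 q' (h1.tail h2) m
      obtain ⟨x, hx, j, hc, hn, rfl⟩ := h2
      show C ⊆ sl E (Function.update q.1 x j) m
      by_cases hj : m = j
      · subst hj
        rw [sl_update_self hx]
        exact ih.trans (subset_insert _ _)
      · rw [sl_update_ne hj]
        change r m (insert s (sl E (Function.update q.1 x j) m)) =
          r m (sl E (Function.update q.1 x j) m) at hs2
        rw [sl_update_ne hj] at hs2
        intro z hz
        rw [mem_erase]
        refine ⟨?_, ih hz⟩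
        rintro rfl
        exact hCm z hz (circ (hr m) (hcp.1.n1 m) ih hz hC.2 hs2)
  have hCF : C ⊆ sl (Fr r E p) p.1 m := by
    intro x hx
    have hxE : x ∈ E := sl_sub (hC.1 hx)
    rw [mem_sl]
    refine ⟨?_, (mem_sl.1 (hC.1 hx)).2⟩
    rw [mem_fr]
    refine ⟨hxE, ?_⟩
    intro q hq j
    by_contra hn
    have hcp := cp_reach hr hQ h hq
    by_cases hd : x ∈ Df E q.1 q.2
    · exact hn (cp_df hr hQ hcp.1 hd j)
    · have hc : q.1 x = q.2 x := by
        by_contra hc
        exact hd (mem_df.2 ⟨hxE, hc⟩)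
      have hxm : q.1 x = m := (mem_sl.1 (key q hq hx)).2
      have hjm : j ≠ m := fun e => (ne_of_ins (c := q.1) hxE hn) (hxm.trans e.symm)
      have h1 := key _ (hq.tail ⟨x, hxE, j, hc, hn, rfl⟩) hx
      change x ∈ sl E (Function.update q.1 x j) m at h1
      rw [mem_sl, Function.update_self] at h1
      exact hjm h1.2
  exact ins_mono (hr m) hCF hC.2

theorem no_cp (hr : ∀ i, RankFn (r i)) (hs : ∀ A ⊆ E, A.Nonempty → A.card < ∑ i, r i A)
    (hQ : ∀ d d', Mv r E d d' → (Q d ↔ Q d')) (h : Cp r E Q c c') : False := by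
  classical
  let p : (α → κ) × (α → κ) := (c, c')
  have h' : Cp r E Q p.1 p.2 := h
  have hD : Df E c c' ⊆ Fr r E p := by
    intro s hsD
    rw [mem_fr]
    refine ⟨(mem_df.1 hsD).1, ?_⟩
    intro q hq m
    have hcp := cp_reach hr hQ h' hq
    exact cp_df hr hQ hcp.1 (by rw [hcp.2]; exact hsD) m
  have hDne : (Df E c c').Nonempty := by
    rw [nonempty_iff_ne_empty]
    intro he
    have : c = c' := by
      funext x
      by_cases hx : x ∈ E
      · by_contra hn
        have : x ∈ Df E c c' := mem_df.2 ⟨hx, hn⟩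
        rw [he] at this
        exact notMem_empty _ this
      · exact h.ag x hx
    exact h.q2 (this ▸ h.q1)
  have hF : (Fr r E p).Nonempty := hDne.mono hD
  have hFE : Fr r E p ⊆ E := fun x hx => (mem_fr.1 hx).1
  have h1 := hs _ hFE hF
  have h2 : ∀ i, r i (Fr r E p) = (sl (Fr r E p) c i).card := by
    intro i
    have a1 := rank_union (hr i) (fun x hx => fr_span hr hQ h' hx i)
    have a2 : sl (Fr r E p) p.1 i ∪ Fr r E p = Fr r E p := union_eq_right.2 sl_sub
    rw [a2] at a1
    rw [a1]
    apply ind_sub (hr i) (h.n1 i)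
    intro x hx
    rw [mem_sl] at hx ⊢
    exact ⟨hFE hx.1, hx.2⟩
  rw [sum_congr rfl (fun i _ => h2 i), card_sl] at h1
  exact lt_irrefl _ h1

/-- CONN: the partitions into independent blocks are connected. -/
theorem conn (hr : ∀ i, RankFn (r i)) (hs : ∀ A ⊆ E, A.Nonempty → A.card < ∑ i, r i A)
    (hQ : ∀ d d', Mv r E d d' → (Q d ↔ Q d')) (h1 : Nd r E c) (h2 : Nd r E c')
    (ha : ∀ x ∉ E, c x = c' x) (hq : Q c) : Q c' := by
  classical
  by_contra hq'
  let S : Set ℕ := {n | ∃ d d', Nd r E d ∧ Nd r E d' ∧ (∀ x ∉ E, d x = d' x) ∧ Q d ∧ ¬ Q d' ∧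
    (Df E d d').card = n}
  have hS : S.Nonempty := ⟨_, c, c', h1, h2, ha, hq, hq', rfl⟩
  obtain ⟨d, d', g1, g2, g3, g4, g5, g6⟩ := Nat.sInf_mem hS
  refine no_cp hr hs hQ (c := d) (c' := d') ⟨g1, g2, g3, g4, g5, ?_⟩
  intro e e' k1 k2 k3 k4 k5
  rw [g6]
  exact Nat.sInf_le ⟨e, e', k1, k2, k3, k4, k5, rfl⟩

end

end Pool.Agent.FT56
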