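import Pool.Agent.FT56.OfT

/-!
The connectivity of triples of bases is inherited by truncations and free extensions.

* `tconn_of_con`: `TConn M` from `ConS` for all blow-ups of `M`.
* `trunc_rk`: the rank function of the truncation.
* `tconn_trunc`: truncations.
* `tconn_coloop`: adding a coloop.
* `tconn_freeExt`: the free extension is the truncation of the matroid with an additional coloop.
-/

set_option autoImplicit false

namespace Pool.Agent.FT56

open Finset Pool.Agent.DT3 Pool.Agent.CF98 Pool.Agent.WD Pool.Agent.EX91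

variable {α : Type*} [DecidableEq α]

theorem lift_of_con {M : Matroid α} {f : ℕ} (h : ∀ E f, Env (rr M) E f → ConS (rr M) E f)
    (hf : M.eRank = (f : ℕ∞)) (P P' : Fin 3 → Finset (α × ℕ))
    (hP : ∀ k, Bs (rr M) f (P k)) (hP' : ∀ k, Bs (rr M) f (P' k))
    (hd : Pairwise (Function.onFun Disjoint P)) (hd' : Pairwise (Function.onFun Disjoint P'))
    (hu : univ.biUnion P = univ.biUnion P') :
    Relation.ReflTransGen (ShareStep (fun S : Finset α => M.IsBase (S : Set α)))
      (fun k => (P k).image Prod.fst) (fun k => (P' k).image Prod.fst) := by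
  classical
  set E : Finset (α × ℕ) := univ.biUnion P with hE
  set base : Finset α → Prop := fun S : Finset α => M.IsBase (S : Set α) with hbase
  set B : Fin 3 → Finset α := fun k => (P k).image Prod.fst with hB
  have hEnv : Env (rr M) E f := lift_env hf P hP hd
  have hbs : ∀ S, Bs (rr M) f S → base (S.image Prod.fst) := fun S hS => ((bs_iff hf S).1 hS).1
  have hBb : ∀ k, base (B k) := fun k => hbs _ (hP k)
  have hPE : ∀ k, P k ⊆ E := fun k => subset_biUnion_of_mem P (mem_univ k)
  have hval : ∀ {A C : Finset (α × ℕ)}, A ⊆ E → C ⊆ E → Disjoint A C → Bs (rr M) f A →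
      Bs (rr M) f C → Bs (rr M) f (E \ (A ∪ C)) →
      SameContent B ![A.image Prod.fst, C.image Prod.fst, (E \ (A ∪ C)).image Prod.fst] ∧
      ∀ k, base ((![A.image Prod.fst, C.image Prod.fst, (E \ (A ∪ C)).image Prod.fst] :
        Fin 3 → Finset α) k) := by
    intro A C hA hC hAC hBA hBC hBD
    refine ⟨lift_tuple hf P hP hd hA hC hAC hBA hBC hBD, fun k => ?_⟩
    fin_cases k
    · exact hbs _ hBA
    · exact hbs _ hBC
    · exact hbs _ hBD
  let Q : Finset (α × ℕ) → Prop := fun A => ∀ C ⊆ E, Disjoint A C → A ⊆ E → Bs (rr M) f A →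
    Bs (rr M) f C → Bs (rr M) f (E \ (A ∪ C)) →
    Relation.ReflTransGen (ShareStep base) B
      ![A.image Prod.fst, C.image Prod.fst, (E \ (A ∪ C)).image Prod.fst]
  have hstep : ∀ A A', Stp (rr M) E f A A' → Q A → Q A' := by
    rintro A A' ⟨hA, hA', hBA, hBA', C₀, hC₀, hd0, hd0', hBC₀, hBD, hBD'⟩ hQ C hC hdC _ _ hBC hBD''
    have v1 := hval hA hC₀ hd0 hBA hBC₀ hBD
    have v2 := hval hA' hC₀ hd0' hBA' hBC₀ hBD'
    have v3 := hval hA' hC hdC hBA' hBC hBD''
    have h1 := hQ C₀ hC₀ hd0 hA hBA hBC₀ hBD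
    have s1 : ShareStep base ![A.image Prod.fst, C₀.image Prod.fst, (E \ (A ∪ C₀)).image Prod.fst]
        ![A'.image Prod.fst, C₀.image Prod.fst, (E \ (A' ∪ C₀)).image Prod.fst] :=
      ⟨v1.2, v2.2, fun z => (v1.1 z).symm.trans (v2.1 z), 1, 1, rfl⟩
    have s2 : ShareStep base ![A'.image Prod.fst, C₀.image Prod.fst,
        (E \ (A' ∪ C₀)).image Prod.fst]
        ![A'.image Prod.fst, C.image Prod.fst, (E \ (A' ∪ C)).image Prod.fst] :=
      ⟨v2.2, v3.2, fun z => (v2.1 z).symm.trans (v3.1 z), 0, 0, rfl⟩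
    exact (h1.tail s1).tail s2
  have hQ0 : Q (P 0) := by
    intro C hC hdC hA hBA hBC hBD
    have v := hval hA hC hdC hBA hBC hBD
    exact Relation.ReflTransGen.single ⟨hBb, v.2, v.1, 0, 0, rfl⟩
  have hg0 : Gd (rr M) E f (P 0) := lift_gd hf P hP hd 0
  have hg0' : Gd (rr M) E f (P' 0) := by
    rw [hu]
    exact lift_gd hf P' hP' hd' 0
  have hQ1 : Q (P' 0) := h E f hEnv Q hstep _ _ hg0 hg0' hQ0
  have hPE' : ∀ k, P' k ⊆ E := fun k => by
    rw [hu]
    exact subset_biUnion_of_mem P' (mem_univ k)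
  have hcomp : E \ (P' 0 ∪ P' 1) = P' 2 := by
    have d02 := hd' (show (0 : Fin 3) ≠ 2 by decide)
    have d12 := hd' (show (1 : Fin 3) ≠ 2 by decide)
    ext z
    rw [mem_sdiff, mem_union, hu, mem_biUnion]
    constructor
    · rintro ⟨⟨k, -, hk⟩, hn⟩
      push Not at hn
      fin_cases k
      · exact absurd hk hn.1
      · exact absurd hk hn.2
      · exact hk
    · intro hz
      refine ⟨⟨2, mem_univ _, hz⟩, ?_⟩
      rintro (h | h)
      · exact disjoint_left.1 d02 h hz
      · exact disjoint_left.1 d12 h hz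
  have h2 := hQ1 (P' 1) (hPE' 1) (hd' (by decide)) (hPE' 0) (hP' 0) (hP' 1) (by
    rw [hcomp]
    exact hP' 2)
  rw [hcomp] at h2
  have h3 : (![(P' 0).image Prod.fst, (P' 1).image Prod.fst, (P' 2).image Prod.fst] :
      Fin 3 → Finset α) = fun k => (P' k).image Prod.fst := by
    funext k
    fin_cases k <;> rfl
  rw [h3] at h2
  exact h2

theorem tconn_of_con {M : Matroid α} (h : ∀ E f, Env (rr M) E f → ConS (rr M) E f) : TConn M := by
  intro B D hB hD hBD
  have hf : M.eRank = (((B 0).card : ℕ) : ℕ∞) := by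
    rw [← (hB 0).encard_eq_eRank, Set.encard_coe_eq_coe_finsetCard]
  obtain ⟨P, p1, p2, p3, p4⟩ := exists_lift B
  obtain ⟨P', q1, q2, q3, q4⟩ := exists_lift D
  have hP : ∀ k, Bs (rr M) (B 0).card (P k) := by
    intro k
    rw [bs_iff hf, p1 k]
    exact ⟨hB k, p2 k⟩
  have hP' : ∀ k, Bs (rr M) (B 0).card (P' k) := by
    intro k
    rw [bs_iff hf, q1 k]
    exact ⟨hD k, q2 k⟩
  have hmem : ∀ e n, (e, n) ∈ univ.biUnion P ↔ n < cont B e := by
    intro e n
    rw [mem_biUnion]
    simp only [mem_univ, true_and]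
    exact p4 e n
  have hu : univ.biUnion P = univ.biUnion P' := by
    ext ⟨e, n⟩
    rw [hmem e n, mem_biUnion]
    simp only [mem_univ, true_and]
    rw [q4 e n, ← hBD e]
    rfl
  have h1 := lift_of_con h hf P P' hP hP' p3 q3 hu
  have h2 : (fun k => (P k).image Prod.fst) = B := funext p1
  have h3 : (fun k => (P' k).image Prod.fst) = D := funext q1
  rw [h2, h3] at h1
  exact h1

omit [DecidableEq α] in
private theorem Main56_coe (M : Matroid α) (Y : Finset α) :
    ((rkFn M Y : ℕ) : ℕ∞) = M.eRk (Y : Set α) := by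
  unfold rkFn
  apply ENat.natCast_toNat
  have h1 := M.eRk_le_encard (Y : Set α)
  have h2 : (Y : Set α).encard ≠ ⊤ := by
    rw [Set.encard_ne_top_iff]
    exact Y.finite_toSet
  exact ne_top_of_le_ne_top h2 h1

omit [DecidableEq α] in
/-- The rank function of the truncation. -/
theorem trunc_rk {M M' : Matroid α} {g : ℕ} (hf : M.eRank = ((g + 1 : ℕ) : ℕ∞))
    (h : ∀ B : Set α, M'.IsBase B ↔ M.Indep B ∧ B.encard = (g : ℕ∞)) (X : Finset α) :
    rkFn M' X = min (rkFn M X) g := by
  have key : ((rkFn M' X : ℕ) : ℕ∞) = min ((rkFn M X : ℕ) : ℕ∞) (g : ℕ∞) := by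
    rw [Main56_coe, Main56_coe]
    apply le_antisymm
    · obtain ⟨I, hI⟩ := M'.exists_isBasis' (X : Set α)
      rw [hI.eRk_eq_encard]
      obtain ⟨B, hB, hIB⟩ := hI.indep.exists_isBase_superset
      have hB' := (h B).1 hB
      refine le_min ?_ ?_
      · exact (hB'.1.subset hIB).encard_le_eRk_of_subset hI.subset
      · rw [← hB'.2]
        exact Set.encard_le_encard hIB
    · obtain ⟨J, hJ⟩ := M.exists_isBasis' (X : Set α)
      rw [hJ.eRk_eq_encard]
      obtain ⟨K, hKJ, hK⟩ := Set.exists_subset_encard_eq (min_le_left J.encard (g : ℕ∞))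
      have hKi : M.Indep K := hJ.indep.subset hKJ
      obtain ⟨B1, hB1, hKB1⟩ := hKi.exists_isBase_superset
      have hB1c : B1.encard = ((g + 1 : ℕ) : ℕ∞) := by
        rw [hB1.encard_eq_eRank, hf]
      obtain ⟨B2, hKB2, hB21, hB2⟩ := Set.exists_superset_subset_encard_eq (k := (g : ℕ∞)) hKB1
        (by rw [hK]; exact min_le_right _ _) (by
          rw [hB1c]
          exact_mod_cast Nat.le_succ g)
      have hB2b : M'.IsBase B2 := (h B2).2 ⟨hB1.indep.subset hB21, hB2⟩
      rw [← hK]
      exact (hB2b.indep.subset hKB2).encard_le_eRk_of_subset (hKJ.trans hJ.subset)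
  rcases le_total (rkFn M X) g with h1 | h1
  · rw [min_eq_left h1]
    rw [min_eq_left (by exact_mod_cast h1)] at key
    exact_mod_cast key
  · rw [min_eq_right h1]
    rw [min_eq_right (by exact_mod_cast h1)] at key
    exact_mod_cast key

/-- Truncations. -/
theorem tconn_trunc' {M M' : Matroid α} {g : ℕ} (hf : M.eRank = ((g + 1 : ℕ) : ℕ∞))
    (h : ∀ B : Set α, M'.IsBase B ↔ M.Indep B ∧ B.encard = (g : ℕ∞)) (hM : TConn M) : TConn M' := by
  apply tconn_of_con
  intro E f hE
  have hr := rr_rank M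
  have hrk : ∀ Y, rr M' Y = min (rr M Y) g := fun Y => trunc_rk hf h _
  have hle : rr M E ≤ g + 1 := rk_le_rank hf _
  have hEf : min (rr M E) g = f := by
    rw [← hrk]
    exact hE.rank
  have hmc : ∀ Y, mc (rr M) ∅ Y = rr M Y := by
    intro Y
    show rr M (Y ∪ ∅) - rr M ∅ = rr M Y
    rw [union_empty, hr.empty]
    rfl
  have e : ∀ Y ⊆ E, rr M' Y = min (mc (rr M) ∅ Y) f := by
    intro Y hY
    have h1 := hr.mono Y E hY
    rw [hrk, hmc]
    omega
  have hE' : Env (fun Y => min (mc (rr M) ∅ Y) f) E f :=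
    env_congr e (trunc_rank (mc_rank hr ∅) f) hE
  refine con_congr (fun Y hY => (e Y hY).symm)
    (conT hr (fun I E f hE => con_of_tconn hf hM I E hE) E.card E ∅ f le_rfl ?_ hE')
  rw [hmc]
  omega

/-- TRUNCATIONS: if `M'` is the truncation of `M` then `TConn M → TConn M'`. -/
theorem tconn_trunc (M M' : Matroid α) [M.Finite]
    (h : ∀ B : Set α, M'.IsBase B ↔ M.Indep B ∧ B.encard + 1 = M.eRank) (hM : TConn M) :
    TConn M' := by
  obtain ⟨B, hB⟩ := M'.exists_isBase
  have hB' := (h B).1 hB
  have hBfin : B.Finite := M.ground_finite.subset hB'.1.subset_ground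
  have hBc : B.encard = (B.ncard : ℕ∞) := hBfin.cast_ncard_eq.symm
  have hf : M.eRank = ((B.ncard + 1 : ℕ) : ℕ∞) := by
    rw [← hB'.2, hBc]
    push_cast
    rfl
  refine tconn_trunc' hf ?_ hM
  intro S
  rw [h S, hf]
  refine and_congr_right fun hS => ?_
  have hSfin : S.Finite := M.ground_finite.subset hS.subset_ground
  rw [← hSfin.cast_ncard_eq]
  constructor
  · intro h1
    have h2 : S.ncard + 1 = B.ncard + 1 := by exact_mod_cast h1
    have h3 : S.ncard = B.ncard := by omega
    exact_mod_cast h3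
  · intro h1
    have h2 : S.ncard = B.ncard := by exact_mod_cast h1
    rw [h2]
    push_cast
    rfl

/-- Adding a coloop. -/
theorem tconn_coloop (M N : Matroid α) (e : α) (he : e ∉ M.E)
    (h : ∀ B : Set α, N.IsBase B ↔ e ∈ B ∧ M.IsBase (B \ {e})) (hM : TConn M) : TConn N := by
  intro B D hB hD hBD
  have hins : ∀ C : Finset α, M.IsBase (C : Set α) → N.IsBase ((insert e C : Finset α) : Set α) := by
    intro C hC
    have heC : e ∉ (C : Set α) := fun h' => he (hC.subset_ground h')
    rw [h, coe_insert, Set.insert_sdiff_of_mem _ (Set.mem_singleton e),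
      Set.sdiff_singleton_eq_self heC]
    exact ⟨Set.mem_insert e _, hC⟩
  have hsc : ∀ C C' : Fin 3 → Finset α, SameContent C C' →
      SameContent (fun k => insert e (C k)) (fun k => insert e (C' k)) := by
    intro C C' hC z
    by_cases hz : z = e
    · subst hz
      simp
    · have := hC z
      simpa [hz] using this
  have hers : ∀ C C' : Fin 3 → Finset α, SameContent C C' →
      SameContent (fun k => (C k).erase e) (fun k => (C' k).erase e) := by
    intro C C' hC z
    by_cases hz : z = e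
    · subst hz
      simp
    · have := hC z
      simpa [hz] using this
  have h1 := hM (fun k => (B k).erase e) (fun k => (D k).erase e) (fun k => by
      rw [coe_erase]
      exact ((h _).1 (hB k)).2) (fun k => by
      rw [coe_erase]
      exact ((h _).1 (hD k)).2) (hers B D hBD)
  have h2 : Relation.ReflTransGen (ShareStep (fun B : Finset α => N.IsBase (B : Set α)))
      ((fun (C : Fin 3 → Finset α) k => insert e (C k)) (fun k => (B k).erase e))
      ((fun (C : Fin 3 → Finset α) k => insert e (C k)) (fun k => (D k).erase e)) := by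
    refine Relation.ReflTransGen.lift (fun (C : Fin 3 → Finset α) k => insert e (C k)) ?_ _ _ h1
    rintro P Q ⟨hP, hQ, hPQ, i, j, hij⟩
    refine ⟨fun k => hins _ (hP k), fun k => hins _ (hQ k), hsc _ _ hPQ, i, j, ?_⟩
    change insert e (P i) = insert e (Q j)
    rw [hij]
  have h3 : (fun k => insert e ((B k).erase e)) = B := by
    funext k
    exact insert_erase ((h _).1 (hB k)).1
  have h4 : (fun k => insert e ((D k).erase e)) = D := by
    funext k
    exact insert_erase ((h _).1 (hD k)).1
  change Relation.ReflTransGen _ (fun k => insert e ((B k).erase e))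
    (fun k => insert e ((D k).erase e)) at h2
  rw [h3, h4] at h2
  exact h2

/-- FREE EXTENSIONS: if `M'` is the free extension of `M` by `e` then `TConn M → TConn M'`. -/
theorem tconn_freeExt (M M' : Matroid α) (e : α) [M.Finite] (he : e ∉ M.E)
    (h : ∀ B : Set α, M'.IsBase B ↔ (e ∉ B ∧ M.IsBase B) ∨
      (e ∈ B ∧ M.Indep (B \ {e}) ∧ B.encard = M.eRank)) (hM : TConn M) : TConn M' := by
  have hd : Disjoint M.E (Matroid.freeOn ({e} : Set α)).E := by
    rw [Matroid.freeOn_ground]
    exact Set.disjoint_singleton_right.2 he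
  set N := M.disjointSum (Matroid.freeOn {e}) hd with hN
  have hNb : ∀ B : Set α, N.IsBase B ↔ e ∈ B ∧ M.IsBase (B \ {e}) := by
    intro B
    rw [hN, Matroid.disjointSum_isBase_iff, Matroid.freeOn_isBase_iff, Matroid.freeOn_ground]
    constructor
    · rintro ⟨h1, h2, h3⟩
      have h4 : e ∈ B := by
        have : e ∈ B ∩ {e} := by
          rw [h2]
          rfl
        exact this.1
      refine ⟨h4, ?_⟩
      have h5 : B \ {e} = B ∩ M.E := by
        ext x
        constructor
        · rintro ⟨hx, hxe⟩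
          exact ⟨hx, (h3 hx).resolve_right hxe⟩
        · rintro ⟨hx, hxM⟩
          exact ⟨hx, fun hxe => he (by rw [← Set.mem_singleton_iff.1 hxe]; exact hxM)⟩
      rw [h5]
      exact h1
    · rintro ⟨h1, h2⟩
      have h3 : B ⊆ M.E ∪ {e} := by
        intro x hx
        by_cases hxe : x = e
        · exact Or.inr hxe
        · exact Or.inl (h2.subset_ground ⟨hx, hxe⟩)
      have h5 : B \ {e} = B ∩ M.E := by
        ext x
        constructor
        · rintro ⟨hx, hxe⟩
          exact ⟨hx, (h3 hx).resolve_right hxe⟩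
        · rintro ⟨hx, hxM⟩
          exact ⟨hx, fun hxe => he (by rw [← Set.mem_singleton_iff.1 hxe]; exact hxM)⟩
      rw [← h5]
      exact ⟨h2, Set.inter_eq_self_of_subset_right (Set.singleton_subset_iff.2 h1), h3⟩
  have hNfin : N.Finite := by
    refine ⟨?_⟩
    rw [hN, Matroid.disjointSum_ground_eq, Matroid.freeOn_ground]
    exact M.ground_finite.union (Set.finite_singleton e)
  have hNr : N.eRank = M.eRank + 1 := by
    obtain ⟨B, hB⟩ := M.exists_isBase
    have heB : e ∉ B := fun h' => he (hB.subset_ground h')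
    have h1 : N.IsBase (insert e B) := by
      rw [hNb, Set.insert_sdiff_of_mem _ (Set.mem_singleton e), Set.sdiff_singleton_eq_self heB]
      exact ⟨Set.mem_insert e _, hB⟩
    rw [← h1.encard_eq_eRank, ← hB.encard_eq_eRank, Set.encard_insert_of_notMem heB]
  refine tconn_trunc N M' ?_ (tconn_coloop M N e he hNb hM)
  intro B
  rw [h B, hNr, hN, Matroid.disjointSum_indep_iff, Matroid.freeOn_indep_iff, Matroid.freeOn_ground]
  have hMr : M.eRank ≠ ⊤ := by
    obtain ⟨B, hB⟩ := M.exists_isBase
    rw [← hB.encard_eq_eRank, Set.encard_ne_top_iff]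
    exact M.ground_finite.subset hB.subset_ground
  constructor
  · rintro (⟨h1, h2⟩ | ⟨h1, h2, h3⟩)
    · refine ⟨⟨?_, Set.inter_subset_right, h2.subset_ground.trans Set.subset_union_left⟩, ?_⟩
      · exact h2.indep.subset Set.inter_subset_left
      · rw [h2.encard_eq_eRank]
    · refine ⟨⟨?_, Set.inter_subset_right, ?_⟩, by rw [h3]⟩
      · apply h2.subset
        rintro x ⟨hx, hxM⟩
        exact ⟨hx, fun hxe => he (by rw [← Set.mem_singleton_iff.1 hxe]; exact hxM)⟩
      · intro x hx
        by_cases hxe : x = e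
        · exact Or.inr hxe
        · exact Or.inl (h2.subset_ground ⟨hx, hxe⟩)
  · rintro ⟨⟨h1, -, h3⟩, h4⟩
    have h5 : B.encard = M.eRank := by
      have := WithTop.add_right_cancel (by simp : (1 : ℕ∞) ≠ ⊤) h4
      exact this
    by_cases heB : e ∈ B
    · right
      refine ⟨heB, ?_, h5⟩
      apply h1.subset
      rintro x ⟨hx, hxe⟩
      exact ⟨hx, (h3 hx).resolve_right hxe⟩
    · left
      refine ⟨heB, ?_⟩
      have h6 : B ⊆ M.E := by
        intro x hx
        refine (h3 hx).resolve_right ?_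
        intro hxe
        rw [Set.mem_singleton_iff] at hxe
        exact heB (hxe ▸ hx)
      rw [Set.inter_eq_self_of_subset_left h6] at h1
      refine h1.isBase_of_eRk_ge (M.ground_finite.subset h6) ?_
      rw [h1.eRk_eq_encard, h5]

end Pool.Agent.FT56
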