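import Pool.Agent.FT56.ConT
import Pool.Agent.EX91.Fin

/-!
From `TConn M` to `ConS` for all contractions and restrictions of the parallel extension of `M`.

* `ex_basis`: extension of bases.
* `isBase_iff_rk`: bases in terms of the rank function.
* `exists_L`: a set `L` such that the bases `S` of `mc (rr M) I` on `E` are the sets for which `fst` is injective on `S`, and
  `S.image fst`, `L` are disjoint with union a base of `M`.
* `exists_col`: a colouring of `E` with given projections of the blocks.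
* `copy`: two bases with the same projection are in the same class.
* `con_of_tconn`: the statement.
-/

set_option autoImplicit false

namespace Pool.Agent.FT56

open Finset Pool.Agent.DT3 Pool.Agent.CF98 Pool.Agent.WD Pool.Agent.EX91

variable {α : Type*} [DecidableEq α]

theorem ex_basis {ρ : Finset α → ℕ} (h : RankFn ρ) (Z G : Finset α) :
    ∃ J ⊆ G, J.card + ρ Z = ρ (Z ∪ G) ∧ ρ (Z ∪ J) = ρ (Z ∪ G) := by
  induction G using Finset.induction_on with
  | empty => exact ⟨∅, Subset.refl _, by rw [card_empty, zero_add, union_empty], rfl⟩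
  | insert g G hg ih =>
    obtain ⟨J, hJ, h1, h2⟩ := ih
    have h3 := rk_ins_iff h (union_subset_union_right hJ : Z ∪ J ⊆ Z ∪ G) h2 g
    by_cases h4 : ρ (insert g (Z ∪ G)) = ρ (Z ∪ G)
    · refine ⟨J, hJ.trans (subset_insert g G), ?_, ?_⟩
      · rw [union_insert, h4]
        exact h1
      · rw [union_insert, h4]
        exact h2
    · have h5 := ins_eq h h4
      have h6 : ρ (insert g (Z ∪ J)) ≠ ρ (Z ∪ J) := fun e => h4 (h3.1 e)
      have h7 := ins_eq h h6
      refine ⟨insert g J, insert_subset_insert g hJ, ?_, ?_⟩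
      · rw [union_insert, card_insert_of_notMem (fun e => hg (hJ e)), h5]
        omega
      · rw [union_insert, union_insert, h7, h5, h2]

omit [DecidableEq α] in
private theorem OfT_coe (M : Matroid α) (Y : Finset α) :
    ((rkFn M Y : ℕ) : ℕ∞) = M.eRk (Y : Set α) := by
  unfold rkFn
  apply ENat.natCast_toNat
  have h1 := M.eRk_le_encard (Y : Set α)
  have h2 : (Y : Set α).encard ≠ ⊤ := by
    rw [Set.encard_ne_top_iff]
    exact Y.finite_toSet
  exact ne_top_of_le_ne_top h2 h1

omit [DecidableEq α] in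
theorem isBase_iff_rk {M : Matroid α} {g : ℕ} (hf : M.eRank = (g : ℕ∞)) (T : Finset α) :
    M.IsBase (T : Set α) ↔ T.card = g ∧ rkFn M T = g := by
  constructor
  · intro h1
    have h4 : (T.card : ℕ∞) = g := by
      rw [← Set.encard_coe_eq_coe_finsetCard, h1.encard_eq_eRank, hf]
    refine ⟨by exact_mod_cast h4, ?_⟩
    have h6 : ((rkFn M T : ℕ) : ℕ∞) = g := by
      rw [OfT_coe, h1.eRk_eq_eRank, hf]
    exact_mod_cast h6
  · rintro ⟨h1, h2⟩
    have h6 : M.eRk (T : Set α) = g := by
      rw [← OfT_coe, h2]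
    have h7 : M.Indep (T : Set α) := by
      rw [Matroid.indep_iff_eRk_eq_encard_of_finite (finite_toSet _), h6,
        Set.encard_coe_eq_coe_finsetCard, h1]
    refine h7.isBase_of_eRk_ge (finite_toSet _) ?_
    rw [h6, hf]

omit [DecidableEq α] in
theorem rk_le_rank {M : Matroid α} {g : ℕ} (hf : M.eRank = (g : ℕ∞)) (T : Finset α) :
    rkFn M T ≤ g := by
  have h1 : ((rkFn M T : ℕ) : ℕ∞) ≤ g := by
    rw [OfT_coe, ← hf]
    exact M.eRk_le_eRank _
  exact_mod_cast h1

theorem rr_def (M : Matroid α) (X : Finset (α × ℕ)) : rr M X = rkFn M (X.image Prod.fst) := rfl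

theorem exists_L {M : Matroid α} {g : ℕ} (hf : M.eRank = (g : ℕ∞)) (I E : Finset (α × ℕ)) {f : ℕ}
    (hE : Env (mc (rr M) I) E f) : ∃ L : Finset α,
      (∀ S ⊆ E, Bs (mc (rr M) I) f S → M.IsBase ((S.image Prod.fst ∪ L : Finset α) : Set α) ∧
        Disjoint (S.image Prod.fst) L ∧ Set.InjOn Prod.fst (S : Set (α × ℕ))) ∧
      (∀ S ⊆ E, Set.InjOn Prod.fst (S : Set (α × ℕ)) → Disjoint (S.image Prod.fst) L →
        M.IsBase ((S.image Prod.fst ∪ L : Finset α) : Set α) → Bs (mc (rr M) I) f S) := by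
  classical
  have hρ := rkFn_rank M
  set ρ := rkFn M with hρd
  set I' := I.image Prod.fst with hI'
  set E' := E.image Prod.fst with hE'
  obtain ⟨B, hB⟩ := M.exists_isBase
  have hBfin : B.Finite := by
    rw [← Set.encard_ne_top_iff, hB.encard_eq_eRank, hf]
    exact ENat.natCast_ne_top g
  obtain ⟨G, hG⟩ : ∃ G : Finset α, (G : Set α) = B := ⟨hBfin.toFinset, hBfin.coe_toFinset⟩
  have hGg : ρ G = g := ((isBase_iff_rk hf G).1 (by rw [hG]; exact hB)).2
  have hmc : ∀ S : Finset (α × ℕ), mc (rr M) I S = ρ (S.image Prod.fst ∪ I') - ρ I' := by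
    intro S
    show rkFn M ((S ∪ I).image Prod.fst) - rkFn M (I.image Prod.fst) = _
    rw [image_union]
  obtain ⟨I₀, hI₀, hI1, hI2⟩ := ex_basis hρ ∅ I'
  rw [hρ.empty, empty_union, add_zero] at hI1
  rw [empty_union, empty_union] at hI2
  obtain ⟨J₀, hJ₀, hJ1, hJ2⟩ := ex_basis hρ (E' ∪ I') G
  have hg : ρ (E' ∪ I' ∪ G) = g := by
    have h1 := rk_le_rank hf (E' ∪ I' ∪ G)
    have h2 := hρ.mono G (E' ∪ I' ∪ G) subset_union_right
    rw [hGg] at h2
    exact le_antisymm h1 h2
  rw [hg] at hJ1 hJ2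
  have hEr : ρ (E' ∪ I') = f + ρ I' := by
    have h1 := hE.rank
    rw [hmc E] at h1
    change ρ (E' ∪ I') - ρ I' = f at h1
    have h2 := hρ.mono I' (E' ∪ I') subset_union_right
    omega
  refine ⟨I₀ ∪ J₀, ?_, ?_⟩
  · intro S hS hSb
    obtain ⟨hc, hr⟩ := hSb
    rw [hmc S] at hr
    set S' := S.image Prod.fst with hS'
    change S.card = f at hc
    have hS'E : S' ⊆ E' := image_subset_image hS
    have a0 := hρ.mono I' (S' ∪ I') subset_union_right
    have a1 : ρ (S' ∪ I₀) = ρ (S' ∪ I') := by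
      rw [union_comm S' I₀, union_comm S' I']
      exact rk_cup_congr hρ hI₀ hI2 S'
    have a2 : ρ (S' ∪ I₀) = ρ (E' ∪ I') := by omega
    have a3 : ρ (S' ∪ I₀ ∪ J₀) = g := by
      rw [← hJ2]
      exact rk_cup_congr hρ (union_subset_union hS'E hI₀) a2 J₀
    rw [union_assoc] at a3
    have a4 : (S' ∪ (I₀ ∪ J₀)).card ≤ S'.card + (I₀ ∪ J₀).card := card_union_le _ _
    have a5 : (I₀ ∪ J₀).card ≤ I₀.card + J₀.card := card_union_le _ _
    have a6 : S'.card ≤ S.card := card_image_le
    have a7 := hρ.le_card (S' ∪ (I₀ ∪ J₀))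
    refine ⟨?_, ?_, ?_⟩
    · rw [isBase_iff_rk hf]
      refine ⟨by omega, a3⟩
    · rw [← card_union_eq_card_add_card]
      omega
    · rw [← card_image_iff]
      show S'.card = S.card
      omega
  · intro S hS hinj hd hb
    set S' := S.image Prod.fst with hS'
    have hS'E : S' ⊆ E' := image_subset_image hS
    have hcS : S'.card = S.card := card_image_iff.2 hinj
    rw [isBase_iff_rk hf, card_union_of_disjoint hd] at hb
    have a5 : (I₀ ∪ J₀).card ≤ I₀.card + J₀.card := card_union_le _ _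
    have hdI : Disjoint S' I₀ := disjoint_of_subset_right subset_union_left hd
    have a6 : ρ (S' ∪ I₀) = (S' ∪ I₀).card := by
      refine CF98.ind_sub hρ (Y := S' ∪ (I₀ ∪ J₀)) ?_ (union_subset_union_right subset_union_left)
      rw [card_union_of_disjoint hd, hb.1]
      exact hb.2
    rw [card_union_of_disjoint hdI] at a6
    have a7 := hρ.mono (S' ∪ I₀) (E' ∪ I') (union_subset_union hS'E hI₀)
    have a8 := hρ.mono (S' ∪ I₀) (S' ∪ I') (union_subset_union_right hI₀)
    have a9 := hρ.mono (S' ∪ I') (E' ∪ I') (union_subset_union_left hS'E)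
    have hcf : S'.card = f := by omega
    refine ⟨by rw [← hcS]; exact hcf, ?_⟩
    rw [hmc S]
    show ρ (S' ∪ I') - ρ I' = f
    omega

/-- The number of copies of `a` in `E`. -/
theorem count_sl {E : Finset (α × ℕ)} {c : α × ℕ → Fin 3}
    (hinj : ∀ k, Set.InjOn Prod.fst (sl E c k : Set (α × ℕ))) (a : α) :
    (univ.filter fun k => a ∈ (sl E c k).image Prod.fst).card = (E.filter fun x => x.1 = a).card := by
  symm
  refine card_bij (fun x _ => c x) ?_ ?_ ?_
  · intro x hx
    rw [mem_filter] at hx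
    rw [mem_filter, mem_image]
    exact ⟨mem_univ _, x, mem_sl.2 ⟨hx.1, rfl⟩, hx.2⟩
  · intro x hx y hy hxy
    rw [mem_filter] at hx hy
    exact hinj (c x) (mem_coe.2 (mem_sl.2 ⟨hx.1, rfl⟩)) (mem_coe.2 (mem_sl.2 ⟨hy.1, hxy.symm⟩))
      (hx.2.trans hy.2.symm)
  · intro k hk
    rw [mem_filter, mem_image] at hk
    obtain ⟨-, x, hx, hxa⟩ := hk
    rw [mem_sl] at hx
    exact ⟨x, mem_filter.2 ⟨hx.1, hxa⟩, hx.2⟩

theorem exists_col {E : Finset (α × ℕ)} {T : Fin 3 → Finset α}
    (hT : ∀ a, (univ.filter fun k => a ∈ T k).card = (E.filter fun x => x.1 = a).card) :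
    ∃ c : α × ℕ → Fin 3, (∀ k, (sl E c k).image Prod.fst = T k) ∧
      ∀ k, Set.InjOn Prod.fst (sl E c k : Set (α × ℕ)) := by
  classical
  have h1 : ∀ a, ∃ g : α × ℕ → Fin 3,
      Set.BijOn g ((E.filter fun x => x.1 = a : Finset (α × ℕ)) : Set (α × ℕ))
        ((univ.filter fun k => a ∈ T k : Finset (Fin 3)) : Set (Fin 3)) := by
    intro a
    have h2 := (hT a).symm
    obtain ⟨e⟩ : Nonempty ((E.filter fun x => x.1 = a : Finset (α × ℕ)) ≃
        (univ.filter fun k => a ∈ T k : Finset (Fin 3))) := ⟨Finset.equivOfCardEq h2⟩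
    refine ⟨fun x => if hx : x ∈ E.filter (fun x => x.1 = a) then (e ⟨x, hx⟩ : Fin 3) else 0,
      ?_, ?_, ?_⟩
    · intro x hx
      rw [mem_coe] at hx
      simp only [dif_pos hx]
      exact mem_coe.2 (e ⟨x, hx⟩).2
    · intro x hx y hy hxy
      rw [mem_coe] at hx hy
      simp only [dif_pos hx, dif_pos hy] at hxy
      have := e.injective (Subtype.ext hxy)
      exact congrArg Subtype.val this
    · intro k hk
      rw [mem_coe] at hk
      refine ⟨(e.symm ⟨k, hk⟩ : α × ℕ), mem_coe.2 (e.symm ⟨k, hk⟩).2, ?_⟩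
      simp only [dif_pos (e.symm ⟨k, hk⟩).2, Subtype.coe_eta, Equiv.apply_symm_apply]
  choose g hg using h1
  refine ⟨fun x => g x.1 x, ?_, ?_⟩
  · intro k
    ext a
    rw [mem_image]
    constructor
    · rintro ⟨x, hx, rfl⟩
      rw [mem_sl] at hx
      have := (hg x.1).mapsTo (mem_coe.2 (mem_filter.2 ⟨hx.1, rfl⟩))
      rw [mem_coe, mem_filter] at this
      have h3 := this.2
      rw [hx.2] at h3
      exact h3
    · intro ha
      obtain ⟨x, hx, hxk⟩ := (hg a).surjOn (mem_coe.2 (mem_filter.2 ⟨mem_univ k, ha⟩))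
      rw [mem_coe, mem_filter] at hx
      refine ⟨x, mem_sl.2 ⟨hx.1, ?_⟩, hx.2⟩
      rw [hx.2]
      exact hxk
  · intro k x hx y hy hxy
    rw [mem_coe, mem_sl] at hx hy
    have h4 := (hg x.1).injOn (mem_coe.2 (mem_filter.2 ⟨hx.1, rfl⟩))
      (mem_coe.2 (mem_filter.2 ⟨hy.1, hxy.symm⟩))
    apply h4
    rw [hx.2]
    have h5 := hy.2
    rw [← hxy] at h5
    exact h5.symm

/-- Two bases with the same projection are in the same class. -/
theorem copy {E : Finset (α × ℕ)} {r : Finset (α × ℕ) → ℕ} {f : ℕ} {Q : Finset (α × ℕ) → Prop}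
    (hE : Env r E f) (hQ : ∀ A A', Stp r E f A A' → Q A → Q A')
    (hr : ∀ X Y : Finset (α × ℕ), X.image Prod.fst = Y.image Prod.fst → r X = r Y) (i : Fin 3) (n : ℕ) :
    ∀ (c : α × ℕ → Fin 3) (S : Finset (α × ℕ)), (∀ k, Bs r f (sl E c k)) → S ⊆ E →
    S.image Prod.fst = (sl E c i).image Prod.fst → Set.InjOn Prod.fst (S : Set (α × ℕ)) →
    S.card = f → (S \ sl E c i).card ≤ n → Q (sl E c i) → Q S := by
  have hst : ∀ c : α × ℕ → Fin 3, (∀ k, Bs r f (sl E c k)) → ∀ k l, Q (sl E c k) → Q (sl E c l) := by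
    intro c hc k l hq
    by_cases hkl : k = l
    · rw [← hkl]
      exact hq
    · exact hQ _ _ (st_stp hE hc hkl) hq
  induction n with
  | zero =>
    intro c S hc hS him hinj hcard hn hq
    have h1 : S ⊆ sl E c i := by
      rw [← sdiff_eq_empty_iff_subset, ← card_eq_zero]
      omega
    have h2 : S = sl E c i := eq_of_subset_of_card_le h1 (by rw [(hc i).1, hcard])
    rw [h2]
    exact hq
  | succ n ih =>
    intro c S hc hS him hinj hcard hn hq
    by_cases h0 : (S \ sl E c i).card ≤ n
    · exact ih c S hc hS him hinj hcard h0 hq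
    obtain ⟨x, hx⟩ : (S \ sl E c i).Nonempty := by
      rw [← card_pos]
      omega
    rw [mem_sdiff] at hx
    have hxE := hS hx.1
    have hxk : c x ≠ i := fun e => hx.2 (mem_sl.2 ⟨hxE, e⟩)
    obtain ⟨y, hy, hyx⟩ : ∃ y ∈ sl E c i, y.1 = x.1 := by
      have : x.1 ∈ (sl E c i).image Prod.fst := by
        rw [← him]
        exact mem_image_of_mem _ hx.1
      rw [mem_image] at this
      exact this
    have hyE := (mem_sl.1 hy).1
    have hyi := (mem_sl.1 hy).2
    have hyS : y ∉ S := by
      intro hyS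
      have := hinj (mem_coe.2 hyS) (mem_coe.2 hx.1) hyx
      rw [this] at hy
      exact hx.2 hy
    have hxy : x ≠ y := by
      rintro rfl
      exact hx.2 hy
    -- swap `x` and `y`
    obtain ⟨k, hk⟩ : ∃ k, c x = k := ⟨_, rfl⟩
    have hki : k ≠ i := fun e => hxk (hk.trans e)
    have hxk' : x ∈ sl E c k := mem_sl.2 ⟨hxE, hk⟩
    set c' := Function.update (Function.update c x i) y k with hc'
    have e1 : sl E c' i = (insert x (sl E c i)).erase y := by
      rw [hc', sl_update_ne (Ne.symm hki), sl_update_self hxE]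
    have e2 : sl E c' k = insert y ((sl E c k).erase x) := by
      rw [hc', sl_update_self hyE, sl_update_ne hki]
    have e3 : ∀ l, l ≠ i → l ≠ k → sl E c' l = sl E c l := by
      intro l hl hl'
      rw [hc', sl_update_ne hl', sl_update_ne hl]
      ext z
      rw [mem_erase, mem_erase, mem_sl]
      constructor
      · rintro ⟨-, -, h1⟩
        exact h1
      · intro h1
        refine ⟨?_, ?_, h1⟩
        · rintro rfl
          exact hl (h1.2.symm.trans hyi)
        · rintro rfl
          exact hl' (h1.2.symm.trans hk)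
    have i1 : (sl E c' i).image Prod.fst = (sl E c i).image Prod.fst := by
      rw [e1]
      ext a
      simp only [mem_image, mem_erase, mem_insert]
      constructor
      · rintro ⟨z, ⟨-, rfl | hz⟩, rfl⟩
        · exact ⟨y, hy, hyx⟩
        · exact ⟨z, hz, rfl⟩
      · rintro ⟨z, hz, rfl⟩
        by_cases hzy : z = y
        · exact ⟨x, ⟨hxy, Or.inl rfl⟩, by rw [hzy]; exact hyx.symm⟩
        · exact ⟨z, ⟨hzy, Or.inr hz⟩, rfl⟩
    have i2 : (sl E c' k).image Prod.fst = (sl E c k).image Prod.fst := by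
      rw [e2]
      ext a
      simp only [mem_image, mem_erase, mem_insert]
      constructor
      · rintro ⟨z, rfl | ⟨-, hz⟩, rfl⟩
        · exact ⟨x, hxk', hyx.symm⟩
        · exact ⟨z, hz, rfl⟩
      · rintro ⟨z, hz, rfl⟩
        by_cases hzx : z = x
        · exact ⟨y, Or.inl rfl, by rw [hzx]; exact hyx⟩
        · exact ⟨z, Or.inr ⟨hzx, hz⟩, rfl⟩
    have n1 : (sl E c' i).card = (sl E c i).card := by
      rw [e1, card_erase_of_mem (mem_insert_of_mem hy), card_insert_of_notMem hx.2]
      omega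
    have n2 : (sl E c' k).card = (sl E c k).card := by
      have hyk : y ∉ (sl E c k).erase x := by
        rw [mem_erase]
        rintro ⟨-, h1⟩
        exact hki ((mem_sl.1 h1).2.symm.trans hyi)
      rw [e2, card_insert_of_notMem hyk]
      exact card_erase_add_one hxk'
    have hc2 : ∀ l, Bs r f (sl E c' l) := by
      intro l
      by_cases hl : l = i
      · subst hl
        exact ⟨n1.trans (hc l).1, (hr _ _ i1).trans (hc l).2⟩
      · by_cases hl' : l = k
        · subst hl'
          exact ⟨n2.trans (hc l).1, (hr _ _ i2).trans (hc l).2⟩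
        · rw [e3 l hl hl']
          exact hc l
    obtain ⟨l, hl, hl'⟩ := (by decide : ∀ i k : Fin 3, ∃ l, l ≠ i ∧ l ≠ k) i k
    have q1 := hst c hc i l hq
    rw [← e3 l hl hl'] at q1
    have q2 := hst c' hc2 l i q1
    refine ih c' S hc2 hS (him.trans i1.symm) hinj hcard ?_ q2
    have h3 : S \ sl E c' i = (S \ sl E c i).erase x := by
      rw [e1]
      ext z
      simp only [mem_sdiff, mem_erase, mem_insert]
      constructor
      · rintro ⟨hz, h4⟩
        have hzy : z ≠ y := by
          rintro rfl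
          exact hyS hz
        push Not at h4
        have h5 := h4 hzy
        exact ⟨h5.1, hz, h5.2⟩
      · rintro ⟨h4, h5, h6⟩
        refine ⟨h5, ?_⟩
        rintro ⟨-, h7 | h7⟩
        · exact h4 h7
        · exact h6 h7
    rw [h3, card_erase_of_mem (mem_sdiff.2 hx)]
    omega

theorem con_of_tconn {M : Matroid α} {g : ℕ} (hf : M.eRank = (g : ℕ∞)) (hM : TConn M)
    (I E : Finset (α × ℕ)) {f : ℕ} (hE : Env (mc (rr M) I) E f) : ConS (mc (rr M) I) E f := by
  classical
  intro Q hQ A B hA hB hq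
  obtain ⟨L, hL1, hL2⟩ := exists_L hf I E hE
  set r := mc (rr M) I with hrdef
  have hr : ∀ X Y : Finset (α × ℕ), X.image Prod.fst = Y.image Prod.fst → r X = r Y := by
    intro X Y hXY
    show rkFn M ((X ∪ I).image Prod.fst) - rkFn M (I.image Prod.fst) =
      rkFn M ((Y ∪ I).image Prod.fst) - rkFn M (I.image Prod.fst)
    rw [image_union, image_union, hXY]
  have hst : ∀ c : α × ℕ → Fin 3, (∀ k, Bs r f (sl E c k)) → ∀ k l, Q (sl E c k) → Q (sl E c l) := by
    intro c hc k l hq
    by_cases hkl : k = l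
    · rw [← hkl]
      exact hq
    · exact hQ _ _ (st_stp hE hc hkl) hq
  -- the triple of a state
  let tr : (α × ℕ → Fin 3) → Fin 3 → Finset α := fun c k => (sl E c k).image Prod.fst ∪ L
  have htb : ∀ c : α × ℕ → Fin 3, (∀ k, Bs r f (sl E c k)) → ∀ k, M.IsBase (tr c k : Set α) :=
    fun c hc k => (hL1 _ sl_sub (hc k)).1
  have hLE : ∀ a ∈ L, a ∉ E.image Prod.fst := by
    obtain ⟨C, hC, hd, hb, hb'⟩ := gd_parts hE hA
    intro a ha hn
    rw [mem_image] at hn
    obtain ⟨x, hx, rfl⟩ := hn
    have k1 := disjoint_left.1 (hL1 A hA.1 hA.2.1).2.1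
    have k2 := disjoint_left.1 (hL1 C hC hb).2.1
    have k3 := disjoint_left.1 (hL1 _ sdiff_subset hb').2.1
    by_cases h1 : x ∈ A
    · exact k1 (mem_image_of_mem _ h1) ha
    · by_cases h2 : x ∈ C
      · exact k2 (mem_image_of_mem _ h2) ha
      · refine k3 (mem_image_of_mem _ (mem_sdiff.2 ⟨hx, ?_⟩)) ha
        rw [mem_union]
        exact fun h => h.elim h1 h2
  have hcount : ∀ c : α × ℕ → Fin 3, (∀ k, Bs r f (sl E c k)) → ∀ a,
      (univ.filter fun k => a ∈ tr c k).card =
        if a ∈ L then 3 else (E.filter fun x => x.1 = a).card := by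
    intro c hc a
    by_cases ha : a ∈ L
    · rw [if_pos ha]
      have : (univ.filter fun k => a ∈ tr c k) = (univ : Finset (Fin 3)) := by
        rw [filter_eq_self]
        intro k _
        exact mem_union_right _ ha
      rw [this]
      rfl
    · rw [if_neg ha, ← count_sl (fun k => (hL1 _ sl_sub (hc k)).2.2) a]
      congr 1
      apply filter_congr
      intro k _
      show a ∈ (sl E c k).image Prod.fst ∪ L ↔ _
      rw [mem_union]
      exact ⟨fun h => h.resolve_right ha, Or.inl⟩
  -- states for the good bases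
  have hstate : ∀ A, Gd r E f A → ∃ c : α × ℕ → Fin 3, (∀ k, Bs r f (sl E c k)) ∧ sl E c 0 = A := by
    intro A hA
    obtain ⟨C, hC, hd, hb, hb'⟩ := gd_parts hE hA
    have e1 := sl_col hA.1 hC hd
    refine ⟨col A C, ?_, e1.1⟩
    intro i
    fin_cases i
    · show Bs r f (sl E (col A C) 0)
      rw [e1.1]
      exact hA.2.1
    · show Bs r f (sl E (col A C) 1)
      rw [e1.2.1]
      exact hb
    · show Bs r f (sl E (col A C) 2)
      rw [e1.2.2]
      exact hb'
  obtain ⟨cA, hcA, hcA0⟩ := hstate A hA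
  obtain ⟨cB, hcB, hcB0⟩ := hstate B hB
  have hpath := hM (tr cA) (tr cB) (htb cA hcA) (htb cB hcB) (fun a => by
    rw [hcount cA hcA a, hcount cB hcB a])
  -- all copies of a block are in the same class
  have hall : ∀ c : α × ℕ → Fin 3, (∀ k, Bs r f (sl E c k)) → (∃ k, Q (sl E c k)) →
      ∀ k, ∀ S ⊆ E, Set.InjOn Prod.fst (S : Set (α × ℕ)) → Disjoint (S.image Prod.fst) L →
      S.image Prod.fst ∪ L = tr c k → Q S := by
    rintro c hc ⟨k₀, hk₀⟩ k S hS hinj hd hSk
    have h1 : S.image Prod.fst = (sl E c k).image Prod.fst := by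
      have hd' := (hL1 _ sl_sub (hc k)).2.1
      ext a
      have h2 : a ∈ S.image Prod.fst ∪ L ↔ a ∈ (sl E c k).image Prod.fst ∪ L := by
        rw [hSk]
      rw [mem_union, mem_union] at h2
      constructor
      · intro ha
        exact (h2.1 (Or.inl ha)).resolve_right (disjoint_left.1 hd ha)
      · intro ha
        exact (h2.2 (Or.inl ha)).resolve_right (disjoint_left.1 hd' ha)
    have h3 : S.card = f := by
      rw [← card_image_iff.2 hinj, h1, card_image_iff.2 (hL1 _ sl_sub (hc k)).2.2]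
      exact (hc k).1
    exact copy hE hQ hr k _ c S hc hS h1 hinj h3 le_rfl (hst c hc k₀ k hk₀)
  have hmain : ∀ D : Fin 3 → Finset α,
      Relation.ReflTransGen (ShareStep fun S : Finset α => M.IsBase (S : Set α)) (tr cA) D →
      SameContent (tr cA) D ∧ ∀ k, ∀ S ⊆ E, Set.InjOn Prod.fst (S : Set (α × ℕ)) →
        Disjoint (S.image Prod.fst) L → S.image Prod.fst ∪ L = D k → Q S := by
    intro D hD
    induction hD with
    | refl => exact ⟨fun _ => rfl, hall cA hcA ⟨0, by rw [hcA0]; exact hq⟩⟩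
    | @tail D D' _ hs ih =>
      obtain ⟨hb1, hb2, hsc, i, j, hij⟩ := hs
      have hsc' : SameContent (tr cA) D' := fun a => (ih.1 a).trans (hsc a)
      have hLD : ∀ k, L ⊆ D' k := by
        intro k a ha
        have h1 := hsc' a
        rw [hcount cA hcA a, if_pos ha] at h1
        have h2 : (univ.filter fun k => a ∈ D' k) = (univ : Finset (Fin 3)) :=
          eq_univ_of_card _ (by rw [← h1]; rfl)
        have h3 : k ∈ (univ.filter fun k => a ∈ D' k) := by
          rw [h2]
          exact mem_univ k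
        exact (mem_filter.1 h3).2
      obtain ⟨c, hc1, hc2⟩ := exists_col (E := E) (T := fun k => D' k \ L) (by
        intro a
        by_cases ha : a ∈ L
        · have h1 : (univ.filter fun k => a ∈ D' k \ L) = ∅ := by
            rw [filter_eq_empty_iff]
            intro k _ h2
            exact (mem_sdiff.1 h2).2 ha
          have h3 : (E.filter fun x => x.1 = a) = ∅ := by
            rw [filter_eq_empty_iff]
            intro x hx h4
            exact hLE a ha (by rw [← h4]; exact mem_image_of_mem _ hx)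
          rw [h1, h3, card_empty, card_empty]
        · have h1 := hsc' a
          rw [hcount cA hcA a, if_neg ha] at h1
          rw [h1]
          congr 1
          apply filter_congr
          intro k _
          rw [mem_sdiff]
          exact ⟨fun h => h.1, fun h => ⟨h, ha⟩⟩)
      have hun : ∀ k, (sl E c k).image Prod.fst ∪ L = D' k := by
        intro k
        rw [hc1 k]
        exact sdiff_union_of_subset (hLD k)
      have hdis : ∀ k, Disjoint ((sl E c k).image Prod.fst) L := by
        intro k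
        rw [hc1 k]
        exact sdiff_disjoint
      have hcb : ∀ k, Bs r f (sl E c k) := by
        intro k
        refine hL2 _ sl_sub (hc2 k) (hdis k) ?_
        rw [hun k]
        exact hb2 k
      have hqj : Q (sl E c j) := ih.2 i _ sl_sub (hc2 j) (hdis j) (by rw [hun j, hij])
      refine ⟨hsc', ?_⟩
      intro k S hS hinj hd hSk
      exact hall c hcb ⟨j, hqj⟩ k S hS hinj hd (by
        rw [hSk]
        exact (hun k).symm)
  have hfin := (hmain _ hpath).2 0 (sl E cB 0) sl_sub (hL1 _ sl_sub (hcB 0)).2.2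
    (hL1 _ sl_sub (hcB 0)).2.1 rfl
  rw [hcB0] at hfin
  exact hfin

end Pool.Agent.FT56
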