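import Pool.Agent.FT56.Tri

/-!
SHARE-D: for a fixed block `D` of a partition of the second kind all blocks `B` have one colour.
-/

set_option autoImplicit false

namespace Pool.Agent.FT56

open Finset Pool.Agent.DT3 Pool.Agent.CF98

variable {β : Type*} [DecidableEq β] {a b t : Finset β → ℕ} {E : Finset β} {f : ℕ} {Q : Finset β → Prop}

theorem Tri.symm {D B A : Finset β} (h : Tri a b E f D B A) :
    D ⊆ E ∧ B ⊆ E ∧ A ⊆ E ∧ E \ D = B ∪ A := by
  have h1 := disjoint_left.1 h.db
  have h2 := disjoint_left.1 h.da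
  refine ⟨?_, ?_, ?_, ?_⟩
  · rw [← h.un]
    exact subset_union_left.trans subset_union_left
  · rw [← h.un]
    exact subset_union_right.trans subset_union_left
  · rw [← h.un]
    exact subset_union_right
  · rw [← h.un]
    ext x
    simp only [mem_sdiff, mem_union]
    constructor
    · rintro ⟨(h3 | h3) | h3, h4⟩
      · exact absurd h3 h4
      · exact Or.inl h3
      · exact Or.inr h3
    · rintro (h3 | h3)
      · exact ⟨Or.inl (Or.inr h3), fun h4 => h1 h4 h3⟩
      · exact ⟨Or.inr h3, fun h4 => h2 h4 h3⟩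

/-- The colour of `D.erase c` is the colour of `B`, if `c` is not in the closure of `A`. -/
theorem tri_colour (h : AB a b) (ht : ∀ X ⊆ E, t X = min (a X) (b X - 1)) (hE : Env t E f)
    (hQ : ∀ S S', Stp t E f S S' → Q S → Q S') {D B A : Finset β} (h1 : Tri a b E f D B A) {c : β}
    (hc : c ∈ D) (hD : t (D.erase c) = f) (hA : a (insert c A) ≠ a A) : Q B ↔ Q (D.erase c) := by
  obtain ⟨g1, g2, g3, g4⟩ := h1.symm
  have hcA : c ∉ A := fun h2 => disjoint_left.1 h1.da hc h2
  have hcB : c ∉ B := fun h2 => disjoint_left.1 h1.db hc h2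
  have k1 := card_erase_of_mem hc
  have k2 := h1.d1
  have hDc : D.erase c ⊆ E := (erase_subset c D).trans g1
  have hBB : Bs t f B := by
    refine ⟨h1.b1, ?_⟩
    rw [ht B g2, h1.b2]
    have := h1.b3
    omega
  have hDD : Bs t f (D.erase c) := ⟨by omega, hD⟩
  have hAA : Bs t f (insert c A) := by
    refine ⟨by rw [card_insert_of_notMem hcA]; exact h1.a1, ?_⟩
    rw [ht _ (insert_subset (g1 hc) g3)]
    have k3 := h.ra.insert_le c A
    have k4 := h.ra.mono A (insert c A) (subset_insert c A)
    have k5 := h.mono A (insert c A) (subset_insert c A)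
    have k6 := h1.a2
    have k7 := h1.a3
    omega
  have e : E \ (B ∪ D.erase c) = insert c A := by
    rw [← h1.un]
    have m1 := disjoint_left.1 h1.db
    have m2 := disjoint_left.1 h1.da
    have m3 := disjoint_left.1 h1.ba
    ext x
    simp only [mem_sdiff, mem_union, mem_erase, mem_insert, not_or, not_and, ne_eq]
    constructor
    · rintro ⟨(h3 | h3) | h3, h4, h5⟩
      · by_cases h6 : x = c
        · exact Or.inl h6
        · exact absurd h3 (h5 h6)
      · exact absurd h3 h4
      · exact Or.inr h3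
    · rintro (h3 | h3)
      · rw [h3]
        exact ⟨Or.inl (Or.inl hc), hcB, fun h4 => absurd rfl h4⟩
      · exact ⟨Or.inr h3, fun h4 => m3 h4 h3, fun _ h4 => m2 h4 h3⟩
  have hs := gd_stp hE g2 hBB hDc (disjoint_left.2 (fun x hx hx' =>
    disjoint_left.1 h1.db (mem_of_mem_erase hx') hx)) hDD (by rw [e]; exact hAA)
  exact ⟨hQ _ _ hs, hQ _ _ (stp_symm hs)⟩

theorem share_d (h : AB a b) (hb : ∀ X, 1 ≤ b X) (ht : ∀ X ⊆ E, t X = min (a X) (b X - 1)) (hE : Env t E f)
    (hQ : ∀ S S', Stp t E f S S' → Q S → Q S') {D B A B' A' : Finset β}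
    (h1 : Tri a b E f D B A) (h2 : Tri a b E f D B' A') (hq : Q B) : Q B' := by
  classical
  by_contra hq'
  have hr := hE.rk
  obtain ⟨g1, g2, g3, g4⟩ := h1.symm
  obtain ⟨_, g2', g3', g4'⟩ := h2.symm
  -- two parts
  have htwo : ∀ B A, Tri a b E f D B A → ∀ X ⊆ E \ D, (X ∩ A).card ≤ t (X ∩ A) ∧ (X ∩ B).card ≤ t (X ∩ B) ∧
      X.card = (X ∩ B).card + (X ∩ A).card := by
    intro B A h1 X hX
    obtain ⟨g1, g2, g3, g4⟩ := h1.symm
    have m3 := disjoint_left.1 h1.ba
    refine ⟨?_, ?_, ?_⟩
    · have k1 : t A = A.card := by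
        rw [ht A g3]
        have := h1.a1
        have := h1.a2
        have := h1.a3
        omega
      exact (CF98.ind_sub hr k1 inter_subset_right).ge
    · have k1 : t B = B.card := by
        rw [ht B g2]
        have := h1.b1
        have := h1.b2
        have := h1.b3
        omega
      exact (CF98.ind_sub hr k1 inter_subset_right).ge
    · rw [← card_union_of_disjoint]
      · rw [← inter_union_distrib_left, ← g4, inter_eq_left.2 hX]
      · exact disjoint_of_subset_left inter_subset_right (disjoint_of_subset_right inter_subset_right h1.ba)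
  have hY2 : ∀ X ⊆ E \ D, X.card ≤ 2 * t X := by
    intro X hX
    obtain ⟨k1, k2, k3⟩ := htwo B A h1 X hX
    have k4 := hr.mono (X ∩ A) X inter_subset_left
    have k5 := hr.mono (X ∩ B) X inter_subset_left
    omega
  -- the largest tight set
  obtain ⟨W, hWm, hWmax⟩ := Finset.exists_max_image ((E \ D).powerset.filter fun X => X.card = 2 * t X)
    Finset.card ⟨∅, by
      rw [mem_filter, mem_powerset]
      exact ⟨empty_subset _, by rw [card_empty, hr.empty]⟩⟩
  rw [mem_filter, mem_powerset] at hWm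
  obtain ⟨hW, hWc⟩ := hWm
  have hWE : W ⊆ E := hW.trans sdiff_subset
  have hs : ∀ X ⊆ (E \ D) \ W, X.Nonempty → X.card + 1 + 2 * t W ≤ 2 * t (X ∪ W) := by
    intro X hX hne
    have hXD : X ∪ W ⊆ E \ D := union_subset (hX.trans sdiff_subset) hW
    have k1 := hY2 _ hXD
    have k2 : (X ∪ W).card = X.card + W.card := card_union_of_disjoint
      (disjoint_left.2 (fun x hx hx' => (mem_sdiff.1 (hX hx)).2 hx'))
    have k3 := hne.card_pos
    by_contra hcon
    have k4 : (X ∪ W).card = 2 * t (X ∪ W) := by omega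
    have k5 := hWmax (X ∪ W) (by rw [mem_filter, mem_powerset]; exact ⟨hXD, k4⟩)
    omega
  -- `W` is in the closure of `A`
  have hWA : ∀ B A, Tri a b E f D B A → (∀ x ∈ W, a (insert x A) = a A) ∧ t W = a W ∧ a W + 2 ≤ b W := by
    intro B A h1
    obtain ⟨g1, g2, g3, g4⟩ := h1.symm
    obtain ⟨k1, k2, k3⟩ := htwo B A h1 W hW
    have k4 := hr.mono (W ∩ A) W inter_subset_left
    have k5 := hr.mono (W ∩ B) W inter_subset_left
    have k6 : (W ∩ A).card = t W := by omega
    have k7 : a A = A.card := by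
      have := h1.a1
      have := h1.a2
      omega
    have k8 := CF98.ind_sub h.ra k7 (inter_subset_right : W ∩ A ⊆ A)
    have k9 := h.dim (W ∩ A) A inter_subset_right
    have k10 := h.mono (W ∩ A) W inter_subset_left
    have k11 := h.ra.mono (W ∩ A) W inter_subset_left
    have k12 := ht W hWE
    have k13 := h1.a1
    have k14 := h1.a2
    have k15 := h1.a3
    have k16 : a (W ∩ A) = a W := by omega
    refine ⟨?_, by omega, by omega⟩
    intro x hx
    have k17 : a (insert x (W ∩ A)) = a (W ∩ A) := by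
      have k18 := h.ra.mono (W ∩ A) (insert x (W ∩ A)) (subset_insert _ _)
      have k19 := h.ra.mono (insert x (W ∩ A)) W (insert_subset hx inter_subset_left)
      omega
    exact ins_mono h.ra (inter_subset_right : W ∩ A ⊆ A) k17
  obtain ⟨w1, w2, w3⟩ := hWA B A h1
  obtain ⟨w1', _, _⟩ := hWA B' A' h2
  set X1 : Finset β := D.filter fun c => t (insert c W) ≠ t W ∧ t (D.erase c) = f ∧ Q (D.erase c) with hX1
  set X2 : Finset β := D.filter fun c => t (insert c W) ≠ t W ∧ t (D.erase c) = f ∧ ¬ Q (D.erase c) with hX2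
  have hstar := star_flat (X1 := X1) (X2 := X2) hE hQ g1 h1.d1 hW hWc
    (fun X hX => hY2 X (hX.trans hW)) hs (filter_subset _ _) (filter_subset _ _)
    (fun x hx => (mem_filter.1 hx).2) (fun x hx => (mem_filter.1 hx).2)
  -- `X2` is in the closure of `A`, `X1` in the closure of `A'`
  have hcl2 : ∀ x ∈ X2, a (insert x A) = a A := by
    intro x hx
    have k1 := mem_filter.1 hx
    by_contra hcon
    exact k1.2.2.2 ((tri_colour h ht hE hQ h1 k1.1 k1.2.2.1 hcon).1 hq)
  have hcl1 : ∀ x ∈ X1, a (insert x A') = a A' := by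
    intro x hx
    have k1 := mem_filter.1 hx
    by_contra hcon
    exact hq' ((tri_colour h ht hE hQ h2 k1.1 k1.2.2.1 hcon).2 k1.2.2.2)
  have hbig : ∀ (A X : Finset β), (∀ x ∈ W ∪ X, a (insert x A) = a A) → a A + 2 ≤ b A →
      a (W ∪ X) + 2 ≤ b (W ∪ X) := by
    intro A X hA hAb
    have k1 := rank_union h.ra hA
    have k2 := h.dim (W ∪ X) (A ∪ (W ∪ X)) subset_union_right
    have k3 := h.mono A (A ∪ (W ∪ X)) subset_union_left
    omega
  have c1 := hbig A' X1 (by
    intro x hx
    rcases mem_union.1 hx with hx | hx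
    · exact w1' x hx
    · exact hcl1 x hx) (by
    have := h2.a2
    have := h2.a3
    omega)
  have c2 := hbig A X2 (by
    intro x hx
    rcases mem_union.1 hx with hx | hx
    · exact w1 x hx
    · exact hcl2 x hx) (by
    have := h1.a2
    have := h1.a3
    omega)
  -- `D` spans the fixed set, hence so does `W ∪ (X1 ∪ X2)`
  have hDa : a D = D.card := by rw [h1.d1, h1.d2]
  have hspan := h.cF_span hDa (by rw [h1.d2, h1.d3])
  have hY : b (W ∪ (X1 ∪ X2)) = a (W ∪ (X1 ∪ X2)) := by
    refine h.up' hspan ?_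
    intro c hc
    obtain ⟨hcD, hcb⟩ := mem_cF.1 hc
    have k1 : a (D.erase c) = f := by
      rw [CF98.ind_sub h.ra hDa (erase_subset c D), card_erase_of_mem hcD, h1.d1]
      rfl
    have k2 := h.le (D.erase c)
    have k3 := h.mono (D.erase c) D (erase_subset c D)
    have k4 := h1.d3
    have k5 : t (D.erase c) = f := by
      rw [ht _ ((erase_subset c D).trans g1)]
      omega
    by_cases k6 : t (insert c W) = t W
    · have k7 : a (insert c W) = a W := by
        have k8 := ht (insert c W) (insert_subset (g1 hcD) hWE)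
        have k9 := h.mono W (insert c W) (subset_insert c W)
        have k10 := h.ra.mono W (insert c W) (subset_insert c W)
        omega
      exact ins_mono h.ra (subset_union_left : W ⊆ W ∪ (X1 ∪ X2)) k7
    · have k7 : c ∈ X1 ∪ X2 := by
        rw [mem_union]
        by_cases k8 : Q (D.erase c)
        · exact Or.inl (mem_filter.2 ⟨hcD, k6, k5, k8⟩)
        · exact Or.inr (mem_filter.2 ⟨hcD, k6, k5, k8⟩)
      rw [insert_eq_of_mem (mem_union_right _ k7)]
  have hX1E : W ∪ X1 ⊆ E := union_subset hWE ((filter_subset _ _).trans g1)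
  have hX2E : W ∪ X2 ⊆ E := union_subset hWE ((filter_subset _ _).trans g1)
  have hYE : W ∪ (X1 ∪ X2) ⊆ E := union_subset hWE
    (union_subset ((filter_subset _ _).trans g1) ((filter_subset _ _).trans g1))
  have t1 := ht _ hX1E
  have t2 := ht _ hX2E
  have t3 := ht _ hYE
  have sb := h.ra.submod (W ∪ X1) (W ∪ X2)
  have e1 : W ∪ X1 ∪ (W ∪ X2) = W ∪ (X1 ∪ X2) := by
    ext x
    simp only [mem_union]
    tauto
  have e2 := h.ra.mono W ((W ∪ X1) ∩ (W ∪ X2)) (subset_inter subset_union_left subset_union_left)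
  rw [e1] at sb
  have hb1 := hb (W ∪ (X1 ∪ X2))
  omega

end Pool.Agent.FT56
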