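import Pool.Agent.FT56.ConT
import Pool.Agent.WT59.Tstar

/-!
The two exchange lemmas for a system `(r, E, f)` of three blocks.

* `skew_sharp`: the lemma (T*#) for a circuit `Z` of the twofold union (`WT59.skewK` for the dual of `Z`).
* `star_sharp`: `V` has `f - 1` elements, `Z` is the circuit of the twofold union in `E \ V`.
* `star_flat`: `D` has `f + 1` elements, `W` is the largest tight subset of `E \ D` (`WT59.tstar`).
-/

set_option autoImplicit false

namespace Pool.Agent.FT56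

open Finset Pool.Agent.DT3 Pool.Agent.CF98 Pool.Agent.WT59

variable {β : Type*} [DecidableEq β] {r : Finset β → ℕ} {E : Finset β} {f : ℕ} {Q : Finset β → Prop}

theorem skew_sharp (h : RankFn r) {Z X1 X2 : Finset β} (hZ : Z.card = 2 * r Z + 1)
    (hs : ∀ X ⊆ Z, X ≠ Z → X.card ≤ 2 * r X) (h1 : X1 ⊆ Z) (h2 : X2 ⊆ Z) (hd : Disjoint X1 X2)
    (hJ : ∀ J ⊆ Z, J.card = r Z → r J = r Z → r (Z \ J) = r Z →
      (∀ x ∈ X1, x ∉ J → r ((Z \ J).erase x) ≠ r Z) ∨ (∀ x ∈ X2, x ∉ J → r ((Z \ J).erase x) ≠ r Z)) :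
    r (Z \ X1) + r (Z \ X2) = r Z + r (Z \ (X1 ∪ X2)) := by
  have hp := rk_dual h Z
  have hge : ∀ X ⊆ Z, r Z ≤ X.card + r (Z \ X) := by
    intro X hX
    have h3 := rk_le_union_card h (Z \ X) X
    rw [sdiff_union_of_subset hX] at h3
    omega
  have hval : ∀ X ⊆ Z, (X ∩ Z).card + r (Z \ X) - r Z = X.card + r (Z \ X) - r Z := by
    intro X hX
    rw [inter_eq_left.2 hX]
  have h12 : X1 ∪ X2 ⊆ Z := union_subset h1 h2
  have hZZ : (Z ∩ Z).card + r (Z \ Z) - r Z = r Z + 1 := by
    rw [inter_self, sdiff_self, bot_eq_empty, h.empty]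
    omega
  have hpos : ∀ x ∈ Z, 0 < (({x} : Finset β) ∩ Z).card + r (Z \ {x}) - r Z := by
    intro x hx
    have hxZ : ({x} : Finset β) ⊆ Z := singleton_subset_iff.2 hx
    rw [hval _ hxZ, card_singleton]
    have h3 : Z \ {x} ≠ Z := by
      intro h'
      have : x ∈ Z \ {x} := by
        rw [h']
        exact hx
      exact (mem_sdiff.1 this).2 (mem_singleton_self x)
    have h4 := hs (Z \ {x}) sdiff_subset h3
    have h5 := card_sdiff_add_card_eq_card hxZ
    rw [card_singleton] at h5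
    omega
  have hmain := skewK (r := fun X => (X ∩ Z).card + r (Z \ X) - r Z)
    (k := fun X => (X ∩ Z).card + r (Z \ X) - r Z) (Y := Z) (X1 := X1) (X2 := X2) (f := r Z + 1)
    (g := r Z + 1) hp hp (by omega) hZZ (by
      intro X hX hXne
      rw [hval X hX]
      have h3 : Z \ X ≠ Z := by
        intro h'
        obtain ⟨x, hx⟩ := hXne
        have : x ∈ Z \ X := by
          rw [h']
          exact hX hx
        exact (mem_sdiff.1 this).2 hx
      have h4 := hs (Z \ X) sdiff_subset h3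
      have h5 := card_sdiff_add_card_eq_card hX
      have h6 := hge X hX
      omega) (fun x hx => hpos x (h12 hx)) (by
      intro x hx
      rw [union_eq_left.2 h12] at hx
      rw [insert_eq_of_mem hx]
      exact hZZ) (by
      rw [union_eq_left.2 h12]
      exact hZZ) (by omega) hpos (by
      intro J hJZ hJ1 hJ2 hJ3
      rw [hval J hJZ] at hJ2
      rw [hval _ sdiff_subset, Finset.sdiff_sdiff_eq_self hJZ] at hJ3
      have h5 := card_sdiff_add_card_eq_card hJZ
      have h6 := hge J hJZ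
      have h7 := hge (Z \ J) sdiff_subset
      rw [Finset.sdiff_sdiff_eq_self hJZ] at h7
      have hc : J.card = r Z := by omega
      have hr : r (Z \ J) = r Z := by
        have := h.mono (Z \ J) Z sdiff_subset
        omega
      have hr' : r J = r Z := by
        have := h.mono J Z hJZ
        omega
      have key : ∀ x ∈ Z, (x ∉ J → r ((Z \ J).erase x) ≠ r Z) →
          (insert x J ∩ Z).card + r (Z \ insert x J) - r Z = (J ∩ Z).card + r (Z \ J) - r Z := by
        intro x hxZ hx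
        by_cases hxJ : x ∈ J
        · rw [insert_eq_of_mem hxJ]
        · have h8 := hx hxJ
          have h9 : Z \ insert x J = (Z \ J).erase x := by
            ext z
            simp only [mem_sdiff, mem_insert, mem_erase]
            tauto
          rw [hval _ (insert_subset hxZ hJZ), hval J hJZ, h9, card_insert_of_notMem hxJ]
          have h10 : insert x ((Z \ J).erase x) = Z \ J := insert_erase (mem_sdiff.2 ⟨hxZ, hxJ⟩)
          have h11 := h.insert_le x ((Z \ J).erase x)
          rw [h10] at h11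
          have h12 := h.mono ((Z \ J).erase x) Z ((erase_subset _ _).trans sdiff_subset)
          omega
      rcases hJ J hJZ hc hr' hr with h8 | h8
      · exact Or.inl fun x hx => key x (h1 hx) (h8 x hx)
      · exact Or.inr fun x hx => key x (h2 hx) (h8 x hx))
  rw [hval _ h1, hval _ h2, hval _ h12, card_union_of_disjoint hd] at hmain
  have h3 := hge _ h1
  have h4 := hge _ h2
  have h5 := hge _ h12
  rw [card_union_of_disjoint hd] at h5
  omega

/-- (T*#) in a system of three blocks. -/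
theorem star_sharp (hE : Env r E f) (hQ : ∀ A A', Stp r E f A A' → Q A → Q A') {V Z X1 X2 : Finset β}
    (hV : V ⊆ E) (hVc : V.card + 1 = f) (hVr : r V + 1 = f) (hZ : Z ⊆ E \ V)
    (hZc : Z.card = 2 * r Z + 1) (hZs : ∀ X ⊆ Z, X ≠ Z → X.card ≤ 2 * r X)
    (hY : ∀ X ⊆ E \ V, X.card ≤ 2 * r X + 1) (h1 : X1 ⊆ Z) (h2 : X2 ⊆ Z)
    (hX1 : ∀ x ∈ X1, r (insert x V) ≠ r V ∧ Q (insert x V))
    (hX2 : ∀ x ∈ X2, r (insert x V) ≠ r V ∧ ¬ Q (insert x V)) :
    r (Z \ X1) + r (Z \ X2) = r Z + r (Z \ (X1 ∪ X2)) := by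
  have h := hE.rk
  have hd : Disjoint X1 X2 := by
    rw [disjoint_left]
    intro x hx hx'
    exact (hX2 x hx').2 (hX1 x hx).2
  refine skew_sharp h hZc hZs h1 h2 hd ?_
  intro J hJZ hJc hJr hJr'
  by_contra hcon
  rw [not_or] at hcon
  obtain ⟨ha, hb⟩ := hcon
  push Not at ha hb
  obtain ⟨x, hx, hxJ, hxr⟩ := ha
  obtain ⟨y, hy, hyJ, hyr⟩ := hb
  set L := (E \ V) \ Z with hL
  have hZf : r Z ≤ f := by
    have := h.mono Z E (hZ.trans sdiff_subset)
    rw [hE.rank] at this
    exact this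
  have c1 := card_sdiff_add_card_eq_card hV
  have c2 := card_sdiff_add_card_eq_card hZ
  have c3 := hE.card
  have hLc : L.card = 2 * (f - r Z) := by
    rw [hL]
    omega
  have hge : ∀ X : Finset β, r Z ≤ r (X ∪ Z) := fun X => h.mono _ _ subset_union_right
  have hLZ : Disjoint L Z := sdiff_disjoint
  obtain ⟨L1, hL1, b1, b2⟩ := two_parts (r := fun X => r (X ∪ Z) - r Z) (D := L) (f := f - r Z)
    (contr_rank h Z) hLc (by
      intro X hX
      show X.card ≤ 2 * (r (X ∪ Z) - r Z)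
      have h3 := hY (X ∪ Z) (union_subset (hX.trans sdiff_subset) hZ)
      rw [card_union_of_disjoint (disjoint_of_subset_left hX hLZ)] at h3
      have h4 := hge X
      omega) (by
      intro X hX
      show r (X ∪ Z) - r Z ≤ f - r Z
      have h3 := h.mono (X ∪ Z) E (union_subset ((hX.trans sdiff_subset).trans sdiff_subset)
        (hZ.trans sdiff_subset))
      rw [hE.rank] at h3
      omega)
  obtain ⟨b1c, b1r⟩ := b1
  obtain ⟨b2c, b2r⟩ := b2
  change r (L1 ∪ Z) - r Z = f - r Z at b1r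
  change r ((L \ L1) ∪ Z) - r Z = f - r Z at b2r
  have g1 := hge L1
  have g2 := hge (L \ L1)
  -- the common block
  have hC : Bs r f (J ∪ L1) := by
    refine ⟨?_, ?_⟩
    · rw [card_union_of_disjoint]
      · omega
      · exact (disjoint_of_subset_left hL1 (disjoint_of_subset_right hJZ hLZ)).symm
    · rw [rk_cup_congr h hJZ hJr L1, union_comm]
      omega
  have hLE : L ⊆ E := sdiff_subset.trans sdiff_subset
  have hZE : Z ⊆ E := hZ.trans sdiff_subset
  have hLV : ∀ z ∈ L, z ∉ V := fun z hz => (mem_sdiff.1 (mem_sdiff.1 hz).1).2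
  have hLZ' : ∀ z ∈ L, z ∉ Z := fun z hz => (mem_sdiff.1 hz).2
  have hZV : ∀ z ∈ Z, z ∉ V := fun z hz => (mem_sdiff.1 (hZ hz)).2
  have hCE : J ∪ L1 ⊆ E := union_subset (hJZ.trans hZE) (hL1.trans hLE)
  have key : ∀ z ∈ Z, z ∉ J → r ((Z \ J).erase z) = r Z → r (insert z V) ≠ r V →
      Stp r E f (insert z V) (J ∪ L1) := by
    intro z hz hzJ hzr hzV
    have hzV' := hZV z hz
    have hA : Bs r f (insert z V) := by
      refine ⟨?_, ?_⟩
      · rw [card_insert_of_notMem hzV', hVc]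
      · rw [rk_ins_ne h hzV, hVr]
    refine gd_stp hE (insert_subset (hZE hz) hV) hA hCE ?_ hC ?_
    · rw [disjoint_left]
      intro w hw hw'
      rcases mem_union.1 hw' with hw' | hw'
      · rcases mem_insert.1 hw with rfl | hw
        · exact hzJ hw'
        · exact hZV w (hJZ hw') hw
      · rcases mem_insert.1 hw with rfl | hw
        · exact hLZ' w (hL1 hw') hz
        · exact hLV w (hL1 hw') hw
    · have e : E \ (insert z V ∪ (J ∪ L1)) = ((Z \ J).erase z) ∪ (L \ L1) := by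
        ext w
        simp only [mem_sdiff, mem_union, mem_insert, mem_erase, hL]
        constructor
        · rintro ⟨hwE, hn⟩
          by_cases hwZ : w ∈ Z
          · exact Or.inl ⟨fun e => hn (Or.inl (Or.inl e)), hwZ, fun e => hn (Or.inr (Or.inl e))⟩
          · exact Or.inr ⟨⟨⟨hwE, fun e => hn (Or.inl (Or.inr e))⟩, hwZ⟩,
              fun e => hn (Or.inr (Or.inr e))⟩
        · rintro (⟨h3, h4, h5⟩ | ⟨⟨⟨h3, h4⟩, h5⟩, h6⟩)
          · refine ⟨hZE h4, ?_⟩
            rintro ((h6 | h6) | (h6 | h6))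
            · exact h3 h6
            · exact hZV w h4 h6
            · exact h5 h6
            · exact hLZ' w (hL1 h6) h4
          · refine ⟨h3, ?_⟩
            rintro ((h7 | h7) | (h7 | h7))
            · exact h5 (h7 ▸ hz)
            · exact h4 h7
            · exact h5 (hJZ h7)
            · exact h6 h7
      rw [e]
      have hzm : z ∈ Z \ J := mem_sdiff.2 ⟨hz, hzJ⟩
      have c4 := card_sdiff_add_card_eq_card hJZ
      have c5 := card_erase_add_one hzm
      refine ⟨?_, ?_⟩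
      · rw [card_union_of_disjoint]
        · omega
        · rw [disjoint_left]
          intro w hw hw'
          exact hLZ' w (mem_sdiff.1 hw').1 (mem_sdiff.1 (mem_of_mem_erase hw)).1
      · rw [rk_cup_congr h ((erase_subset z (Z \ J)).trans sdiff_subset) hzr (L \ L1), union_comm]
        omega
  have s1 := key x (h1 hx) hxJ hxr (hX1 x hx).1
  have s2 := key y (h2 hy) hyJ hyr (hX2 y hy).1
  exact (hX2 y hy).2 (hQ _ _ (stp_symm s2) (hQ _ _ s1 (hX1 x hx).2))

/-- (T*) in a system of three blocks. -/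
theorem star_flat (hE : Env r E f) (hQ : ∀ A A', Stp r E f A A' → Q A → Q A') {D W X1 X2 : Finset β}
    (hD : D ⊆ E) (hDc : D.card = f + 1) (hW : W ⊆ E \ D) (hWc : W.card = 2 * r W)
    (hW2 : ∀ X ⊆ W, X.card ≤ 2 * r X)
    (hs : ∀ X ⊆ (E \ D) \ W, X.Nonempty → X.card + 1 + 2 * r W ≤ 2 * r (X ∪ W))
    (h1 : X1 ⊆ D) (h2 : X2 ⊆ D)
    (hX1 : ∀ x ∈ X1, r (insert x W) ≠ r W ∧ r (D.erase x) = f ∧ Q (D.erase x))
    (hX2 : ∀ x ∈ X2, r (insert x W) ≠ r W ∧ r (D.erase x) = f ∧ ¬ Q (D.erase x)) :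
    r (W ∪ X1) + r (W ∪ X2) = r (W ∪ (X1 ∪ X2)) + r W := by
  have h := hE.rk
  have hWE : W ⊆ E := hW.trans sdiff_subset
  obtain ⟨B0, hB0, b1, b2⟩ := two_parts (r := r) (D := W) (f := r W) h hWc hW2
    (fun X hX => h.mono X W hX)
  have hst : ∀ A B C, St r r r E A B C → A ⊆ E ∧ B ⊆ E ∧ C ⊆ E ∧ Bs r f A ∧ Bs r f B ∧ Bs r f C ∧
      Disjoint A B ∧ Disjoint A C ∧ Disjoint B C ∧ E \ (A ∪ B) = C ∧ E \ (A ∪ C) = B := by
    intro A B C hs
    have k1 := disjoint_left.1 hs.dab
    have k2 := disjoint_left.1 hs.dac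
    have k3 := disjoint_left.1 hs.dbc
    refine ⟨hs.subA, hs.subB, hs.subC, ⟨by rw [hs.ca, hE.rank], by rw [hs.ra, hE.rank]⟩,
      ⟨by rw [hs.cb, hE.rank], by rw [hs.rb, hE.rank]⟩, ⟨by rw [hs.cc, hE.rank], by rw [hs.rc, hE.rank]⟩,
      hs.dab, hs.dac, hs.dbc, ?_, ?_⟩
    · ext w
      rw [mem_sdiff, mem_union]
      constructor
      · rintro ⟨hw, hn⟩
        rw [← hs.un, mem_union, mem_union] at hw
        push Not at hn
        rcases hw with (hw | hw) | hw
        · exact absurd hw hn.1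
        · exact absurd hw hn.2
        · exact hw
      · intro hw
        exact ⟨hs.subC hw, fun h' => h'.elim (fun h'' => k2 h'' hw) (fun h'' => k3 h'' hw)⟩
    · ext w
      rw [mem_sdiff, mem_union]
      constructor
      · rintro ⟨hw, hn⟩
        rw [← hs.un, mem_union, mem_union] at hw
        push Not at hn
        rcases hw with (hw | hw) | hw
        · exact absurd hw hn.1
        · exact hw
        · exact absurd hw hn.2
      · intro hw
        exact ⟨hs.subB hw, fun h' => h'.elim (fun h'' => k1 h'' hw) (fun h'' => k3 hw h'')⟩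
  have hcls : Cls r r r E (fun A _ _ => Q A) := by
    refine ⟨fun A B C B' C' _ _ => Iff.rfl, ?_, ?_⟩
    · intro A B C A' C' s1 s2
      obtain ⟨a1, a2, a3, a4, a5, a6, a7, a8, a9, a10, a11⟩ := hst _ _ _ s1
      obtain ⟨e1, e2, e3, e4, e5, e6, e7, e8, e9, e10, e11⟩ := hst _ _ _ s2
      have : Stp r E f A A' := ⟨a1, e1, a4, e4, B, a2, a7, e7, a5, by rw [a10]; exact a6, by
        rw [e10]; exact e6⟩
      exact ⟨hQ _ _ this, hQ _ _ (stp_symm this)⟩
    · intro A B C A' B' s1 s2
      obtain ⟨a1, a2, a3, a4, a5, a6, a7, a8, a9, a10, a11⟩ := hst _ _ _ s1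
      obtain ⟨e1, e2, e3, e4, e5, e6, e7, e8, e9, e10, e11⟩ := hst _ _ _ s2
      have : Stp r E f A A' := ⟨a1, e1, a4, e4, C, a3, a8, e8, a6, by rw [a11]; exact a5, by
        rw [e11]; exact e5⟩
      exact ⟨hQ _ _ this, hQ _ _ (stp_symm this)⟩
  refine tstar (p := r) (k := r) (q := r) (E := E) (Z := D) (F := W) (B0 := B0) (C0 := W \ B0)
    (X1 := X1) (X2 := X2) (c := fun A _ _ => Q A) h h hcls ?_ hD ?_ hWE ?_ disjoint_sdiff b1.1 b1.2
    b2.1 b2.2 ?_ h1 h2 ?_ ?_ ?_
  · rw [hE.rank, hE.card]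
    omega
  · rw [hDc, hE.rank]
  · rw [union_sdiff_of_subset hB0]
    exact (inter_eq_right.2 hW).symm
  · intro X hX hXne
    have := hs X hX hXne
    omega
  · intro x hx
    rcases mem_union.1 hx with hx | hx
    · exact (hX1 x hx).1
    · exact (hX2 x hx).1
  · intro x hx
    exact ⟨by rw [hE.rank]; exact (hX1 x hx).2.1, fun _ _ _ => (hX1 x hx).2.2⟩
  · intro x hx
    exact ⟨by rw [hE.rank]; exact (hX2 x hx).2.1, fun _ _ _ => (hX2 x hx).2.2⟩

end Pool.Agent.FT56
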