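import Pool.Agent.FT56.Conn
import Pool.Agent.CF98.Good

/-!
Truncations, strict case.  `r E = f + 1`, `|E| = 3 f`, `|A| < 3 min (r A) f` for `A ≠ ∅, E`: all good bases of the truncation `min (r X) f`
are in one class.

The partitions of `E` into independent sets `C`, `A₁`, `A₂` with `|A₁|, |A₂| ≤ f` are connected (`conn`, slots `r`, `min r f`, `min r f`).
Such a partition is a partition into three bases of the truncation, or its first block has `f + 1` elements; then moving an element from
the first block to the small block gives one (`At`).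
-/

set_option autoImplicit false

namespace Pool.Agent.FT56

open Finset Pool.Agent.DT3 Pool.Agent.CF98

variable {α : Type*} [DecidableEq α] {E : Finset α} {r : Finset α → ℕ} {f : ℕ} {c d c' d' : α → Fin 3}

/-- All good bases are in one class. -/
def ConS (r : Finset α → ℕ) (E : Finset α) (f : ℕ) : Prop :=
  ∀ Q : Finset α → Prop, (∀ A A', Stp r E f A A' → Q A → Q A') →
    ∀ A B, Gd r E f A → Gd r E f B → Q A → Q B

/-- All blocks are bases of the truncation. -/
def Ts (r : Finset α → ℕ) (E : Finset α) (f : ℕ) (c : α → Fin 3) : Prop :=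
  ∀ i, (sl E c i).card = f ∧ r (sl E c i) = f

/-- The rank functions of the slots. -/
def rs (r : Finset α → ℕ) (f : ℕ) (i : Fin 3) (X : Finset α) : ℕ := if i = 0 then r X else min (r X) f

theorem trunc_rank (h : RankFn r) (f : ℕ) : RankFn (fun X => min (r X) f) := by
  refine ⟨?_, ?_, ?_, ?_⟩
  · show min (r ∅) f = 0
    rw [h.empty]
    exact Nat.zero_min f
  · intro X Y hXY
    have := h.mono X Y hXY
    show min (r X) f ≤ min (r Y) f
    omega
  · intro x X
    have := h.insert_le x X
    show min (r (insert x X)) f ≤ min (r X) f + 1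
    omega
  · intro X Y
    have h1 := h.submod X Y
    have h2 := h.mono X (X ∪ Y) subset_union_left
    have h3 := h.mono Y (X ∪ Y) subset_union_right
    have h4 := h.mono (X ∩ Y) X inter_subset_left
    have h5 := h.mono (X ∩ Y) Y inter_subset_right
    show min (r (X ∪ Y)) f + min (r (X ∩ Y)) f ≤ min (r X) f + min (r Y) f
    omega

theorem rs_rank (h : RankFn r) (f : ℕ) (i : Fin 3) : RankFn (rs r f i) := by
  by_cases hi : i = 0
  · have : rs r f i = r := by
      funext X
      simp [rs, hi]
    rw [this]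
    exact h
  · have : rs r f i = fun X => min (r X) f := by
      funext X
      simp [rs, hi]
    rw [this]
    exact trunc_rank h f

theorem nd_iff (h : RankFn r) : Nd (rs r f) E c ↔
    (∀ i, r (sl E c i) = (sl E c i).card) ∧ ∀ i, i ≠ 0 → (sl E c i).card ≤ f := by
  constructor
  · intro hc
    refine ⟨fun i => ?_, fun i hi => ?_⟩
    · have h1 := hc i
      by_cases hi : i = 0
      · simpa [rs, hi] using h1
      · simp only [rs, hi, if_false] at h1
        have h2 := h.le_card (sl E c i)
        omega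
    · have h1 := hc i
      simp only [rs, hi, if_false] at h1
      omega
  · rintro ⟨h1, h2⟩ i
    by_cases hi : i = 0
    · simpa [rs, hi] using h1 i
    · simp only [rs, hi, if_false]
      rw [h1 i]
      exact min_eq_left (h2 i hi)

/-- An element of a circuit outside a closure. -/
theorem exch (h : RankFn r) {I K : Finset α} {x : α} (hI : r I = I.card) (hx : r (insert x I) = r I)
    (hK : r (insert x K) ≠ r K) :
    ∃ b ∈ I, r (insert b K) ≠ r K ∧ r (insert x (I.erase b)) ≠ r (I.erase b) := by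
  classical
  have hne : (I.powerset.filter fun C => r (insert x C) = r C).Nonempty :=
    ⟨I, by
      rw [mem_filter]
      exact ⟨mem_powerset_self _, hx⟩⟩
  obtain ⟨C, hC, hmin⟩ := exists_min_image _ card hne
  rw [mem_filter, mem_powerset] at hC
  have h1 : ∃ b ∈ C, r (insert b K) ≠ r K := by
    by_contra hn
    push Not at hn
    exact hK (ins_trans h hC.2 hn)
  obtain ⟨b, hb, hbK⟩ := h1
  refine ⟨b, hC.1 hb, hbK, ?_⟩
  intro h2
  have h3 := circ h hI hC.1 hb hC.2 h2
  have h4 := hmin (C.erase b) (by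
    rw [mem_filter, mem_powerset]
    exact ⟨(erase_subset b C).trans hC.1, h3⟩)
  have h5 := card_erase_lt_of_mem hb
  omega

/-- An element outside of a closure. -/
theorem exq (h : RankFn r) {C A : Finset α} (hr : r A < r C) : ∃ x ∈ C, r (insert x A) ≠ r A := by
  by_contra hn
  push Not at hn
  have h1 := rank_union h hn
  have h2 := h.mono C (A ∪ C) subset_union_right
  omega

omit [DecidableEq α] in
theorem sum_sl (hE : E.card = 3 * f) :
    (sl E c 0).card + (sl E c 1).card + (sl E c 2).card = 3 * f := by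
  have h1 := card_sl (E := E) (c := c)
  rw [Fin.sum_univ_three, hE] at h1
  exact h1

theorem third {a : Fin 3} (ha : a ≠ 0) : ∃ i, i ≠ 0 ∧ i ≠ a ∧ ∀ j, j = 0 ∨ j = a ∨ j = i := by
  revert a
  decide

omit [DecidableEq α] in
/-- The sum of the sizes of the blocks. -/
theorem sum_slk (hE : E.card = 3 * f) {a i : Fin 3} (ha : a ≠ 0) (hi : i ≠ 0) (hia : i ≠ a) :
    (sl E c 0).card + (sl E c a).card + (sl E c i).card = 3 * f := by
  have h1 := sum_sl (c := c) hE
  fin_cases a <;> fin_cases i
  all_goals first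
    | exact absurd rfl ha
    | exact absurd rfl hi
    | exact absurd rfl hia
    | (simp only [Fin.mk_one, Fin.reduceFinMk] at *; omega)

/-- `d` is attached to `c`. -/
def At (r : Finset α → ℕ) (E : Finset α) (f : ℕ) (c d : α → Fin 3) : Prop :=
  Ts r E f d ∧ (d = c ∨ ∃ x ∈ E, ∃ a, a ≠ 0 ∧ c x = 0 ∧ d = Function.update c x a)

/-- Two states attached to the same partition have a common block. -/
theorem at_share (h1 : At r E f c d) (h2 : At r E f c d') :
    ∃ i, sl E d i = sl E d' i := by
  have key : ∀ x ∈ E, ∀ a, a ≠ 0 → c x = 0 → Ts r E f (Function.update c x a) →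
      (sl E c a).card + 1 = f ∧ (sl E c 0).card = f + 1 ∧ ∀ i, i ≠ 0 → i ≠ a → (sl E c i).card = f := by
    intro x hx a ha hc ht
    have a1 := (ht a).1
    rw [sl_update_self hx, card_insert_of_notMem (by
      rw [mem_sl]
      exact fun h' => ha (h'.2.symm.trans hc))] at a1
    have a2 := (ht 0).1
    have hx0 : x ∈ sl E c 0 := mem_sl.2 ⟨hx, hc⟩
    rw [sl_update_ne (Ne.symm ha), card_erase_of_mem hx0] at a2
    have a3 : 0 < (sl E c 0).card := card_pos.2 ⟨x, hx0⟩
    refine ⟨a1, by omega, ?_⟩
    intro i hi hia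
    have a4 := (ht i).1
    rw [sl_update_of_ne hia (by rw [hc]; exact Ne.symm hi)] at a4
    exact a4
  obtain ⟨t1, e1⟩ := h1
  obtain ⟨t2, e2⟩ := h2
  rcases e1 with e1 | ⟨x, hx, a, ha, hc, e1⟩
  · subst e1
    rcases e2 with e2 | ⟨x', hx', a', ha', hc', e2⟩
    · subst e2
      exact ⟨0, rfl⟩
    · rw [e2] at t2
      have := key x' hx' a' ha' hc' t2
      have := (t1 0).1
      omega
  · rw [e1] at t1
    have k1 := key x hx a ha hc t1
    rcases e2 with e2 | ⟨x', hx', a', ha', hc', e2⟩
    · subst e2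
      have := (t2 0).1
      omega
    · rw [e2] at t2
      have k2 := key x' hx' a' ha' hc' t2
      have haa : a' = a := by
        by_contra hn
        have := k1.2.2 a' ha' hn
        omega
      subst haa
      obtain ⟨i, hi, hia, -⟩ := third ha
      refine ⟨i, ?_⟩
      rw [e1, e2, sl_update_of_ne hia (by rw [hc]; exact Ne.symm hi),
        sl_update_of_ne hia (by rw [hc']; exact Ne.symm hi)]

/-- The double move `0 → k`, `k → m`. -/
theorem mv2 (h : RankFn r) (hn : ∀ i, r (sl E c i) = (sl E c i).card) {k m : Fin 3} (hk : k ≠ 0)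
    (hm : m ≠ 0) (hkm : k ≠ m) (hcm : (sl E c m).card + 1 = f) (hc0 : (sl E c 0).card = f + 1)
    (hck : (sl E c k).card = f) {x b : α} (hx : x ∈ sl E c 0) (hb : b ∈ sl E c k)
    (hbm : r (insert b (sl E c m)) ≠ r (sl E c m))
    (hxk : r (insert x ((sl E c k).erase b)) ≠ r ((sl E c k).erase b)) :
    Ts r E f (Function.update (Function.update c x k) b m) ∧
    sl E (Function.update (Function.update c x k) b m) 0 = (sl E c 0).erase x ∧
    sl E (Function.update (Function.update c x k) b m) m = insert b (sl E c m) := by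
  have hx' := mem_sl.1 hx
  have hb' := mem_sl.1 hb
  have hxb : b ≠ x := by
    rintro rfl
    exact hk (hb'.2.symm.trans hx'.2)
  have e0 : sl E (Function.update (Function.update c x k) b m) 0 = (sl E c 0).erase x := by
    rw [sl_update_ne (Ne.symm hm), sl_update_ne (Ne.symm hk)]
    apply erase_eq_of_notMem
    rw [mem_erase]
    rintro ⟨-, h'⟩
    exact hk (hb'.2.symm.trans (mem_sl.1 h').2)
  have em : sl E (Function.update (Function.update c x k) b m) m = insert b (sl E c m) := by
    rw [sl_update_self hb'.1, sl_update_of_ne (Ne.symm hkm) (by rw [hx'.2]; exact Ne.symm hm)]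
  have ek : sl E (Function.update (Function.update c x k) b m) k = insert x ((sl E c k).erase b) := by
    rw [sl_update_ne hkm, sl_update_self hx'.1, erase_insert_of_ne (Ne.symm hxb)]
  refine ⟨?_, e0, em⟩
  intro i
  obtain ⟨i', -, -, hi⟩ := third hk
  have hi3 : i = 0 ∨ i = k ∨ i = m := by
    rcases hi i with h1 | h1 | h1
    · exact Or.inl h1
    · exact Or.inr (Or.inl h1)
    · rcases hi m with h2 | h2 | h2
      · exact absurd h2 hm
      · exact absurd h2.symm hkm
      · exact Or.inr (Or.inr (h1.trans h2.symm))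
  rcases hi3 with rfl | rfl | rfl
  · rw [e0]
    have a1 := card_erase_add_one hx
    have a2 := CF98.ind_sub h (hn 0) (erase_subset x (sl E c 0))
    constructor <;> omega
  · rw [ek]
    have a1 := card_erase_add_one hb
    have a2 := CF98.ind_sub h (hn i) (erase_subset b (sl E c i))
    have a3 := ins_eq h hxk
    have a4 : x ∉ (sl E c i).erase b := fun h' => hxk (by rw [insert_eq_of_mem h'])
    rw [card_insert_of_notMem a4]
    constructor <;> omega
  · rw [em]
    have a3 := ins_eq h hbm
    have a4 : b ∉ sl E c i := fun h' => hbm (by rw [insert_eq_of_mem h'])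
    rw [card_insert_of_notMem a4]
    have a5 := hn i
    constructor <;> omega

/-- The single move `0 → m`. -/
theorem mv1 (h : RankFn r) (hn : ∀ i, r (sl E c i) = (sl E c i).card) {k m : Fin 3} (hk : k ≠ 0)
    (hm : m ≠ 0) (hkm : k ≠ m) (hcm : (sl E c m).card + 1 = f) (hc0 : (sl E c 0).card = f + 1)
    (hck : (sl E c k).card = f) {x : α} (hx : x ∈ sl E c 0)
    (hxm : r (insert x (sl E c m)) ≠ r (sl E c m)) :
    Ts r E f (Function.update c x m) ∧
    sl E (Function.update c x m) 0 = (sl E c 0).erase x := by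
  have hx' := mem_sl.1 hx
  have e0 : sl E (Function.update c x m) 0 = (sl E c 0).erase x := sl_update_ne (Ne.symm hm)
  refine ⟨?_, e0⟩
  intro i
  obtain ⟨i', -, -, hi⟩ := third hk
  have hi3 : i = 0 ∨ i = k ∨ i = m := by
    rcases hi i with h1 | h1 | h1
    · exact Or.inl h1
    · exact Or.inr (Or.inl h1)
    · rcases hi m with h2 | h2 | h2
      · exact absurd h2 hm
      · exact absurd h2.symm hkm
      · exact Or.inr (Or.inr (h1.trans h2.symm))
  rcases hi3 with rfl | rfl | rfl
  · rw [e0]
    have a1 := card_erase_add_one hx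
    have a2 := CF98.ind_sub h (hn 0) (erase_subset x (sl E c 0))
    constructor <;> omega
  · rw [sl_update_of_ne hkm (by rw [hx'.2]; exact Ne.symm hk)]
    exact ⟨hck, by rw [hn i, hck]⟩
  · rw [sl_update_self hx'.1]
    have a3 := ins_eq h hxm
    have a4 : x ∉ sl E c i := fun h' => hxm (by rw [insert_eq_of_mem h'])
    rw [card_insert_of_notMem a4]
    have a5 := hn i
    constructor <;> omega

/-- The sizes of the blocks of a partition which is not a state. -/
theorem sizes (h : RankFn r) (hE : E.card = 3 * f) (hr : r E = f + 1) (hc : Nd (rs r f) E c) :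
    Ts r E f c ∨ ∃ m k : Fin 3, k ≠ 0 ∧ m ≠ 0 ∧ k ≠ m ∧ (sl E c m).card + 1 = f ∧
      (sl E c 0).card = f + 1 ∧ (sl E c k).card = f := by
  obtain ⟨h1, h2⟩ := (nd_iff h).1 hc
  have h3 := sum_sl (c := c) hE
  have h4 := h.mono _ _ (sl_sub (E := E) (c := c) (i := 0))
  have h5 := h1 0
  have h6 := h2 1 (by decide)
  have h7 := h2 2 (by decide)
  rw [hr] at h4
  by_cases a0 : (sl E c 0).card = f
  · left
    have a1 : ∀ i, (sl E c i).card = f := by
      intro i
      fin_cases i
      · exact a0
      · show (sl E c 1).card = f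
        omega
      · show (sl E c 2).card = f
        omega
    intro i
    exact ⟨a1 i, by rw [h1 i, a1 i]⟩
  · right
    by_cases a1 : (sl E c 1).card = f
    · exact ⟨2, 1, by decide, by decide, by decide, by omega, by omega, a1⟩
    · exact ⟨1, 2, by decide, by decide, by decide, by omega, by omega, by omega⟩

theorem at_ex (h : RankFn r) (hE : E.card = 3 * f) (hr : r E = f + 1) (hc : Nd (rs r f) E c) :
    ∃ d, At r E f c d := by
  rcases sizes h hE hr hc with h1 | ⟨m, k, hk, hm, hkm, hcm, hc0, hck⟩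
  · exact ⟨c, h1, Or.inl rfl⟩
  · have hn := ((nd_iff h).1 hc).1
    obtain ⟨x, hx, hxm⟩ := exq h (C := sl E c 0) (A := sl E c m) (by rw [hn, hn]; omega)
    have := mv1 h hn hk hm hkm hcm hc0 hck hx hxm
    exact ⟨_, this.1, Or.inr ⟨x, (mem_sl.1 hx).1, m, hm, (mem_sl.1 hx).2, rfl⟩⟩

/-- Invariance under a common block. -/
def Shr (r : Finset α → ℕ) (E : Finset α) (f : ℕ) (Q : (α → Fin 3) → Prop) : Prop :=
  ∀ d d', Ts r E f d → Ts r E f d' → (∃ i, sl E d i = sl E d' i) → Q d → Q d'

/-- The extended class function. -/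
def PP (r : Finset α → ℕ) (E : Finset α) (f : ℕ) (Q : (α → Fin 3) → Prop) (c : α → Fin 3) : Prop :=
  ∃ d, At r E f c d ∧ Q d

theorem pp_all {Q : (α → Fin 3) → Prop} (hQ : Shr r E f Q) (hp : PP r E f Q c) (hd : At r E f c d) :
    Q d := by
  obtain ⟨d', h1, h2⟩ := hp
  exact hQ d' d h1.1 hd.1 (at_share h1 hd) h2

theorem pp_mv {Q : (α → Fin 3) → Prop} (h : RankFn r) (hE : E.card = 3 * f) (hr : r E = f + 1)
    (hQ : Shr r E f Q) (hm : Mv (rs r f) E c c') (hp : PP r E f Q c) : PP r E f Q c' := by
  obtain ⟨hc, hc', s, hs, m, hsm, rfl⟩ := hm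
  have hn := ((nd_iff h).1 hc).1
  have hn2 := ((nd_iff h).1 hc).2
  have hn' := ((nd_iff h).1 hc').1
  have hn2' := ((nd_iff h).1 hc').2
  have hnm : s ∉ sl E c m := fun h' => hsm (mem_sl.1 h').2
  by_cases m0 : m = 0
  · -- `s` moves into slot `0`
    subst m0
    have a1 := h.mono _ _ (sl_sub (E := E) (c := Function.update c s 0) (i := 0))
    rw [hn', sl_update_self hs, card_insert_of_notMem hnm, hr] at a1
    have hT : Ts r E f c := by
      rcases sizes h hE hr hc with h1 | ⟨m, k, hk, hm, hkm, hcm, hc0, hck⟩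
      · exact h1
      · omega
    have hq := pp_all hQ hp (d := c) ⟨hT, Or.inl rfl⟩
    refine ⟨c, ⟨hT, Or.inr ⟨s, hs, c s, hsm, Function.update_self _ _ _, ?_⟩⟩, hq⟩
    rw [Function.update_idem, Function.update_eq_self]
  · have b1 := hn2' m m0
    rw [sl_update_self hs, card_insert_of_notMem hnm] at b1
    by_cases s0 : c s = 0
    · -- `s` moves out of slot `0`
      have hs0 : s ∈ sl E c 0 := mem_sl.2 ⟨hs, s0⟩
      have hT : Ts r E f (Function.update c s m) := by
        rcases sizes h hE hr hc' with h1 | ⟨m', k', hk', hm', hkm', hcm', hc0', hck'⟩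
        · exact h1
        · have a1 := h.mono _ _ (sl_sub (E := E) (c := c) (i := 0))
          have a2 := card_erase_add_one hs0
          rw [sl_update_ne (Ne.symm m0)] at hc0'
          rw [hn, hr] at a1
          omega
      have hA : At r E f c (Function.update c s m) := ⟨hT, Or.inr ⟨s, hs, m, m0, s0, rfl⟩⟩
      exact ⟨_, ⟨hT, Or.inl rfl⟩, pp_all hQ hp hA⟩
    · -- the move from slot `k` to slot `m`
      obtain ⟨k, hk0⟩ : ∃ k, c s = k := ⟨_, rfl⟩
      have k0 : k ≠ 0 := fun e => s0 (hk0.trans e)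
      have hkm : k ≠ m := fun e => hsm (hk0.trans e)
      have hsk : s ∈ sl E c k := mem_sl.2 ⟨hs, hk0⟩
      have c3 := sum_slk (c := c) hE m0 k0 hkm
      have c4 := h.mono _ _ (sl_sub (E := E) (c := c) (i := 0))
      rw [hn, hr] at c4
      have c5 := hn2 k k0
      have hcm : (sl E c m).card + 1 = f := by omega
      have hc0 : (sl E c 0).card = f + 1 := by omega
      have hck : (sl E c k).card = f := by omega
      have hsA : r (insert s (sl E c m)) ≠ r (sl E c m) := by
        have := hn' m
        rw [sl_update_self hs, card_insert_of_notMem hnm] at this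
        rw [this, hn m]
        omega
      obtain ⟨x2, hx2, hx2B⟩ := exq h (C := sl E c 0) (A := sl E c k) (by rw [hn, hn]; omega)
      -- an element outside the closure of `B` is outside the closure of `B - b`
      have hmono : ∀ b, r (insert x2 ((sl E c k).erase b)) ≠ r ((sl E c k).erase b) :=
        fun b h' => hx2B (ins_mono h (erase_subset b _) h')
      have d4 := mv2 h hn k0 m0 hkm hcm hc0 hck hx2 hsk hsA (hmono s)
      have hne : x2 ≠ s := by
        rintro rfl
        exact k0 ((mem_sl.1 hsk).2.symm.trans (mem_sl.1 hx2).2)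
      have hA4 : At r E f (Function.update c s m)
          (Function.update (Function.update c x2 k) s m) := by
        refine ⟨d4.1, Or.inr ⟨x2, (mem_sl.1 hx2).1, k, k0, ?_, ?_⟩⟩
        · rw [Function.update_of_ne hne]
          exact (mem_sl.1 hx2).2
        · rw [Function.update_comm hne]
      refine ⟨_, hA4, ?_⟩
      by_cases hx2A : r (insert x2 (sl E c m)) = r (sl E c m)
      · obtain ⟨x1, hx1, hx1A⟩ := exq h (C := sl E c 0) (A := sl E c m) (by rw [hn, hn]; omega)
        by_cases hx1B : r (insert x1 (sl E c k)) = r (sl E c k)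
        · obtain ⟨b, hb, hbA, hbB⟩ := exch h (hn k) hx1B hx1A
          have t1 := mv1 h hn k0 m0 hkm hcm hc0 hck hx1 hx1A
          have t2 := mv2 h hn k0 m0 hkm hcm hc0 hck hx1 hb hbA hbB
          have t3 := mv2 h hn k0 m0 hkm hcm hc0 hck hx2 hb hbA (hmono b)
          have hA1 : At r E f c (Function.update c x1 m) :=
            ⟨t1.1, Or.inr ⟨x1, (mem_sl.1 hx1).1, m, m0, (mem_sl.1 hx1).2, rfl⟩⟩
          have q1 := pp_all hQ hp hA1
          have q2 := hQ _ _ t1.1 t2.1 ⟨0, by rw [t1.2, t2.2.1]⟩ q1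
          have q3 := hQ _ _ t2.1 t3.1 ⟨m, by rw [t2.2.2, t3.2.2]⟩ q2
          exact hQ _ _ t3.1 d4.1 ⟨0, by rw [t3.2.1, d4.2.1]⟩ q3
        · have hmono1 : r (insert x1 ((sl E c k).erase s)) ≠ r ((sl E c k).erase s) :=
            fun h' => hx1B (ins_mono h (erase_subset s _) h')
          have t1 := mv1 h hn k0 m0 hkm hcm hc0 hck hx1 hx1A
          have t2 := mv2 h hn k0 m0 hkm hcm hc0 hck hx1 hsk hsA hmono1
          have hA1 : At r E f c (Function.update c x1 m) :=
            ⟨t1.1, Or.inr ⟨x1, (mem_sl.1 hx1).1, m, m0, (mem_sl.1 hx1).2, rfl⟩⟩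
          have q1 := pp_all hQ hp hA1
          have q2 := hQ _ _ t1.1 t2.1 ⟨0, by rw [t1.2, t2.2.1]⟩ q1
          exact hQ _ _ t2.1 d4.1 ⟨m, by rw [t2.2.2, d4.2.2]⟩ q2
      · have t1 := mv1 h hn k0 m0 hkm hcm hc0 hck hx2 hx2A
        have hA1 : At r E f c (Function.update c x2 m) :=
          ⟨t1.1, Or.inr ⟨x2, (mem_sl.1 hx2).1, m, m0, (mem_sl.1 hx2).2, rfl⟩⟩
        have q1 := pp_all hQ hp hA1
        exact hQ _ _ t1.1 d4.1 ⟨0, by rw [t1.2, d4.2.1]⟩ q1

theorem mv_symm {r : Fin 3 → Finset α → ℕ} (h : Mv r E c c') : Mv r E c' c := by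
  obtain ⟨hc, hc', s, hs, m, hsm, rfl⟩ := h
  refine ⟨hc', hc, s, hs, c s, ?_, ?_⟩
  · rw [Function.update_self]
    exact Ne.symm hsm
  · rw [Function.update_idem, Function.update_eq_self]

/-- The states are connected. -/
theorem ts_conn {Q : (α → Fin 3) → Prop} (h : RankFn r) (hE : E.card = 3 * f) (hr : r E = f + 1)
    (hs : ∀ X ⊆ E, X.Nonempty → X ≠ E → X.card + 1 ≤ 3 * min (r X) f)
    (hQ : Shr r E f Q) (h1 : Ts r E f c) (h2 : Ts r E f c') (ha : ∀ x ∉ E, c x = c' x) (hq : Q c) :
    Q c' := by
  have hn : ∀ d, Ts r E f d → Nd (rs r f) E d := by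
    intro d hd
    rw [nd_iff h]
    exact ⟨fun i => by rw [(hd i).1, (hd i).2], fun i _ => (hd i).1.le⟩
  have hp : PP r E f Q c' := by
    refine conn (r := rs r f) (rs_rank h f) ?_ ?_ (hn c h1) (hn c' h2) ha ⟨c, ⟨h1, Or.inl rfl⟩, hq⟩
    · intro X hX hXne
      rw [Fin.sum_univ_three]
      simp only [rs, if_true, Fin.one_eq_zero_iff, OfNat.ofNat_ne_one, if_false,
        Fin.reduceEq]
      by_cases hXE : X = E
      · rw [hXE, hE, hr]
        omega
      · have := hs X hX hXne hXE
        omega
    · intro d d' hm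
      exact ⟨pp_mv h hE hr hQ hm, pp_mv h hE hr hQ (mv_symm hm)⟩
  exact pp_all hQ hp ⟨h2, Or.inl rfl⟩

end Pool.Agent.FT56
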