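import Pool.Agent.FT56.AB

/-!
Definitions for the principal truncation.

* `KR ρ` : all systems of contractions of `ρ` have one class;
* `Tri a b E f D B A` : a partition of `E` into a basis `D` of `a` (`f + 1` elements), a set `B` with `f` elements which does not span the fixed
  set, and a set `A` with `f - 1` elements modulo which the fixed set has rank `2`.
-/

set_option autoImplicit false

namespace Pool.Agent.FT56

open Finset Pool.Agent.DT3 Pool.Agent.CF98

/-- All systems of contractions of `ρ` have one class. -/
def KR {α : Type*} (β : Type*) [DecidableEq α] [DecidableEq β] (ρ : Finset α → ℕ) : Prop :=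
  ∀ (ψ : β → α) (I : Finset α) (E : Finset β) (f : ℕ), Env (mkr ρ ψ I) E f → ConS (mkr ρ ψ I) E f

/-- A partition of the second kind. -/
structure Tri {β : Type*} [DecidableEq β] (a b : Finset β → ℕ) (E : Finset β) (f : ℕ)
    (D B A : Finset β) : Prop where
  db : Disjoint D B
  da : Disjoint D A
  ba : Disjoint B A
  un : D ∪ B ∪ A = E
  d1 : D.card = f + 1
  d2 : a D = f + 1
  d3 : b D = f + 1
  b1 : B.card = f
  b2 : a B = f
  b3 : f + 1 ≤ b B
  a1 : A.card + 1 = f
  a2 : a A + 1 = f
  a3 : b A = f + 1

end Pool.Agent.FT56
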