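import Pool.Agent.FT56.J1

/-!
The system of rank `f + 1` above a system `t` of the principal truncation: `E` together with two copies `u1`, `u2` of the new
element and a copy `u3` of an element `x` of the fixed set.
-/

set_option autoImplicit false

namespace Pool.Agent.FT56

open Finset Pool.Agent.DT3 Pool.Agent.CF98

variable {β : Type*} [DecidableEq β]

/-- `E` with three new elements. -/
def E3 (E : Finset β) (u1 u2 u3 : β) : Finset β := insert u1 (insert u2 (insert u3 E))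

/-- `rx` is the rank function of `E3`; `ax Y` is the rank of `Y + x`. -/
structure Up (rx a b ax : Finset β → ℕ) (E : Finset β) (u1 u2 u3 : β) : Prop where
  rk : RankFn rx
  n1 : u1 ∉ E
  n2 : u2 ∉ E
  n3 : u3 ∉ E
  n12 : u1 ≠ u2
  n13 : u1 ≠ u3
  n23 : u2 ≠ u3
  l1 : ∀ Y, a Y ≤ ax Y
  l2 : ∀ Y, ax Y ≤ a Y + 1
  l3 : ∀ Y, ax Y ≤ b Y
  l0 : ax ∅ = 1
  v0 : ∀ S ⊆ E3 E u1 u2 u3, u1 ∉ S → u2 ∉ S → u3 ∉ S → rx S = a (S ∩ E)
  v3 : ∀ S ⊆ E3 E u1 u2 u3, u1 ∉ S → u2 ∉ S → u3 ∈ S → rx S = ax (S ∩ E)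
  v12 : ∀ S ⊆ E3 E u1 u2 u3, (u1 ∈ S ∨ u2 ∈ S) → u3 ∉ S → rx S = min (a (S ∩ E) + 1) (b (S ∩ E))
  v123 : ∀ S ⊆ E3 E u1 u2 u3, (u1 ∈ S ∨ u2 ∈ S) → u3 ∈ S →
    rx S = min (ax (S ∩ E) + 1) (b (S ∩ E))

theorem mem_E3 {E : Finset β} {u1 u2 u3 z : β} :
    z ∈ E3 E u1 u2 u3 ↔ z = u1 ∨ z = u2 ∨ z = u3 ∨ z ∈ E := by
  unfold E3
  rw [mem_insert, mem_insert, mem_insert]

end Pool.Agent.FT56
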