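import Pool.Agent.FT56.Up

/-!
The system of rank `f + 1` above a system of the principal truncation.

* `up_env`: it satisfies the standing assumptions;
* `up_x`: it exists.
-/

set_option autoImplicit false

namespace Pool.Agent.FT56

open Finset Pool.Agent.DT3 Pool.Agent.CF98

variable {α β : Type*} [DecidableEq α] [DecidableEq β]

theorem up_env {t rx a b ax : Finset β → ℕ} {E : Finset β} {u1 u2 u3 : β} {f : ℕ} (h : AB a b)
    (hb : ∀ X, 1 ≤ b X) (ht : ∀ X ⊆ E, t X = min (a X) (b X - 1)) (hE : Env t E f)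
    (hs : Strict t E) (haE : a E = f + 1) (hbE : b E = f + 1) (hU : Up rx a b ax E u1 u2 u3) :
    Env rx (E3 E u1 u2 u3) (f + 1) := by
  have hEE : E3 E u1 u2 u3 ∩ E = E := by
    rw [inter_eq_right]
    intro z hz
    exact mem_E3.2 (Or.inr (Or.inr (Or.inr hz)))
  have m1 : u1 ∉ insert u2 (insert u3 E) := by
    rw [mem_insert, mem_insert, not_or, not_or]
    exact ⟨hU.n12, hU.n13, hU.n1⟩
  have m2 : u2 ∉ insert u3 E := by
    rw [mem_insert, not_or]
    exact ⟨hU.n23, hU.n2⟩
  refine ⟨hU.rk, ?_, ?_, ?_⟩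
  · unfold E3
    rw [card_insert_of_notMem m1, card_insert_of_notMem m2, card_insert_of_notMem hU.n3, hE.card]
    ring
  · have h1 := hU.v123 (E3 E u1 u2 u3) (Subset.refl _) (Or.inl (mem_E3.2 (Or.inl rfl)))
      (mem_E3.2 (Or.inr (Or.inr (Or.inl rfl))))
    rw [hEE, hbE] at h1
    have h2 := hU.l1 E
    rw [haE] at h2
    rw [h1]
    omega
  · intro X hX
    have hY : X ∩ E ⊆ E := inter_subset_right
    have h1 := ht _ hY
    have h2 := hE.three _ hY
    have h3 := hb (X ∩ E)
    have h4 := hU.l1 (X ∩ E)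
    have hc : X.card ≤ (X ∩ E).card + 3 := by
      have h5 : X ⊆ (X ∩ E) ∪ {u1, u2, u3} := by
        intro z hz
        rw [mem_union, mem_inter, mem_insert, mem_insert, mem_singleton]
        rcases mem_E3.1 (hX hz) with h6 | h6 | h6 | h6
        · exact Or.inr (Or.inl h6)
        · exact Or.inr (Or.inr (Or.inl h6))
        · exact Or.inr (Or.inr (Or.inr h6))
        · exact Or.inl ⟨hz, h6⟩
      have h6 := card_le_card h5
      have h7 := card_union_le (X ∩ E) {u1, u2, u3}
      have h8 : ({u1, u2, u3} : Finset β).card ≤ 3 := card_le_three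
      omega
    by_cases h12 : u1 ∈ X ∨ u2 ∈ X
    · by_cases h5 : u3 ∈ X
      · have h6 := hU.v123 X hX h12 h5
        omega
      · have h6 := hU.v12 X hX h12 h5
        omega
    · rw [not_or] at h12
      by_cases h5 : u3 ∈ X
      · have h6 := hU.v3 X hX h12.1 h12.2 h5
        have hc' : X.card = (X ∩ E).card + 1 := by
          have h7 : X = insert u3 (X ∩ E) := by
            ext z
            rw [mem_insert, mem_inter]
            constructor
            · intro hz
              rcases mem_E3.1 (hX hz) with h8 | h8 | h8 | h8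
              · exact absurd (h8 ▸ hz) h12.1
              · exact absurd (h8 ▸ hz) h12.2
              · exact Or.inl h8
              · exact Or.inr ⟨hz, h8⟩
            · rintro (h8 | h8)
              · rw [h8]
                exact h5
              · exact h8.1
          have h8 : u3 ∉ X ∩ E := fun h9 => hU.n3 (mem_inter.1 h9).2
          have h9 := congrArg Finset.card h7
          rw [card_insert_of_notMem h8] at h9
          exact h9
        rw [h6]
        rcases (X ∩ E).eq_empty_or_nonempty with h7 | h7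
        · rw [h7, card_empty] at hc'
          rw [h7, hU.l0]
          omega
        · by_cases h8 : X ∩ E = E
          · rw [h8] at h4 ⊢
            rw [h8, hE.card] at hc'
            omega
          · have h9 := hs _ hY h7 h8
            omega
      · have h6 := hU.v0 X hX h12.1 h12.2 h5
        have h7 : X ∩ E = X := by
          rw [inter_eq_left]
          intro z hz
          rcases mem_E3.1 (hX hz) with h8 | h8 | h8 | h8
          · exact absurd (h8 ▸ hz) h12.1
          · exact absurd (h8 ▸ hz) h12.2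
          · exact absurd (h8 ▸ hz) h5
          · exact h8
        rw [h7] at h1 h2 h6
        omega

theorem up_x {ρ ρ' : Finset α → ℕ} {e : α} {F : Finset α} (hP : PE ρ ρ' e F) {ψ : β → α}
    {I : Finset α} (he : e ∉ I) {E : Finset β} (hne : ∀ z ∈ E, ψ z ≠ e) {u1 u2 u3 : β}
    (n1 : u1 ∉ E) (n2 : u2 ∉ E) (n3 : u3 ∉ E) (n12 : u1 ≠ u2) (n13 : u1 ≠ u3) (n23 : u2 ≠ u3)
    {x : α} (hx : x ∈ F) (hxI : ρ (insert x I) ≠ ρ I) :
    Up (mkr ρ' (Function.update (Function.update (Function.update ψ u1 e) u2 e) u3 x) I)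
      (mkr ρ ψ I) (mkb ρ ψ I F) (fun Y => ρ (insert x (Y.image ψ ∪ I)) - ρ I) E u1 u2 u3 := by
  set ψ' := Function.update (Function.update (Function.update ψ u1 e) u2 e) u3 x with hψ'
  have k1 : ψ' u1 = e := by
    rw [hψ', Function.update_of_ne n13, Function.update_of_ne n12, Function.update_self]
  have k2 : ψ' u2 = e := by
    rw [hψ', Function.update_of_ne n23, Function.update_self]
  have k3 : ψ' u3 = x := by
    rw [hψ', Function.update_self]
  have kE : ∀ z ∈ E, ψ' z = ψ z := by
    intro z hz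
    have q1 : ∀ u, u ∉ E → z ≠ u := fun u hu h => hu (h ▸ hz)
    rw [hψ', Function.update_of_ne (q1 u3 n3), Function.update_of_ne (q1 u2 n2),
      Function.update_of_ne (q1 u1 n1)]
  have hxe : x ≠ e := fun h => hP.eF (h ▸ hx)
  have him : ∀ S ⊆ E3 E u1 u2 u3, ∀ z, z ∈ S.image ψ' ↔
      (z = e ∧ (u1 ∈ S ∨ u2 ∈ S)) ∨ (z = x ∧ u3 ∈ S) ∨ z ∈ (S ∩ E).image ψ := by
    intro S hS z
    rw [mem_image, mem_image]
    constructor
    · rintro ⟨s, hs, hsz⟩
      rcases mem_E3.1 (hS hs) with h | h | h | h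
      · left
        rw [h] at hs hsz
        exact ⟨by rw [← hsz, k1], Or.inl hs⟩
      · left
        rw [h] at hs hsz
        exact ⟨by rw [← hsz, k2], Or.inr hs⟩
      · right
        left
        rw [h] at hs hsz
        exact ⟨by rw [← hsz, k3], hs⟩
      · right
        right
        exact ⟨s, mem_inter.2 ⟨hs, h⟩, by rw [← kE s h, hsz]⟩
    · rintro (⟨h1, h2 | h2⟩ | ⟨h1, h2⟩ | ⟨s, hs, hsz⟩)
      · exact ⟨u1, h2, by rw [k1, h1]⟩
      · exact ⟨u2, h2, by rw [k2, h1]⟩
      · exact ⟨u3, h2, by rw [k3, h1]⟩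
      · exact ⟨s, (mem_inter.1 hs).1, by rw [kE s (mem_inter.1 hs).2, hsz]⟩
  have hI : ρ' I = ρ I := hP.out I he
  have heY : ∀ Y : Finset β, Y ⊆ E → e ∉ Y.image ψ ∪ I := by
    intro Y hY h
    rcases mem_union.1 h with h | h
    · obtain ⟨s, hs, hse⟩ := mem_image.1 h
      exact hne s (hY hs) hse
    · exact he h
  have g1 : ∀ Z : Finset α, ρ I ≤ ρ (Z ∪ I) := fun Z => hP.r1.mono _ _ subset_union_right
  have g2 : ∀ Z : Finset α, ρ Z ≤ ρ (insert x Z) := fun Z => hP.r1.mono _ _ (subset_insert _ _)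
  have g3 : ∀ Z : Finset α, ρ (insert x Z) ≤ ρ Z + 1 := fun Z => hP.r1.insert_le x Z
  have g4 : ∀ Z : Finset α, ρ (insert x Z) ≤ ρ (Z ∪ F) := by
    intro Z
    refine hP.r1.mono _ _ ?_
    intro z hz
    rcases mem_insert.1 hz with h | h
    · rw [h]
      exact mem_union_right _ hx
    · exact mem_union_left _ h
  refine ⟨mkr_rank hP.r2 _ _, n1, n2, n3, n12, n13, n23, ?_, ?_, ?_, ?_, ?_, ?_, ?_, ?_⟩
  · intro Y
    exact Nat.sub_le_sub_right (g2 _) _
  · intro Y
    have := g3 (Y.image ψ ∪ I)
    have := g1 (Y.image ψ)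
    show ρ (insert x (Y.image ψ ∪ I)) - ρ I ≤ (ρ (Y.image ψ ∪ I) - ρ I) + 1
    omega
  · intro Y
    exact Nat.sub_le_sub_right (g4 _) _
  · show ρ (insert x ((∅ : Finset β).image ψ ∪ I)) - ρ I = 1
    rw [image_empty, empty_union]
    have := g3 I
    have := g2 I
    omega
  · intro S hS h1 h2 h3
    have e1 : S.image ψ' ∪ I = (S ∩ E).image ψ ∪ I := by
      ext z
      rw [mem_union, mem_union, him S hS z]
      constructor
      · rintro ((⟨_, h | h⟩ | ⟨_, h⟩ | h) | h)
        · exact absurd h h1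
        · exact absurd h h2
        · exact absurd h h3
        · exact Or.inl h
        · exact Or.inr h
      · rintro (h | h)
        · exact Or.inl (Or.inr (Or.inr h))
        · exact Or.inr h
    show ρ' (S.image ψ' ∪ I) - ρ' I = ρ ((S ∩ E).image ψ ∪ I) - ρ I
    rw [e1, hI, hP.out _ (heY _ inter_subset_right)]
  · intro S hS h1 h2 h3
    have e1 : S.image ψ' ∪ I = insert x ((S ∩ E).image ψ ∪ I) := by
      ext z
      rw [mem_union, mem_insert, mem_union, him S hS z]
      constructor
      · rintro ((⟨_, h | h⟩ | ⟨h, _⟩ | h) | h)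
        · exact absurd h h1
        · exact absurd h h2
        · exact Or.inl h
        · exact Or.inr (Or.inl h)
        · exact Or.inr (Or.inr h)
      · rintro (h | h | h)
        · exact Or.inl (Or.inr (Or.inl ⟨h, h3⟩))
        · exact Or.inl (Or.inr (Or.inr h))
        · exact Or.inr h
    show ρ' (S.image ψ' ∪ I) - ρ' I = ρ (insert x ((S ∩ E).image ψ ∪ I)) - ρ I
    rw [e1, hI, hP.out _ (fun h => by
      rcases mem_insert.1 h with h | h
      · exact hxe h.symm
      · exact heY _ inter_subset_right h)]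
  · intro S hS h12 h3
    have e1 : S.image ψ' ∪ I = insert e ((S ∩ E).image ψ ∪ I) := by
      ext z
      rw [mem_union, mem_insert, mem_union, him S hS z]
      constructor
      · rintro ((⟨h, _⟩ | ⟨_, h⟩ | h) | h)
        · exact Or.inl h
        · exact absurd h h3
        · exact Or.inr (Or.inl h)
        · exact Or.inr (Or.inr h)
      · rintro (h | h | h)
        · exact Or.inl (Or.inl ⟨h, h12⟩)
        · exact Or.inl (Or.inr (Or.inr h))
        · exact Or.inr h
    have e2 := hP.inn _ (heY (S ∩ E) inter_subset_right)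
    have e3 := g1 ((S ∩ E).image ψ)
    show ρ' (S.image ψ' ∪ I) - ρ' I = min ((ρ ((S ∩ E).image ψ ∪ I) - ρ I) + 1)
      (ρ ((S ∩ E).image ψ ∪ I ∪ F) - ρ I)
    rw [e1, hI, e2]
    omega
  · intro S hS h12 h3
    have e1 : S.image ψ' ∪ I = insert e (insert x ((S ∩ E).image ψ ∪ I)) := by
      ext z
      rw [mem_union, mem_insert, mem_insert, mem_union, him S hS z]
      constructor
      · rintro ((⟨h, _⟩ | ⟨h, _⟩ | h) | h)
        · exact Or.inl h
        · exact Or.inr (Or.inl h)
        · exact Or.inr (Or.inr (Or.inl h))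
        · exact Or.inr (Or.inr (Or.inr h))
      · rintro (h | h | h | h)
        · exact Or.inl (Or.inl ⟨h, h12⟩)
        · exact Or.inl (Or.inr (Or.inl ⟨h, h3⟩))
        · exact Or.inl (Or.inr (Or.inr h))
        · exact Or.inr h
    have e2 := hP.inn (insert x ((S ∩ E).image ψ ∪ I)) (fun h => by
      rcases mem_insert.1 h with h | h
      · exact hxe h.symm
      · exact heY _ inter_subset_right h)
    have e3 := g1 ((S ∩ E).image ψ)
    have e4 := g2 ((S ∩ E).image ψ ∪ I)
    have e5 : insert x ((S ∩ E).image ψ ∪ I) ∪ F = (S ∩ E).image ψ ∪ I ∪ F := by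
      rw [insert_union, insert_eq_of_mem (mem_union_right _ hx)]
    rw [e5] at e2
    show ρ' (S.image ψ' ∪ I) - ρ' I = min ((ρ (insert x ((S ∩ E).image ψ ∪ I)) - ρ I) + 1)
      (ρ ((S ∩ E).image ψ ∪ I ∪ F) - ρ I)
    rw [e1, hI, e2]
    omega

end Pool.Agent.FT56
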